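import Mathlib
import Pool.Agent.Helper58.BP.Unr

set_option autoImplicit false

/-! The relation of degree two in the extensions of class two. -/

namespace Pool.Agent.Helper58.BQ

open Pool.Agent.Helper58.BP

section

variable {F : Type} [Field F]

/-- partial products -/
def Ap (ξ : F) (m : ℕ) (x : F) : F := ∏ j ∈ Finset.range m, (1 - ξ ^ j * x)

/-- the element whose root generates the extension of class two -/
def Th (p : ℕ) (ξ x : F) : F := ∏ j ∈ Finset.range p, (1 - ξ ^ j * x) ^ j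

lemma Ap_add (ξ : F) (m n : ℕ) (x : F) : Ap ξ (m + n) x = Ap ξ m x * Ap ξ n (ξ ^ m * x) := by
  unfold Ap
  rw [Finset.prod_range_add]
  congr 1
  refine Finset.prod_congr rfl fun j _ => ?_
  rw [pow_add]
  ring

lemma Ap_p {p : ℕ} [Fact p.Prime] {ξ : F} (h : IsPrimitiveRoot ξ p) (x : F) :
    Ap ξ p x = 1 - x ^ p := by
  classical
  have hp : p.Prime := Fact.out
  have h1 := h.pow_sub_pow_eq_prod_sub_mul 1 x hp.pos
  rw [one_pow] at h1
  rw [h1]
  unfold Ap
  refine Finset.prod_bij (fun j _ => ξ ^ j) ?_ ?_ ?_ ?_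
  · intro j _
    rw [Polynomial.mem_nthRootsFinset hp.pos, ← pow_mul, mul_comm, pow_mul, h.pow_eq_one, one_pow]
  · intro a ha b hb hab
    exact h.pow_inj (Finset.mem_range.1 ha) (Finset.mem_range.1 hb) hab
  · intro η hη
    rw [Polynomial.mem_nthRootsFinset hp.pos] at hη
    obtain ⟨j, hj, e⟩ := h.eq_pow_of_pow_eq_one hη
    exact ⟨j, Finset.mem_range.2 hj, e⟩
  · intro j _
    rfl

lemma Th_step {p : ℕ} [Fact p.Prime] {ξ : F} (h : IsPrimitiveRoot ξ p) (x : F) :
    Th p ξ (ξ * x) * (1 - x ^ p) = Th p ξ x * (1 - x) ^ p := by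
  have hp : p.Prime := Fact.out
  have e1 : (1 : F) - x ^ p = 1 - (ξ * x) ^ p := by rw [mul_pow, h.pow_eq_one, one_mul]
  rw [e1, ← Ap_p h]
  unfold Th Ap
  rw [← Finset.prod_mul_distrib]
  have h2 : ∀ j : ℕ, (1 - ξ ^ j * (ξ * x)) ^ j * (1 - ξ ^ j * (ξ * x)) =
      (1 - ξ ^ (j + 1) * x) ^ (j + 1) := by
    intro j
    rw [← pow_succ, pow_succ ξ j, mul_assoc]
  rw [Finset.prod_congr rfl fun j _ => h2 j]
  have h3 := Finset.prod_range_succ' (fun j => (1 - ξ ^ j * x) ^ j) p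
  have h4 := Finset.prod_range_succ (fun j => (1 - ξ ^ j * x) ^ j) p
  rw [h3, pow_zero, mul_one] at h4
  rw [h4, h.pow_eq_one, one_mul]

lemma Th_pow {p : ℕ} [Fact p.Prime] {ξ : F} (h : IsPrimitiveRoot ξ p) (x : F) (a : ℕ) :
    Th p ξ (ξ ^ a * x) * (1 - x ^ p) ^ a = Th p ξ x * Ap ξ a x ^ p := by
  induction a with
  | zero =>
    unfold Ap
    rw [pow_zero, pow_zero, one_mul, Finset.prod_range_zero, one_pow]
  | succ a ih =>
    have e1 : ξ ^ (a + 1) * x = ξ * (ξ ^ a * x) := by rw [pow_succ]; ring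
    have e2 : (ξ ^ a * x) ^ p = x ^ p := by
      rw [mul_pow, ← pow_mul, mul_comm a p, pow_mul, h.pow_eq_one, one_pow, one_mul]
    have h1 := Th_step h (ξ ^ a * x)
    rw [e2] at h1
    have h2 : Ap ξ (a + 1) x = Ap ξ a x * (1 - ξ ^ a * x) := by
      unfold Ap
      rw [Finset.prod_range_succ]
    rw [e1, h2, mul_pow, pow_succ]
    linear_combination (1 - x ^ p) ^ a * h1 + (1 - ξ ^ a * x) ^ p * ih

end

section

variable {p : ℕ} [Fact p.Prime] {K L : Type} [Field K] [Field L] [Algebra K L] {ζ : K}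

/-- the cup product of the characters of `1 - f` and `f` is zero -/
theorem stc {G : Type} [Group G] [TopologicalSpace G] [IsTopologicalGroup G]
    {ρ : G →* (L ≃ₐ[K] L)} (hρ : Continuous ρ) (hξ : IsPrimitiveRoot (algebraMap K L ζ) p)
    {f g : K} (hf : f ≠ 0) (hg : g ≠ 0) (hfg : f + g = 1)
    {r V W : L} (hr : r ^ p = algebraMap K L f) (hV : V ^ p = algebraMap K L g)
    (hW : W ^ p = Th p (algebraMap K L ζ) r) {a b : G → ZMod p}
    (ha : ∀ σ, ρ σ r = ex (algebraMap K L ζ) (a σ) * r)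
    (hb : ∀ σ, ρ σ V = ex (algebraMap K L ζ) (b σ) * V) :
    ∃ γ : G → ZMod p, IsLocallyConstant γ ∧ ∀ σ τ, γ (σ * τ) = γ σ + γ τ + b σ * a τ := by
  classical
  have hp : p.Prime := Fact.out
  obtain ⟨ξ, hξe⟩ : ∃ ξ, ξ = algebraMap K L ζ := ⟨_, rfl⟩
  have hroot : ∀ {x : L} {c : K}, c ≠ 0 → x ^ p = algebraMap K L c → x ≠ 0 := by
    rintro x c hc hx rfl
    rw [zero_pow hp.ne_zero, eq_comm, map_eq_zero] at hx
    exact hc hx
  have hr0 := hroot hf hr
  have hV0 := hroot hg hV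
  have hgr : 1 - r ^ p = V ^ p := by
    rw [hr, hV, ← map_one (algebraMap K L), ← map_sub]
    congr 1
    linear_combination (-1) * hfg
  have hfix : ∀ σ, ρ σ ξ = ξ := by
    intro σ
    rw [hξe, AlgEquiv.commutes]
  have hfixe : ∀ σ (c : ZMod p), ρ σ (ex ξ c) = ex ξ c := by
    intro σ c
    rw [hξe]
    exact ex_fix _ _
  rw [← hξe] at hξ hW
  simp only [← hξe] at ha hb
  -- nonvanishing
  have hfac : ∀ j : ℕ, 1 - ξ ^ j * r ≠ 0 := by
    intro j e
    have h1 : (ξ ^ j * r) ^ p = 1 := by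
      have : ξ ^ j * r = 1 := by linear_combination (-1) * e
      rw [this, one_pow]
    rw [mul_pow, ← pow_mul, mul_comm j p, pow_mul, hξ.pow_eq_one, one_pow, one_mul] at h1
    have h2 : V ^ p = 0 := by rw [← hgr, h1, sub_self]
    exact hV0 (pow_eq_zero_iff hp.ne_zero |>.1 h2)
  have hW0 : W ≠ 0 := by
    intro e
    rw [e, zero_pow hp.ne_zero, eq_comm] at hW
    unfold Th at hW
    rw [Finset.prod_eq_zero_iff] at hW
    obtain ⟨j, -, hj⟩ := hW
    exact hfac j (eq_zero_of_pow_eq_zero hj)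
  have hAp0 : ∀ m, Ap ξ m r ≠ 0 := by
    intro m
    unfold Ap
    rw [Finset.prod_ne_zero_iff]
    intro j _
    exact hfac j
  obtain ⟨B, hB⟩ : ∃ B : ℕ → L, ∀ m, B m = Ap ξ m r / V ^ m := ⟨_, fun _ => rfl⟩
  have hB0 : ∀ m, B m ≠ 0 := by
    intro m
    rw [hB]
    exact div_ne_zero (hAp0 m) (pow_ne_zero _ hV0)
  have hBp : ∀ m, B (p + m) = B m := by
    intro m
    rw [hB, hB, Ap_add, Ap_p hξ, hξ.pow_eq_one, one_mul, hgr, pow_add,
      mul_div_mul_left _ _ (pow_ne_zero _ hV0)]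
  have hBmod : ∀ m, B m = B (m % p) := by
    intro m
    induction m using Nat.strong_induction_on with
    | _ m ih =>
      by_cases hm : m < p
      · rw [Nat.mod_eq_of_lt hm]
      · rw [not_lt] at hm
        obtain ⟨n, rfl⟩ := Nat.exists_eq_add_of_le hm
        rw [hBp, ih n (by have := hp.pos; omega), Nat.add_mod_left]
  have hσr : ∀ σ, ρ σ r = ξ ^ (a σ).val * r := ha
  have hσAp : ∀ σ n, ρ σ (Ap ξ n r) = Ap ξ n (ξ ^ (a σ).val * r) := by
    intro σ n
    unfold Ap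
    rw [map_prod]
    refine Finset.prod_congr rfl fun j _ => ?_
    rw [map_sub, map_one, map_mul, map_pow, hfix, hσr]
  have hσTh : ∀ σ, ρ σ (Th p ξ r) = Th p ξ (ξ ^ (a σ).val * r) := by
    intro σ
    unfold Th
    rw [map_prod]
    refine Finset.prod_congr rfl fun j _ => ?_
    rw [map_pow, map_sub, map_one, map_mul, map_pow, hfix, hσr]
  have hc' : ∀ σ, ∃ c : ZMod p, ρ σ W = ex ξ c * (W * B (a σ).val) := by
    intro σ
    apply exists_ex_mul hξ (mul_ne_zero hW0 (hB0 _))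
    rw [← map_pow, hW, hσTh, mul_pow, hW, hB, div_pow]
    have h1 := Th_pow hξ r (a σ).val
    rw [hgr] at h1
    have h2 : (V ^ p) ^ (a σ).val ≠ 0 := pow_ne_zero _ (pow_ne_zero _ hV0)
    have h3 : (V ^ (a σ).val) ^ p = (V ^ p) ^ (a σ).val := by
      rw [← pow_mul, ← pow_mul, mul_comm]
    rw [h3, mul_div_assoc', eq_div_iff h2, h1]
  choose c hc using hc'
  have ha2 : ∀ σ τ, a (σ * τ) = a σ + a τ := by
    intro σ τ
    apply ex_mul_inj hξ hr0
    rw [← ha, map_mul, AlgEquiv.mul_apply, ha τ, map_mul, hfixe, ha σ, ex_add hξ]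
    ring
  have hσB : ∀ (σ : G) (n : ℕ), B (a σ).val * ρ σ (B n) =
      ex ξ (-(b σ * (n : ZMod p))) * B ((a σ).val + n) := by
    intro σ n
    rw [hB, hB, hB, map_div₀, map_pow, hb, hσAp, Ap_add, mul_pow, ex_powval hξ, pow_add]
    have h1 : ex ξ (-(b σ * (n : ZMod p))) * ex ξ ((n : ZMod p) * b σ) = 1 := by
      rw [← ex_add hξ, mul_comm (b σ), neg_add_cancel, ex_zero]
    have h2 := ex_ne hξ ((n : ZMod p) * b σ)
    have h3 : ex ξ (-(b σ * (n : ZMod p))) = (ex ξ ((n : ZMod p) * b σ))⁻¹ :=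
      eq_inv_of_mul_eq_one_left h1
    rw [h3]
    field_simp
  have hcc : ∀ σ τ, c (σ * τ) = c σ + c τ - b σ * a τ := by
    intro σ τ
    apply ex_mul_inj hξ (mul_ne_zero hW0 (hB0 (a (σ * τ)).val))
    have h1 : B (a (σ * τ)).val = B ((a σ).val + (a τ).val) := by
      rw [hBmod ((a σ).val + (a τ).val), ha2, ZMod.val_add]
    have h2 := hσB σ (a τ).val
    rw [ZMod.natCast_zmod_val] at h2
    have h3 : c σ + c τ - b σ * a τ = c τ + (c σ + -(b σ * a τ)) := by ring
    rw [← hc, map_mul, AlgEquiv.mul_apply, hc τ, map_mul, map_mul, hfixe, hc σ, h1, h3, ex_add hξ,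
      ex_add hξ]
    linear_combination ex ξ (c τ) * ex ξ (c σ) * W * h2
  -- the open subgroup
  have hint : ∀ {x : L}, IsIntegral K (x ^ p) → IsIntegral K x := fun h => IsIntegral.of_pow hp.pos h
  have hintr : IsIntegral K r := hint (by rw [hr]; exact isIntegral_algebraMap)
  have hintV : IsIntegral K V := hint (by rw [hV]; exact isIntegral_algebraMap)
  have hintW : IsIntegral K W := by
    apply hint
    rw [hW]
    unfold Th
    refine IsIntegral.prod _ fun j _ => ?_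
    refine IsIntegral.pow (isIntegral_one.sub (IsIntegral.mul (IsIntegral.pow ?_ j) hintr)) j
    rw [hξe]
    exact isIntegral_algebraMap
  obtain ⟨M, hM⟩ : ∃ M, M = IntermediateField.adjoin K {r, V, W} := ⟨_, rfl⟩
  have hfin : FiniteDimensional K M := by
    rw [hM]
    apply IntermediateField.finiteDimensional_adjoin
    intro x hx
    simp only [Set.mem_insert_iff, Set.mem_singleton_iff] at hx
    rcases hx with rfl | rfl | rfl
    · exact hintr
    · exact hintV
    · exact hintW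
  have hSo : IsOpen ((M.fixingSubgroup.comap ρ : Subgroup G) : Set G) :=
    (M.fixingSubgroup_isOpen).preimage hρ
  have hSf : ∀ υ ∈ M.fixingSubgroup.comap ρ, ρ υ r = r ∧ ρ υ W = W := by
    intro υ hυ
    rw [Subgroup.mem_comap, IntermediateField.mem_fixingSubgroup_iff] at hυ
    constructor
    · apply hυ
      rw [hM]
      exact IntermediateField.subset_adjoin K _ (by simp)
    · apply hυ
      rw [hM]
      exact IntermediateField.subset_adjoin K _ (by simp)
  refine ⟨fun σ => -c σ, lc_of hSo ?_, ?_⟩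
  · intro σ υ hυ
    obtain ⟨h1, h2⟩ := hSf υ hυ
    have h3 : a υ = 0 := by
      apply ex_mul_inj hξ hr0
      rw [← ha, h1, ex_zero, one_mul]
    have h4 : c υ = 0 := by
      apply ex_mul_inj hξ (mul_ne_zero hW0 (hB0 (a υ).val))
      rw [← hc, h2, h3, ZMod.val_zero, hB, ex_zero]
      unfold Ap
      simp
    change -c (σ * υ) = -c σ
    rw [hcc, h3, h4]
    ring
  · intro σ τ
    change -c (σ * τ) = -c σ + -c τ + b σ * a τ
    rw [hcc]
    ring

end

end Pool.Agent.Helper58.BQ
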