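import Mathlib
import Pool.Agent.Helper58.BP.Sec
import Pool.Agent.Helper58.BQ.Stc

set_option autoImplicit false

/-! The theorem for homomorphisms of Galois groups, with data of class two. -/

namespace Pool.Agent.Helper58.BQ

open Pool.Agent.Helper58.BP

theorem gal2 {p : ℕ} (hp : p.Prime) {E : Type} [NontriviallyNormedField E] [IsUltrametricDist E]
    [LocallyCompactSpace E] (hpE : ‖(p : E)‖ < 1) {Ω : Type} [Field Ω]
    [Algebra E Ω] [IsAlgClosed Ω] [IsGalois E Ω] {k : Type} [Field k] {ζ : k}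
    (hζ : IsPrimitiveRoot ζ p)
    (i : k →+* E) (hi : DenseRange i) {K : Type} [Field K] (j : k →+* K) {L : Type} [Field L]
    [Algebra K L] (hL : ∀ f : K, ∃ r : L, r ^ p = algebraMap K L f)
    (hL1 : ∀ r : L, (∃ f : K, r ^ p = algebraMap K L f) →
      ∃ w : L, w ^ p = Th p (algebraMap K L (j ζ)) r)
    (ρ : (Ω ≃ₐ[E] Ω) →* (L ≃ₐ[K] L)) (hρ : Continuous ρ)
    (hk : ∀ c : k, c ≠ 0 → Sr p (j ζ) (i ζ) ρ (j c) (i c)) :
    ∃! P : KPlace j i, P.Galois p ζ ρ := by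
  have _ : Fact p.Prime := ⟨hp⟩
  have _ : ProperSpace E := ProperSpace.of_locallyCompactSpace E
  have _ : CompleteSpace E := inferInstance
  have hζE : IsPrimitiveRoot (i ζ) p := hζ.map_of_injective i.injective
  have hζK : IsPrimitiveRoot (j ζ) p := hζ.map_of_injective j.injective
  have hζL : IsPrimitiveRoot (algebraMap K L (j ζ)) p :=
    hζK.map_of_injective (algebraMap K L).injective
  obtain ⟨ζ', hζ'⟩ : ∃ ζ' : kˣ, (ζ' : k) = ζ := ⟨Units.mk0 ζ (hζ.ne_zero hp.ne_zero), Units.val_mk0 _⟩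
  have hζu : IsPrimitiveRoot ζ' p := by
    rw [← IsPrimitiveRoot.coe_units_iff, hζ']
    exact hζ
  obtain ⟨φ, hφ⟩ := exists_phi hζE hζK hρ hL
  have hφ' : ∀ (f : Kˣ) (e : Eˣ), φ f = cl e ↔ Sr p (j ζ) (i ζ) ρ (f : K) (e : E) := by
    intro f e
    rw [hφ, Sr_iff hζE hζK f.ne_zero hL]
  have hr : Rl i j (Nc Ω hζE) φ := by
    refine ⟨fun c => ?_, fun f g hfg => ?_⟩
    · rw [hφ']
      exact hk c c.ne_zero
    · refine Nc_symm hζE _ _ ?_
      rw [mem_Nc]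
      obtain ⟨r, hr⟩ := hL f
      obtain ⟨s, hs⟩ := hL g
      obtain ⟨w, hw⟩ := hL1 r ⟨f, hr⟩
      exact stc hρ hζL f.ne_zero g.ne_zero hfg hr hs hw
        (fun σ => (hφ f (φ f)).1 rfl r hr σ) (fun σ => (hφ g (φ g)).1 rfl s hs σ)
  obtain ⟨P, hP, hPu⟩ := base hp hpE i hi hζu j (N := Nc Ω hζE) (Nc_symm hζE) (Nc_sum hζE)
    (by
      intro G z hz hG hG1 v hv
      rw [hζ'] at hG
      exact even hζE hpE hz hG hG1 hv) φ hr
  have hiff : ∀ Q : KPlace j i, Q.Gives φ ↔ Q.Galois p ζ ρ := by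
    intro Q
    constructor
    · intro hQ f hf
      have hf0 : (f : K) ≠ 0 := by
        intro e
        apply hf
        have : f = 0 := Subtype.ext e
        rw [this, map_zero]
      exact (hφ' (Units.mk0 _ hf0) (Units.mk0 _ hf)).1 (hQ _ _ f.2 rfl)
    · intro hQ u e hu he
      rw [hφ']
      have := hQ ⟨u, hu⟩ (by rw [he]; exact e.ne_zero)
      rwa [he] at this
  exact ⟨P, (hiff P).1 hP, fun Q hQ => hPu Q ((hiff Q).2 hQ)⟩

end Pool.Agent.Helper58.BQ
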