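import Mathlib
import Pool.Agent.Helper58.BQ.Sec

set_option autoImplicit false

/-! Descent from the field of the roots of unity. -/

namespace Pool.Agent.Helper58.BQ

open Pool.Agent.Helper58.BP

/-- `ρ σ` multiplies a root of `f` by the same power of the root of unity as `σ` multiplies
a root of `e` -/
def St {E Ω K L : Type} [Field E] [Field Ω] [Algebra E Ω] [Field K] [Field L] [Algebra K L]
    (p : ℕ) (ξ : L) (η : Ω) (ρ : (Ω ≃ₐ[E] Ω) →* (L ≃ₐ[K] L)) (f : K) (e : E) : Prop :=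
  ∃ (r : L) (t : Ω), r ^ p = algebraMap K L f ∧ t ^ p = algebraMap E Ω e ∧
    ∀ σ : Ω ≃ₐ[E] Ω, ∃ n : ℕ, ρ σ r = ξ ^ n * r ∧ σ t = η ^ n * t

/-- the situation: towers of fields and compatible homomorphisms of Galois groups -/
structure Tw {E E' Ω K K' L k' : Type} [Field E] [Field E'] [Field Ω] [Algebra E E'] [Algebra E' Ω]
    [Algebra E Ω] [Field K] [Field K'] [Field L] [Algebra K K'] [Algebra K' L] [Algebra K L]
    [Field k'] (ζ : k') (i' : k' →+* E') (j' : k' →+* K')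
    (ρ : (Ω ≃ₐ[E] Ω) →* (L ≃ₐ[K] L)) (ρ' : (Ω ≃ₐ[E'] Ω) →* (L ≃ₐ[K'] L)) : Prop where
  res : ∀ (σ' : Ω ≃ₐ[E'] Ω) (σ : Ω ≃ₐ[E] Ω), (∀ x, σ x = σ' x) → ∀ x, ρ' σ' x = ρ σ x
  cyc : ∀ τ : Ω ≃ₐ[E] Ω, ∃ m : ℕ, ρ τ (algebraMap K' L (j' ζ)) = (algebraMap K' L (j' ζ)) ^ m ∧
    τ (algebraMap E' Ω (i' ζ)) = (algebraMap E' Ω (i' ζ)) ^ m
  gen : ∀ τ : Ω ≃ₐ[E] Ω, τ (algebraMap E' Ω (i' ζ)) = algebraMap E' Ω (i' ζ) →
    ∀ x : E', τ (algebraMap E' Ω x) = algebraMap E' Ω x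
  act : ∀ τ : Ω ≃ₐ[E] Ω, ∃ (τE : E' ≃+* E') (τK : K' ≃+* K'),
    (∀ x, algebraMap E' Ω (τE x) = τ (algebraMap E' Ω x)) ∧
    (∀ x, algebraMap K' L (τK x) = ρ τ (algebraMap K' L x)) ∧
    ∀ c : k', ∃ c' : k', i' c' = τE.symm (i' c) ∧ j' c' = τK.symm (j' c)

section

variable {p : ℕ} {E E' Ω K K' L k' : Type} [Field E] [NontriviallyNormedField E']
    [IsUltrametricDist E'] [LocallyCompactSpace E'] [Field Ω] [Algebra E E'] [Algebra E' Ω]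
    [Algebra E Ω] [IsScalarTower E E' Ω] [Field K] [Field K'] [Field L] [Algebra K K']
    [Algebra K' L] [Algebra K L] [IsScalarTower K K' L] [Field k'] {ζ : k'} {i' : k' →+* E'}
    {j' : k' →+* K'} {ρ : (Ω ≃ₐ[E] Ω) →* (L ≃ₐ[K] L)} {ρ' : (Ω ≃ₐ[E'] Ω) →* (L ≃ₐ[K'] L)}

/-- the conjugate place -/
def cj (P : KPlace j' i') (τE : E' ≃+* E') (τK : K' ≃+* K')
    (h : ∀ c : k', ∃ c' : k', i' c' = τE.symm (i' c) ∧ j' c' = τK.symm (j' c)) :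
    KPlace j' i' where
  ring := P.ring.comap (τK.symm : K' →+* K')
  hom := (τE : E' →+* E').comp (P.hom.comp
    ((τK.symm : K' →+* K').restrict (P.ring.comap (τK.symm : K' →+* K')).toSubring
      P.ring.toSubring fun _ hx => hx))
  const := by
    intro c
    obtain ⟨c', h1, h2⟩ := h c
    obtain ⟨h3, h4⟩ := P.const c'
    have h5 : τK.symm (j' c) ∈ P.ring := by
      rw [← h2]
      exact h3
    refine ⟨h5, ?_⟩
    change τE (P.hom ⟨τK.symm (j' c), h5⟩) = i' c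
    have h6 : (⟨τK.symm (j' c), h5⟩ : P.ring) = ⟨j' c', h3⟩ := Subtype.ext h2.symm
    rw [h6, h4, h1, RingEquiv.apply_symm_apply]
  ker := by
    intro x hx
    change τE (P.hom ⟨τK.symm x, x.2⟩) = 0
    rw [P.ker, map_zero]
    intro h1
    apply hx
    change τK.symm ((x : K')⁻¹) ∈ P.ring
    rw [map_inv₀]
    exact h1

/-- the place of the big field and its equivariance -/
theorem core (hp : p.Prime) (hpE : ‖(p : E')‖ < 1) [IsAlgClosed Ω] [IsGalois E' Ω]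
    (hζ : IsPrimitiveRoot ζ p) (hi' : DenseRange i')
    (hL : ∀ f : K', ∃ r : L, r ^ p = algebraMap K' L f)
    (hL1 : ∀ r : L, (∃ f : K', r ^ p = algebraMap K' L f) →
      ∃ w : L, w ^ p = Th p (algebraMap K' L (j' ζ)) r)
    (hρ' : Continuous ρ') (hT : Tw ζ i' j' ρ ρ')
    (hk : ∀ c : k', c ≠ 0 → Sr p (j' ζ) (i' ζ) ρ' (j' c) (i' c)) :
    ∃ P : KPlace j' i', P.Galois p ζ ρ' ∧ ∀ (τ : Ω ≃ₐ[E] Ω) (f : P.ring) (g : K'),
      algebraMap K' L g = ρ τ (algebraMap K' L f) → ∃ hg : g ∈ P.ring,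
        algebraMap E' Ω (P.hom ⟨g, hg⟩) = τ (algebraMap E' Ω (P.hom f)) := by
  obtain ⟨P, hP, hPu⟩ := gal2 hp hpE hζ i' hi' j' hL hL1 ρ' hρ' hk
  refine ⟨P, hP, fun τ f g hg => ?_⟩
  obtain ⟨τE, τK, hE, hK, hc⟩ := hT.act τ
  have hgf : g = τK f := by
    apply (algebraMap K' L).injective
    rw [hg, hK]
  have hcj : (cj P τE τK hc).Galois p ζ ρ' := by
    intro x hx
    have hx' : τE (P.hom ⟨τK.symm x, x.2⟩) ≠ 0 := hx
    have hx1 : P.hom ⟨τK.symm x, x.2⟩ ≠ 0 := fun e => hx' (by rw [e, map_zero])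
    obtain ⟨r, t, hr, ht, h⟩ := hP ⟨τK.symm x, x.2⟩ hx1
    obtain ⟨m, hm1, hm2⟩ := hT.cyc τ
    refine ⟨ρ τ r, τ t, ?_, ?_, fun σ' => ?_⟩
    · rw [← map_pow, hr, ← hK, RingEquiv.apply_symm_apply]
    · rw [← map_pow, ht, ← hE]
      rfl
    · obtain ⟨σ, hσ⟩ : ∃ σ : Ω ≃ₐ[E] Ω, ∀ x, σ x = σ' x := ⟨σ'.restrictScalars E, fun _ => rfl⟩
      have hfix : ∀ y : E', (τ⁻¹ * σ * τ) (algebraMap E' Ω y) = algebraMap E' Ω y := by
        intro y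
        rw [AlgEquiv.mul_apply, AlgEquiv.mul_apply, ← hE, hσ, AlgEquiv.commutes, hE,
          ← AlgEquiv.mul_apply, inv_mul_cancel, AlgEquiv.one_apply]
      obtain ⟨υ', hυ'⟩ : ∃ υ' : Ω ≃ₐ[E'] Ω, ∀ x, (τ⁻¹ * σ * τ) x = υ' x :=
        ⟨AlgEquiv.ofRingEquiv (f := (τ⁻¹ * σ * τ : Ω ≃ₐ[E] Ω).toRingEquiv) hfix, fun _ => rfl⟩
      obtain ⟨n, h1, h2⟩ := h υ'
      rw [hT.res υ' _ hυ'] at h1
      rw [← hυ'] at h2
      refine ⟨m * n, ?_, ?_⟩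
      · rw [hT.res σ' σ hσ]
        have e : ρ σ (ρ τ r) = ρ τ (ρ (τ⁻¹ * σ * τ) r) := by
          rw [← AlgEquiv.mul_apply, ← AlgEquiv.mul_apply, ← map_mul, ← map_mul]
          congr 2
          group
        rw [e, h1, map_mul, map_pow, hm1, pow_mul]
      · rw [← hσ]
        have e : σ (τ t) = τ ((τ⁻¹ * σ * τ) t) := by
          rw [← AlgEquiv.mul_apply, ← AlgEquiv.mul_apply]
          congr 1
          group
        rw [e, h2, map_mul, map_pow, hm2, pow_mul]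
  have heq : cj P τE τK hc = P := hPu _ hcj
  have key : ∃ hg : g ∈ (cj P τE τK hc).ring,
      algebraMap E' Ω ((cj P τE τK hc).hom ⟨g, hg⟩) = τ (algebraMap E' Ω (P.hom f)) := by
    have h1 : τK.symm g = f := by rw [hgf, RingEquiv.symm_apply_apply]
    have h2 : τK.symm g ∈ P.ring := by rw [h1]; exact f.2
    refine ⟨h2, ?_⟩
    change algebraMap E' Ω (τE (P.hom ⟨τK.symm g, h2⟩)) = _
    have h3 : (⟨τK.symm g, h2⟩ : P.ring) = f := Subtype.ext h1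
    rw [h3, hE]
  rw [heq] at key
  exact key

end

end Pool.Agent.Helper58.BQ
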