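import Mathlib
import Pool.Agent.Helper58.BQ.Core

set_option autoImplicit false

/-! Descent of the place to the field without the roots of unity. -/

namespace Pool.Agent.Helper58.BQ

open Pool.Agent.Helper58.BP

/-- functions with a twisted additivity -/
lemma twisted {G : Type} [Group G] {p : ℕ} [Fact p.Prime] {A δ : G → ZMod p}
    (hA : ∀ σ τ, A (σ * τ) = A σ * A τ) (hδ : ∀ σ τ, δ (σ * τ) = δ σ + A σ * δ τ)
    (h1 : ∀ σ, A σ = 1 → δ σ = 0) : ∃ m : ZMod p, ∀ σ, δ σ = (1 - A σ) * m := by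
  have hA0 : ∀ σ, A 1 = 1 → A σ ≠ 0 := by
    intro σ h e
    have := hA σ σ⁻¹
    rw [mul_inv_cancel, h, e, zero_mul] at this
    exact one_ne_zero this
  by_cases hall : ∀ σ, A σ = 1
  · exact ⟨0, fun σ => by rw [h1 σ (hall σ), mul_zero]⟩
  push Not at hall
  obtain ⟨σ₀, hσ₀⟩ := hall
  have hA11 : A 1 = 1 ∨ A 1 = 0 := by
    have := hA 1 1
    rw [mul_one] at this
    have h2 : A 1 * (A 1 - 1) = 0 := by linear_combination (-1) * this
    rcases mul_eq_zero.1 h2 with h3 | h3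
    · exact Or.inr h3
    · exact Or.inl (sub_eq_zero.1 h3)
  rcases hA11 with hA1 | hA1
  swap
  · -- degenerate case
    have hz : ∀ σ, A σ = 0 := by
      intro σ
      have := hA σ 1
      rw [mul_one, hA1, mul_zero] at this
      exact this
    refine ⟨δ 1, fun σ => ?_⟩
    have h2 := hδ σ 1
    have h3 := hδ 1 σ
    rw [one_mul, hz 1, zero_mul, add_zero] at h3
    rw [hz, sub_zero, one_mul, h3]
  have hne : (1 : ZMod p) - A σ₀ ≠ 0 := sub_ne_zero.2 (Ne.symm hσ₀)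
  refine ⟨δ σ₀ / (1 - A σ₀), fun σ => ?_⟩
  have hκ : A ((σ₀ * σ)⁻¹ * (σ * σ₀)) = 1 := by
    have h3 := hA (σ₀ * σ) ((σ₀ * σ)⁻¹ * (σ * σ₀))
    rw [mul_inv_cancel_left, hA σ σ₀, hA σ₀ σ] at h3
    have h4 := hA0 (σ₀ * σ) hA1
    rw [hA] at h4
    apply mul_left_cancel₀ h4
    rw [← h3]
    ring
  have h2 := hδ (σ₀ * σ) ((σ₀ * σ)⁻¹ * (σ * σ₀))
  rw [mul_inv_cancel_left, h1 _ hκ, mul_zero, add_zero, hδ, hδ] at h2
  field_simp
  linear_combination h2

section

variable {p : ℕ} {E E' Ω K K' L k' : Type} [Field E] [NontriviallyNormedField E']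
    [IsUltrametricDist E'] [LocallyCompactSpace E'] [Field Ω] [Algebra E E'] [Algebra E' Ω]
    [Algebra E Ω] [IsScalarTower E E' Ω] [Field K] [Field K'] [Field L] [Algebra K K']
    [Algebra K' L] [Algebra K L] [IsScalarTower K K' L] [Field k'] {ζ : k'} {i' : k' →+* E'}
    {j' : k' →+* K'} {ρ : (Ω ≃ₐ[E] Ω) →* (L ≃ₐ[K] L)} {ρ' : (Ω ≃ₐ[E'] Ω) →* (L ≃ₐ[K'] L)}

/-- from the big group to the whole group -/
lemma st_of (hp : p.Prime) (hζ : IsPrimitiveRoot ζ p) (hT : Tw ζ i' j' ρ ρ') {f : K} {e : E}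
    (hf : f ≠ 0) (he : e ≠ 0)
    (h : Sr p (j' ζ) (i' ζ) ρ' (algebraMap K K' f) (algebraMap E E' e)) :
    St p (algebraMap K' L (j' ζ)) (algebraMap E' Ω (i' ζ)) ρ f e := by
  have _ : Fact p.Prime := ⟨hp⟩
  obtain ⟨ξ, hξe⟩ : ∃ ξ : L, ξ = algebraMap K' L (j' ζ) := ⟨_, rfl⟩
  obtain ⟨η, hηe⟩ : ∃ η : Ω, η = algebraMap E' Ω (i' ζ) := ⟨_, rfl⟩
  have hξ : IsPrimitiveRoot ξ p := by
    rw [hξe]
    exact (hζ.map_of_injective j'.injective).map_of_injective (algebraMap K' L).injective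
  have hη : IsPrimitiveRoot η p := by
    rw [hηe]
    exact (hζ.map_of_injective i'.injective).map_of_injective (algebraMap E' Ω).injective
  obtain ⟨r, t, hr, ht, hrt⟩ := h
  rw [← IsScalarTower.algebraMap_apply] at hr ht
  have hr0 : r ≠ 0 := by
    rintro rfl
    rw [zero_pow hp.ne_zero, eq_comm, map_eq_zero] at hr
    exact hf hr
  have ht0 : t ≠ 0 := by
    rintro rfl
    rw [zero_pow hp.ne_zero, eq_comm, map_eq_zero] at ht
    exact he ht
  have hA' : ∀ σ : Ω ≃ₐ[E] Ω, ∃ a : ZMod p, ρ σ ξ = ex ξ a ∧ σ η = ex η a := by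
    intro σ
    obtain ⟨m, h1, h2⟩ := hT.cyc σ
    refine ⟨m, ?_, ?_⟩
    · rw [ex_nat hξ, hξe, h1]
    · rw [ex_nat hη, hηe, h2]
  choose A hA1 hA2 using hA'
  have hexL : ∀ (σ : Ω ≃ₐ[E] Ω) (c : ZMod p), ρ σ (ex ξ c) = ex ξ (A σ * c) := by
    intro σ c
    conv_lhs => unfold ex
    rw [map_pow, hA1, ex_powval hξ, ZMod.natCast_zmod_val, mul_comm]
  have hexΩ : ∀ (σ : Ω ≃ₐ[E] Ω) (c : ZMod p), σ (ex η c) = ex η (A σ * c) := by
    intro σ c
    conv_lhs => unfold ex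
    rw [map_pow, hA2, ex_powval hη, ZMod.natCast_zmod_val, mul_comm]
  have hAA : ∀ σ τ, A (σ * τ) = A σ * A τ := by
    intro σ τ
    apply ex_inj hξ
    rw [← hA1, map_mul, AlgEquiv.mul_apply, hA1 τ, hexL]
  have hN' : ∀ σ : Ω ≃ₐ[E] Ω, ∃ c : ZMod p, ρ σ r = ex ξ c * r := by
    intro σ
    apply exists_ex_mul hξ hr0
    rw [← map_pow, hr, AlgEquiv.commutes]
  choose N hN using hN'
  have hD' : ∀ σ : Ω ≃ₐ[E] Ω, ∃ c : ZMod p, σ t = ex η c * t := by
    intro σ
    apply exists_ex_mul hη ht0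
    rw [← map_pow, ht, AlgEquiv.commutes]
  choose D hD using hD'
  have hNN : ∀ σ τ, N (σ * τ) = N σ + A σ * N τ := by
    intro σ τ
    apply ex_mul_inj hξ hr0
    rw [← hN, map_mul, AlgEquiv.mul_apply, hN τ, map_mul, hexL, hN σ, ex_add hξ]
    ring
  have hDD : ∀ σ τ, D (σ * τ) = D σ + A σ * D τ := by
    intro σ τ
    apply ex_mul_inj hη ht0
    rw [← hD, AlgEquiv.mul_apply, hD τ, map_mul, hexΩ, hD σ, ex_add hη]
    ring
  obtain ⟨m, hm⟩ := twisted (A := A) (δ := fun σ => N σ - D σ) hAA (by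
    intro σ τ
    rw [hNN, hDD]
    ring) (by
    intro σ hσ
    have h1 : σ η = η := by
      rw [hA2, hσ]
      have := ex_nat hη 1
      rw [Nat.cast_one, pow_one] at this
      exact this
    rw [hηe] at h1
    have h2 := hT.gen σ h1
    obtain ⟨σ', hσ'⟩ : ∃ σ' : Ω ≃ₐ[E'] Ω, ∀ x, σ x = σ' x :=
      ⟨AlgEquiv.ofRingEquiv (f := σ.toRingEquiv) h2, fun _ => rfl⟩
    obtain ⟨n, h3, h4⟩ := hrt σ'
    rw [hT.res σ' σ hσ', ← hξe] at h3
    rw [← hσ', ← hηe] at h4
    have h5 : N σ = n := by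
      apply ex_mul_inj hξ hr0
      rw [← hN, h3, ex_nat hξ]
    have h6 : D σ = n := by
      apply ex_mul_inj hη ht0
      rw [← hD, h4, ex_nat hη]
    rw [h5, h6, sub_self])
  rw [← hξe, ← hηe]
  refine ⟨ex ξ m * r, t, ?_, ht, fun σ => ⟨(D σ).val, ?_, hD σ⟩⟩
  · rw [mul_pow, ex_pow hξ, one_mul, hr]
  · change ρ σ (ex ξ m * r) = ex ξ (D σ) * (ex ξ m * r)
    rw [map_mul, hexL, hN, ← mul_assoc, ← mul_assoc, ← ex_add hξ, ← ex_add hξ]
    congr 2
    have := hm σ
    linear_combination this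

/-- the place of the small field -/
theorem desc (hp : p.Prime) (hpE : ‖(p : E')‖ < 1) [IsAlgClosed Ω] [IsGalois E' Ω]
    [IsGalois E Ω] (hζ : IsPrimitiveRoot ζ p) (hi' : DenseRange i')
    (hL : ∀ f : K', ∃ r : L, r ^ p = algebraMap K' L f)
    (hL1 : ∀ r : L, (∃ f : K', r ^ p = algebraMap K' L f) →
      ∃ w : L, w ^ p = Th p (algebraMap K' L (j' ζ)) r)
    (hρ' : Continuous ρ') (hT : Tw ζ i' j' ρ ρ')
    (hk : ∀ c : k', c ≠ 0 → Sr p (j' ζ) (i' ζ) ρ' (j' c) (i' c))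
    {k : Type} [Field k] (κ : k →+* k') (i : k →+* E) (j : k →+* K)
    (hi : ∀ c, i' (κ c) = algebraMap E E' (i c)) (hj : ∀ c, j' (κ c) = algebraMap K K' (j c)) :
    ∃ P : KPlace j i, ∀ f : P.ring, P.hom f ≠ 0 →
      St p (algebraMap K' L (j' ζ)) (algebraMap E' Ω (i' ζ)) ρ (f : K) (P.hom f) := by
  obtain ⟨P, hP, hPτ⟩ := core hp hpE hζ hi' hL hL1 hρ' hT hk
  have hinj := (algebraMap E E').injective
  have hval : ∀ x : P.ring.comap (algebraMap K K'), ∃ e : E,
      algebraMap E E' e = P.hom ⟨algebraMap K K' x, x.2⟩ := by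
    intro x
    obtain ⟨e, he⟩ := (InfiniteGalois.mem_range_algebraMap_iff_fixed (k := E)
      (algebraMap E' Ω (P.hom ⟨algebraMap K K' x, x.2⟩))).2 (fun τ => by
        obtain ⟨hg, h1⟩ := hPτ τ ⟨algebraMap K K' x, x.2⟩ (algebraMap K K' x) (by
          rw [← IsScalarTower.algebraMap_apply, AlgEquiv.commutes])
        exact h1.symm)
    refine ⟨e, (algebraMap E' Ω).injective ?_⟩
    rw [← IsScalarTower.algebraMap_apply]
    exact he
  choose h hh using hval
  let H : P.ring.comap (algebraMap K K') →+* E :=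
    { toFun := h
      map_one' := by
        apply hinj
        rw [hh, map_one, ← map_one P.hom]
        congr 1
        exact Subtype.ext (map_one (algebraMap K K'))
      map_mul' := by
        intro x y
        apply hinj
        rw [map_mul, hh, hh, hh, ← map_mul]
        congr 1
        exact Subtype.ext (map_mul (algebraMap K K') _ _)
      map_zero' := by
        apply hinj
        rw [hh, map_zero, ← map_zero P.hom]
        congr 1
        exact Subtype.ext (map_zero (algebraMap K K'))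
      map_add' := by
        intro x y
        apply hinj
        rw [map_add, hh, hh, hh, ← map_add]
        congr 1
        exact Subtype.ext (map_add (algebraMap K K') _ _) }
  have hH : ∀ x, algebraMap E E' (H x) = P.hom ⟨algebraMap K K' x, x.2⟩ := hh
  refine ⟨⟨P.ring.comap (algebraMap K K'), H, ?_, ?_⟩, ?_⟩
  · intro c
    obtain ⟨h1, h2⟩ := P.const (κ c)
    have h3 : algebraMap K K' (j c) ∈ P.ring := by
      rw [← hj]
      exact h1
    refine ⟨h3, ?_⟩
    apply hinj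
    rw [hH, ← hi, ← h2]
    congr 1
    exact Subtype.ext (hj c).symm
  · intro x hx
    apply hinj
    rw [hH, map_zero]
    apply P.ker
    intro h1
    apply hx
    change algebraMap K K' ((x : K)⁻¹) ∈ P.ring
    rw [map_inv₀]
    exact h1
  · intro f hf
    change H f ≠ 0 at hf
    have hf' : P.hom ⟨algebraMap K K' f, f.2⟩ ≠ 0 := by
      rw [← hH, Ne, map_eq_zero]
      exact hf
    have hf0 : (f : K) ≠ 0 := by
      intro e
      apply hf'
      have e1 : (⟨algebraMap K K' f, f.2⟩ : P.ring) = 0 := by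
        apply Subtype.ext
        change algebraMap K K' (f : K) = 0
        rw [e, map_zero]
      rw [e1, map_zero]
    refine st_of hp hζ hT hf0 hf ?_
    rw [hH]
    exact hP _ hf'

end

end Pool.Agent.Helper58.BQ
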