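import Mathlib
import Pool.Agent.Helper58.BQ.Desc

set_option autoImplicit false

/-! Uniqueness of the place. -/

namespace Pool.Agent.Helper58.BQ

open Pool.Agent.Helper58.BP
open Pool.Agent.Helper58.BS (Ob Ob_le Ob_lt Ob_le1 Ob_lt1 exists_ϖ)

section

variable {p : ℕ} {E : Type} [NontriviallyNormedField E] [IsUltrametricDist E]

/-- elements which are close have the same class -/
lemma exists_close [CompleteSpace E] (hp : p.Prime) (hp0 : (p : E) ≠ 0) : ∃ d : Eˣ, ‖(d : E)‖ < 1 ∧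
    ∀ x y : Eˣ, ‖(x : E) - y‖ ≤ ‖(d : E)‖ * ‖(y : E)‖ → (cl x : Sc p E) = cl y := by
  obtain ⟨d, hd⟩ := root_open (E := E) hp hp0
  obtain ⟨z, hz0, hz1⟩ := NormedField.exists_norm_lt_one E
  have hz : z ≠ 0 := norm_pos_iff.1 hz0
  obtain ⟨d', hd'1, hd'2⟩ : ∃ d' : Eˣ, ‖(d' : E)‖ < 1 ∧ ‖(d' : E)‖ ≤ ‖(d : E)‖ := by
    rcases lt_or_ge ‖(d : E)‖ 1 with h | h
    · exact ⟨d, h, le_rfl⟩
    · exact ⟨Units.mk0 z hz, hz1, hz1.le.trans h⟩
  refine ⟨d', hd'1, fun x y hxy => ?_⟩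
  have hy0 : (y : E) ≠ 0 := y.ne_zero
  obtain ⟨u, hu, hu1⟩ := hd (((x : E) - y) / y) (by
    rw [Ob_le, norm_div, div_le_iff₀ (norm_pos_iff.2 hy0)]
    exact hxy.trans (mul_le_mul_of_nonneg_right hd'2 (norm_nonneg _)))
  have e : x = y * u := by
    ext
    rw [Units.val_mul, hu]
    field_simp
    ring
  rw [e, map_mul, hu1, mul_one]

variable {k K : Type} [Field k] [Field K] {i : k →+* E} {j : k →+* K}

/-- the values of quotients of shifts -/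
lemma val_quot (P : KPlace j i) {f : K} (hf : f ∈ P.ring) {c c' : k}
    (h1 : P.hom ⟨f, hf⟩ + i c ≠ 0) (h2 : P.hom ⟨f, hf⟩ + i c' ≠ 0) :
    ∃ h : (f + j c) / (f + j c') ∈ P.ring, P.hom ⟨_, h⟩ =
      (P.hom ⟨f, hf⟩ + i c) / (P.hom ⟨f, hf⟩ + i c') := by
  obtain ⟨hc, hc1⟩ := P.const c
  obtain ⟨hc', hc1'⟩ := P.const c'
  have m1 : f + j c ∈ P.ring := P.ring.add_mem _ _ hf hc
  have m2 : f + j c' ∈ P.ring := P.ring.add_mem _ _ hf hc'
  have v1 : P.hom ⟨f + j c, m1⟩ = P.hom ⟨f, hf⟩ + i c := by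
    rw [← hc1, ← map_add]
    rfl
  have v2 : P.hom ⟨f + j c', m2⟩ = P.hom ⟨f, hf⟩ + i c' := by
    rw [← hc1', ← map_add]
    rfl
  have m3 : (f + j c')⁻¹ ∈ P.ring := by
    by_contra hcon
    exact h2 (by rw [← v2]; exact P.ker ⟨_, m2⟩ hcon)
  have hne : f + j c' ≠ 0 := by
    intro e
    apply h2
    rw [← v2]
    have e1 : (⟨f + j c', m2⟩ : P.ring) = 0 := Subtype.ext e
    rw [e1, map_zero]
  have m4 : (f + j c) / (f + j c') ∈ P.ring := by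
    rw [div_eq_mul_inv]
    exact P.ring.mul_mem _ _ m1 m3
  refine ⟨m4, ?_⟩
  rw [eq_div_iff h2, ← v2, ← map_mul, ← v1]
  congr 1
  apply Subtype.ext
  change (f + j c) / (f + j c') * (f + j c') = f + j c
  rw [div_mul_cancel₀ _ hne]

/-- the first place determines the second one -/
lemma sub' [ProperSpace E] (hp : p.Prime) (hp0 : (p : E) ≠ 0) (hi : DenseRange i)
    {T : K → E → Prop}
    (hT : ∀ f : K, f ≠ 0 → ∀ e e' : Eˣ, T f e → T f e' → (cl e : Sc p E) = cl e')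
    {P Q : KPlace j i} (hP : ∀ f : P.ring, P.hom f ≠ 0 → T f (P.hom f))
    (hQ : ∀ f : Q.ring, Q.hom f ≠ 0 → T f (Q.hom f)) {f : K} (hf : f ∈ P.ring) :
    ∃ hf' : f ∈ Q.ring, Q.hom ⟨f, hf'⟩ = P.hom ⟨f, hf⟩ := by
  obtain ⟨a, ha⟩ : ∃ a, a = P.hom ⟨f, hf⟩ := ⟨_, rfl⟩
  have _ : CompleteSpace E := inferInstance
  obtain ⟨d, hd1, hd⟩ := exists_close (E := E) hp hp0
  have hd0 : 0 < ‖(d : E)‖ := norm_pos_iff.2 d.ne_zero
  obtain ⟨ϖ, hϖ1, hϖ2⟩ := exists_ϖ (E := E)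
  have hϖ0 : 0 < ‖(ϖ : E)‖ := norm_pos_iff.2 ϖ.ne_zero
  -- constants for which `a + c` has a given class and is close to a given element
  have hap : ∀ t : Eˣ, ∃ (c : k) (e : Eˣ), (e : E) = a + i c ∧ (cl e : Sc p E) = cl t ∧
      ‖(e : E)‖ = ‖(t : E)‖ := by
    intro t
    have ht0 : 0 < ‖(t : E)‖ := norm_pos_iff.2 t.ne_zero
    obtain ⟨c, hc⟩ := hi.exists_dist_lt ((t : E) - a) (mul_pos hd0 ht0)
    rw [dist_comm, dist_eq_norm] at hc
    have e1 : i c - ((t : E) - a) = (a + i c) - t := by ring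
    rw [e1] at hc
    have h2 : ‖a + i c‖ = ‖(t : E)‖ := by
      have h3 : ‖(a + i c) - t‖ < ‖(t : E)‖ := hc.trans (mul_lt_of_lt_one_left ht0 hd1)
      have h4 := IsUltrametricDist.norm_add_eq_max_of_norm_ne_norm h3.ne
      rw [sub_add_cancel, max_eq_right h3.le] at h4
      exact h4
    have h3 : a + i c ≠ 0 := by
      rw [← norm_pos_iff, h2]
      exact ht0
    refine ⟨c, Units.mk0 _ h3, Units.val_mk0 _, hd _ _ ?_, by rw [Units.val_mk0, h2]⟩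
    rw [Units.val_mk0]
    exact hc.le
  have hϖc : (cl ϖ : Sc p E) ≠ 1 := by
    intro h
    obtain ⟨s, hs⟩ := cl_one.1 h
    have h1 : ‖(ϖ : E)‖ = ‖(s : E)‖ ^ p := by rw [hs, Units.val_pow_eq_pow_val, norm_pow]
    have h2 : ‖(s : E)‖ < 1 := by
      by_contra hcon
      rw [not_lt] at hcon
      have := one_le_pow₀ hcon (n := p)
      rw [← h1] at this
      exact absurd hϖ1 (not_lt.2 this)
    have h3 := hϖ2 _ h2
    have h4 : ‖(s : E)‖ ^ p ≤ ‖(ϖ : E)‖ ^ p := pow_le_pow_left₀ (norm_nonneg _) h3 p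
    rw [← h1] at h4
    have h5 : ‖(ϖ : E)‖ ^ p < ‖(ϖ : E)‖ ^ 1 := pow_lt_pow_right_of_lt_one₀ hϖ0 hϖ1 hp.one_lt
    rw [pow_one] at h5
    exact absurd h5 (not_lt.2 h4)
  have hfQ : f ∈ Q.ring := by
    by_contra hfQ
    have hf0 : f ≠ 0 := by
      rintro rfl
      exact hfQ Q.ring.zero_mem
    obtain ⟨c, e, he, hec, -⟩ := hap ϖ
    obtain ⟨c', e', he', hec', -⟩ := hap 1
    obtain ⟨h1, h2⟩ := val_quot P hf (c := c) (c' := c') (by rw [← ha, ← he]; exact e.ne_zero)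
      (by rw [← ha, ← he']; exact e'.ne_zero)
    rw [← ha, ← he, ← he'] at h2
    have h3 := hP ⟨_, h1⟩ (by rw [h2]; exact div_ne_zero e.ne_zero e'.ne_zero)
    rw [h2] at h3
    -- the second place
    have hfi : f⁻¹ ∈ Q.ring := (Q.ring.mem_or_inv_mem f).resolve_left hfQ
    have hfi0 : Q.hom ⟨f⁻¹, hfi⟩ = 0 := by
      apply Q.ker
      change (f⁻¹)⁻¹ ∉ Q.ring
      rwa [inv_inv]
    have hone : ∀ c : k, ∃ h : 1 + j c * f⁻¹ ∈ Q.ring, Q.hom ⟨_, h⟩ = 1 := by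
      intro c
      obtain ⟨hc, hc1⟩ := Q.const c
      have m1 : 1 + j c * f⁻¹ ∈ Q.ring :=
        Q.ring.add_mem _ _ Q.ring.one_mem (Q.ring.mul_mem _ _ hc hfi)
      refine ⟨m1, ?_⟩
      have e1 : (⟨1 + j c * f⁻¹, m1⟩ : Q.ring) = 1 + ⟨j c, hc⟩ * ⟨f⁻¹, hfi⟩ := rfl
      rw [e1, map_add, map_mul, hfi0, mul_zero, add_zero, map_one]
    obtain ⟨m1, v1⟩ := hone c
    obtain ⟨m2, v2⟩ := hone c'
    have m3 : (1 + j c' * f⁻¹)⁻¹ ∈ Q.ring := by
      by_contra hcon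
      have := Q.ker ⟨_, m2⟩ hcon
      rw [v2] at this
      exact one_ne_zero this
    have hne2 : 1 + j c' * f⁻¹ ≠ 0 := by
      intro e
      have e1 : (⟨1 + j c' * f⁻¹, m2⟩ : Q.ring) = 0 := Subtype.ext e
      rw [e1, map_zero] at v2
      exact zero_ne_one v2
    have hqe : (f + j c) / (f + j c') = (1 + j c * f⁻¹) * (1 + j c' * f⁻¹)⁻¹ := by
      have e1 : f + j c = f * (1 + j c * f⁻¹) := by field_simp
      have e2 : f + j c' = f * (1 + j c' * f⁻¹) := by field_simp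
      rw [e1, e2, mul_div_mul_left _ _ hf0, div_eq_mul_inv]
    have m4 : (f + j c) / (f + j c') ∈ Q.ring := by
      rw [hqe]
      exact Q.ring.mul_mem _ _ m1 m3
    have v4 : Q.hom ⟨_, m4⟩ = ((1 : Eˣ) : E) := by
      have h5 : (⟨_, m4⟩ : Q.ring) * ⟨_, m2⟩ = ⟨_, m1⟩ := by
        apply Subtype.ext
        change (f + j c) / (f + j c') * (1 + j c' * f⁻¹) = 1 + j c * f⁻¹
        rw [hqe, inv_mul_cancel_right₀ hne2]
      have h6 := congrArg Q.hom h5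
      rw [map_mul, v2, v1, mul_one] at h6
      rw [h6, Units.val_one]
    have h4 := hQ ⟨_, m4⟩ (by rw [v4]; exact (1 : Eˣ).ne_zero)
    rw [v4] at h4
    have hne : (f + j c) / (f + j c') ≠ 0 := by
      intro e0
      have e1 : (⟨_, h1⟩ : P.ring) = 0 := Subtype.ext e0
      rw [e1, map_zero, eq_comm, div_eq_zero_iff] at h2
      exact h2.elim e.ne_zero e'.ne_zero
    have h5 := hT _ hne (e / e') 1 (by rw [Units.val_div_eq_div_val]; exact h3) h4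
    rw [map_div, hec, hec', map_one, div_one] at h5
    exact hϖc h5
  refine ⟨hfQ, ?_⟩
  by_contra hne
  rw [← ha] at hne
  obtain ⟨b, hb⟩ : ∃ b, b = Q.hom ⟨f, hfQ⟩ := ⟨_, rfl⟩
  rw [← hb] at hne
  obtain ⟨δ, hδ⟩ : ∃ δ : Eˣ, (δ : E) = b - a := ⟨Units.mk0 _ (sub_ne_zero.2 hne), Units.val_mk0 _⟩
  have hδ0 : 0 < ‖(δ : E)‖ := norm_pos_iff.2 δ.ne_zero
  obtain ⟨n, hn⟩ := exists_pow_lt_of_lt_one (mul_pos hd0 hδ0) hϖ1
  have hnp : ∀ m, n ≤ m → ‖(ϖ : E)‖ ^ m ≤ ‖(d : E)‖ * ‖(δ : E)‖ := fun m hm =>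
    (pow_le_pow_of_le_one (norm_nonneg _) hϖ1.le hm).trans hn.le
  have hshift : ∀ (c : k) (e : Eˣ), (e : E) = a + i c → ‖(e : E)‖ ≤ ‖(d : E)‖ * ‖(δ : E)‖ →
      ∃ g : Eˣ, (g : E) = b + i c ∧ (cl g : Sc p E) = cl δ := by
    intro c e he hev
    have h1 : b + i c = δ + e := by
      rw [he, hδ]
      ring
    have h2 : ‖(e : E)‖ < ‖(δ : E)‖ := hev.trans_lt (mul_lt_of_lt_one_left hδ0 hd1)
    have h3 : ‖(δ : E) + e‖ = ‖(δ : E)‖ := by
      rw [IsUltrametricDist.norm_add_eq_max_of_norm_ne_norm h2.ne', max_eq_left h2.le]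
    have h4 : (δ : E) + e ≠ 0 := by
      rw [← norm_pos_iff, h3]
      exact hδ0
    refine ⟨Units.mk0 _ h4, by rw [Units.val_mk0, h1], hd _ _ ?_⟩
    rw [Units.val_mk0, add_sub_cancel_left]
    exact hev
  obtain ⟨c, e, he, hec, hev⟩ := hap (ϖ ^ (n * p) * ϖ)
  obtain ⟨c', e', he', hec', hev'⟩ := hap (ϖ ^ (n * p))
  have hn1 : n ≤ n * p := Nat.le_mul_of_pos_right n hp.pos
  obtain ⟨g, hg, hgc⟩ := hshift c e he (by
    rw [hev, ← pow_succ, Units.val_pow_eq_pow_val, norm_pow]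
    exact hnp _ (by omega))
  obtain ⟨g', hg', hgc'⟩ := hshift c' e' he' (by
    rw [hev', Units.val_pow_eq_pow_val, norm_pow]
    exact hnp _ hn1)
  obtain ⟨h1, h2⟩ := val_quot P hf (c := c) (c' := c') (by rw [← ha, ← he]; exact e.ne_zero)
    (by rw [← ha, ← he']; exact e'.ne_zero)
  rw [← ha, ← he, ← he'] at h2
  obtain ⟨h1', h2'⟩ := val_quot Q hfQ (c := c) (c' := c') (by rw [← hb, ← hg]; exact g.ne_zero)
    (by rw [← hb, ← hg']; exact g'.ne_zero)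
  rw [← hb, ← hg, ← hg'] at h2'
  have h3 := hP ⟨_, h1⟩ (by rw [h2]; exact div_ne_zero e.ne_zero e'.ne_zero)
  rw [h2] at h3
  have h3' := hQ ⟨_, h1'⟩ (by rw [h2']; exact div_ne_zero g.ne_zero g'.ne_zero)
  rw [h2'] at h3'
  have hne : (f + j c) / (f + j c') ≠ 0 := by
    intro e0
    have e1 : (⟨_, h1⟩ : P.ring) = 0 := Subtype.ext e0
    rw [e1, map_zero, eq_comm, div_eq_zero_iff] at h2
    exact h2.elim e.ne_zero e'.ne_zero
  have h5 := hT _ hne (e / e') (g / g') (by rw [Units.val_div_eq_div_val]; exact h3)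
    (by rw [Units.val_div_eq_div_val]; exact h3')
  rw [map_div, map_div, hec, hec', hgc, hgc', div_self', map_mul, mul_div_cancel_left] at h5
  exact hϖc h5

/-- uniqueness -/
theorem uniq' [ProperSpace E] (hp : p.Prime) (hp0 : (p : E) ≠ 0) (hi : DenseRange i)
    {T : K → E → Prop}
    (hT : ∀ f : K, f ≠ 0 → ∀ e e' : Eˣ, T f e → T f e' → (cl e : Sc p E) = cl e')
    {P Q : KPlace j i} (hP : ∀ f : P.ring, P.hom f ≠ 0 → T f (P.hom f))
    (hQ : ∀ f : Q.ring, Q.hom f ≠ 0 → T f (Q.hom f)) : P = Q := by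
  have hring : P.ring = Q.ring := by
    ext f
    exact ⟨fun hf => (sub' hp hp0 hi hT hP hQ hf).1, fun hf => (sub' hp hp0 hi hT hQ hP hf).1⟩
  have hhom : ∀ (f : K) (hf : f ∈ P.ring) (hf' : f ∈ Q.ring), P.hom ⟨f, hf⟩ = Q.hom ⟨f, hf'⟩ := by
    intro f hf hf'
    obtain ⟨hf'', e⟩ := sub' hp hp0 hi hT hP hQ hf
    exact e.symm
  obtain ⟨R, f, h1, h2⟩ := P
  obtain ⟨R', f', h1', h2'⟩ := Q
  dsimp only at hring hhom
  subst hring
  have : f = f' := by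
    ext x
    exact hhom x.1 x.2 x.2
  subst this
  rfl

end

/-- the class of the second element is determined -/
lemma St_uniq {p : ℕ} (hp : p.Prime) {E Ω K L : Type} [Field E] [Field Ω] [Algebra E Ω]
    [IsGalois E Ω] [Field K] [Field L] [Algebra K L] {ξ : L} {η : Ω} (hξ : IsPrimitiveRoot ξ p)
    (hη : IsPrimitiveRoot η p) {ρ : (Ω ≃ₐ[E] Ω) →* (L ≃ₐ[K] L)}
    (hcyc : ∀ τ : Ω ≃ₐ[E] Ω, ∃ m : ℕ, ρ τ ξ = ξ ^ m ∧ τ η = η ^ m) {f : K} (hf : f ≠ 0)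
    {e e' : Eˣ} (h : St p ξ η ρ f e) (h' : St p ξ η ρ f e') : (cl e : Sc p E) = cl e' := by
  have _ : Fact p.Prime := ⟨hp⟩
  obtain ⟨r, t, hr, ht, hrt⟩ := h
  obtain ⟨r', t', hr', ht', hrt'⟩ := h'
  have hr0 : r ≠ 0 := by
    rintro rfl
    rw [zero_pow hp.ne_zero, eq_comm, map_eq_zero] at hr
    exact hf hr
  have ht0 : t ≠ 0 := by
    rintro rfl
    rw [zero_pow hp.ne_zero, eq_comm, map_eq_zero] at ht
    exact e.ne_zero ht
  have ht0' : t' ≠ 0 := by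
    rintro rfl
    rw [zero_pow hp.ne_zero, eq_comm, map_eq_zero] at ht'
    exact e'.ne_zero ht'
  obtain ⟨x, rfl⟩ := exists_ex_mul hξ hr0 (hr'.trans hr.symm)
  have hfix : ∀ σ : Ω ≃ₐ[E] Ω, σ (t' * ex η (-x) / t) = t' * ex η (-x) / t := by
    intro σ
    obtain ⟨n, h1, h2⟩ := hrt σ
    obtain ⟨n', h1', h2'⟩ := hrt' σ
    obtain ⟨m, h3, h4⟩ := hcyc σ
    have hexL : ρ σ (ex ξ x) = ex ξ ((m : ZMod p) * x) := by
      conv_lhs => unfold ex
      rw [map_pow, h3, ← ex_nat hξ, ex_powval hξ, ZMod.natCast_zmod_val, mul_comm]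
    have hexΩ : σ (ex η (-x)) = ex η ((m : ZMod p) * -x) := by
      conv_lhs => unfold ex
      rw [map_pow, h4, ← ex_nat hη, ex_powval hη, ZMod.natCast_zmod_val, mul_comm]
    rw [map_mul, hexL, h1, ← ex_nat hξ, ← ex_nat hξ, ← mul_assoc, ← mul_assoc, ← ex_add hξ,
      ← ex_add hξ] at h1'
    have h5 := ex_mul_inj hξ hr0 h1'
    rw [map_div₀, map_mul, h2', h2, hexΩ, ← ex_nat hη, ← ex_nat hη]
    have h6 : ex η (n' : ZMod p) * ex η ((m : ZMod p) * -x) = ex η (-x) * ex η (n : ZMod p) := by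
      rw [← ex_add hη, ← ex_add hη]
      congr 1
      linear_combination (-1) * h5
    have h7 := ex_ne hη (n : ZMod p)
    rw [div_eq_div_iff (mul_ne_zero h7 ht0) ht0]
    linear_combination t' * t * h6
  obtain ⟨c, hc⟩ := (InfiniteGalois.mem_range_algebraMap_iff_fixed (k := E) _).2 hfix
  have hc0 : c ≠ 0 := by
    rintro rfl
    rw [map_zero, eq_comm] at hc
    exact div_ne_zero (mul_ne_zero ht0' (ex_ne hη _)) ht0 hc
  rw [cl_eq]
  refine ⟨Units.mk0 c hc0, ?_⟩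
  ext
  apply (algebraMap E Ω).injective
  rw [Units.val_mul, Units.val_pow_eq_pow_val, Units.val_mk0, map_mul, map_pow, hc, ← ht, ← ht',
    div_pow, mul_pow, ex_pow hη, mul_one, mul_div_cancel₀ _ (pow_ne_zero _ ht0)]

end Pool.Agent.Helper58.BQ
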