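import Mathlib
import Pool.Agent.Helper58.BQ.Uq

set_option autoImplicit false

/-! Finite extensions of local fields. -/

namespace Pool.Agent.Helper58.BQ

theorem exists_ext {E : Type} [NontriviallyNormedField E] [IsUltrametricDist E]
    [LocallyCompactSpace E] {Ω : Type} [Field Ω] [Algebra E Ω] (M : IntermediateField E Ω)
    [FiniteDimensional E M] :
    ∃ (E' : Type) (_ : NontriviallyNormedField E') (_ : Algebra E E') (_ : Algebra E' Ω),
      IsUltrametricDist E' ∧ LocallyCompactSpace E' ∧ IsScalarTower E E' Ω ∧
      (∀ x : E, ‖algebraMap E E' x‖ = ‖x‖) ∧ (∀ x : E', algebraMap E' Ω x ∈ M) ∧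
      ∀ y ∈ M, ∃ x : E', algebraMap E' Ω x = y := by
  have _ : ProperSpace E := ProperSpace.of_locallyCompactSpace E
  have _ : CompleteSpace E := inferInstance
  refine ⟨M, spectralNorm.nontriviallyNormedField E M, inferInstanceAs (Algebra E M),
    inferInstanceAs (Algebra M Ω), ?_, ?_, ?_, ?_, ?_, ?_⟩
  · letI := spectralNorm.nontriviallyNormedField E M
    exact IsUltrametricDist.isUltrametricDist_of_isNonarchimedean_norm
      (isNonarchimedean_spectralNorm (K := E) (L := M))
  · letI := spectralNorm.nontriviallyNormedField E M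
    letI : NormedSpace E M := spectralNorm.normedSpace E M
    have _ : ProperSpace M := FiniteDimensional.proper E M
    infer_instance
  · exact inferInstanceAs (IsScalarTower E M Ω)
  · intro x
    exact spectralNorm_extends (L := M) x
  · intro x
    exact x.2
  · intro y hy
    exact ⟨⟨y, hy⟩, rfl⟩

end Pool.Agent.Helper58.BQ
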