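import Mathlib
import Pool.Agent.Helper58.BQ.Ext

set_option autoImplicit false

/-! The theorem for fields without roots of unity. -/

namespace Pool.Agent.Helper58.BQ

open Pool.Agent.Helper58.BP

/-- factorization of a homomorphism -/
lemma lift_hom {A B C : Type} [Field A] [Field B] [Field C] (f : A →+* C) (g : B →+* C)
    (h : ∀ a, ∃ b, g b = f a) : ∃ f' : A →+* B, ∀ a, g (f' a) = f a := by
  choose u hu using h
  exact ⟨{ toFun := u
           map_one' := g.injective (by rw [hu, map_one, map_one])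
           map_mul' := fun x y => g.injective (by rw [hu, map_mul, map_mul, hu, hu])
           map_zero' := g.injective (by rw [hu, map_zero, map_zero])
           map_add' := fun x y => g.injective (by rw [hu, map_add, map_add, hu, hu]) }, hu⟩

/-- the automorphism of a subfield induced by an automorphism -/
lemma lift_equiv {B C : Type} [Field B] [Field C] (g : B →+* C) (τ : C ≃+* C)
    (h1 : ∀ b, ∃ b', g b' = τ (g b)) (h2 : ∀ b, ∃ b', g b' = τ.symm (g b)) :
    ∃ υ : B ≃+* B, ∀ b, g (υ b) = τ (g b) := by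
  obtain ⟨f, hf⟩ := lift_hom ((τ : C →+* C).comp g) g h1
  obtain ⟨f', hf'⟩ := lift_hom ((τ.symm : C →+* C).comp g) g h2
  have hf1 : ∀ b, g (f b) = τ (g b) := hf
  have hf2 : ∀ b, g (f' b) = τ.symm (g b) := hf'
  refine ⟨RingEquiv.ofRingHom f f' ?_ ?_, fun b => hf1 b⟩
  · ext b
    apply g.injective
    rw [RingHom.comp_apply, RingHom.id_apply, hf1, hf2, RingEquiv.apply_symm_apply]
  · ext b
    apply g.injective
    rw [RingHom.comp_apply, RingHom.id_apply, hf2, hf1, RingEquiv.symm_apply_apply]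

/-- automorphisms which fix a generator -/
lemma fix_adjoin {K L : Type} [Field K] [Field L] [Algebra K L] {S : Set L} {τ : L ≃ₐ[K] L}
    (h : ∀ x ∈ S, τ x = x) {x : L} (hx : x ∈ IntermediateField.adjoin K S) : τ x = x := by
  refine IntermediateField.adjoin_induction K (p := fun x _ => τ x = x) ?_ ?_ ?_ ?_ ?_ hx
  · exact h
  · intro x
    exact AlgEquiv.commutes _ x
  · intro x y _ _ h4 h5
    rw [map_add, h4, h5]
  · intro x _ h4
    rw [map_inv₀, h4]
  · intro x y _ _ h4 h5
    rw [map_mul, h4, h5]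

lemma map_adjoin {K L : Type} [Field K] [Field L] [Algebra K L] {ξ : L} {τ : L ≃ₐ[K] L} {m : ℕ}
    (h : τ ξ = ξ ^ m) {x : L} (hx : x ∈ IntermediateField.adjoin K {ξ}) :
    τ x ∈ IntermediateField.adjoin K {ξ} := by
  refine IntermediateField.adjoin_induction K
    (p := fun x _ => τ x ∈ IntermediateField.adjoin K {ξ}) ?_ ?_ ?_ ?_ ?_ hx
  · intro x hx
    rw [Set.mem_singleton_iff.1 hx, h]
    exact pow_mem (IntermediateField.mem_adjoin_simple_self K ξ) m
  · intro x
    rw [AlgEquiv.commutes]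
    exact IntermediateField.algebraMap_mem _ _
  · intro x y _ _ h4 h5
    rw [map_add]
    exact add_mem h4 h5
  · intro x _ h4
    rw [map_inv₀]
    exact inv_mem h4
  · intro x y _ _ h4 h5
    rw [map_mul]
    exact mul_mem h4 h5

/-- continuity of the restriction to the subfields -/
lemma cont_res {E E' Ω K K' L : Type} [Field E] [Field E'] [Field Ω] [Algebra E E']
    [Algebra E' Ω] [Algebra E Ω] [IsScalarTower E E' Ω] [Field K] [Field K'] [Field L]
    [Algebra K K'] [Algebra K' L] [Algebra K L] [IsScalarTower K K' L] [FiniteDimensional K K']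
    [Algebra.IsAlgebraic E Ω]
    {ρ : (Ω ≃ₐ[E] Ω) →* (L ≃ₐ[K] L)} (hρ : Continuous ρ) {ρ' : (Ω ≃ₐ[E'] Ω) →* (L ≃ₐ[K'] L)}
    (h : ∀ (σ' : Ω ≃ₐ[E'] Ω) (x : L), ρ' σ' x = ρ (σ'.restrictScalars E) x) : Continuous ρ' := by
  apply continuous_of_continuousAt_one
  rw [ContinuousAt, map_one]
  intro U hU
  rw [krullTopology_mem_nhds_one_iff] at hU
  obtain ⟨N, hN, hNU⟩ := hU
  have hNK : FiniteDimensional K (N.restrictScalars K) :=
    FiniteDimensional.trans K K' N
  have h1 : ρ ⁻¹' ((N.restrictScalars K).fixingSubgroup : Set (L ≃ₐ[K] L)) ∈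
      nhds (1 : Ω ≃ₐ[E] Ω) := by
    apply ((N.restrictScalars K).fixingSubgroup_isOpen.preimage hρ).mem_nhds
    rw [Set.mem_preimage, map_one]
    exact Subgroup.one_mem _
  rw [krullTopology_mem_nhds_one_iff] at h1
  obtain ⟨M, hM, hMU⟩ := h1
  rw [Filter.mem_map, krullTopology_mem_nhds_one_iff]
  obtain ⟨b, hb⟩ : ∃ b : Module.Basis (Fin (Module.finrank E M)) E M, True :=
    ⟨Module.finBasis E M, trivial⟩
  refine ⟨IntermediateField.adjoin E' (Set.range fun i => (b i : Ω)), ?_, ?_⟩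
  · apply IntermediateField.finiteDimensional_adjoin
    rintro x ⟨i, rfl⟩
    exact (Algebra.IsIntegral.isIntegral (R := E) (b i : Ω)).tower_top
  · intro σ' hσ'
    apply hNU
    rw [SetLike.mem_coe, IntermediateField.mem_fixingSubgroup_iff] at hσ' ⊢
    have h2 : σ'.restrictScalars E ∈ M.fixingSubgroup := by
      rw [IntermediateField.mem_fixingSubgroup_iff]
      intro x hx
      have h3 := b.sum_repr ⟨x, hx⟩
      have h4 : x = ∑ i, algebraMap E Ω (b.repr ⟨x, hx⟩ i) * (b i : Ω) := by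
        have := congrArg (algebraMap M Ω) h3
        rw [map_sum] at this
        change _ = x at this
        refine this.symm.trans (Finset.sum_congr rfl fun i _ => ?_)
        rw [Algebra.smul_def, map_mul, ← IsScalarTower.algebraMap_apply]
        rfl
      rw [h4, map_sum]
      refine Finset.sum_congr rfl fun i _ => ?_
      rw [map_mul, AlgEquiv.commutes]
      congr 1
      exact hσ' _ (IntermediateField.subset_adjoin E' _ ⟨i, rfl⟩)
    have h3 := hMU h2
    rw [Set.mem_preimage, SetLike.mem_coe, IntermediateField.mem_fixingSubgroup_iff] at h3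
    intro x hx
    rw [h]
    exact h3 x hx

/-- density of the extended constants -/
lemma dense_ext {E E' Ω k k' : Type} [NontriviallyNormedField E] [NontriviallyNormedField E']
    [Field Ω] [Algebra E E'] [Algebra E' Ω] [Algebra E Ω] [IsScalarTower E E' Ω] [Field k]
    [Field k'] (hnorm : ∀ x : E, ‖algebraMap E E' x‖ = ‖x‖) {κ : k →+* k'} {i : k →+* E}
    (hi : DenseRange i) {i' : k' →+* E'} (hii : ∀ c, i' (κ c) = algebraMap E E' (i c)) {ζ : k'}
    [Algebra.IsAlgebraic E Ω]
    (hgen : ∀ x : E', algebraMap E' Ω x ∈ IntermediateField.adjoin E {algebraMap E' Ω (i' ζ)}) :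
    DenseRange i' := by
  obtain ⟨S, hS⟩ : ∃ S : Subring E', S = (i'.range).topologicalClosure := ⟨_, rfl⟩
  have hmem : ∀ x : E', x ∈ S ↔ x ∈ closure (Set.range i') := by
    intro x
    rw [hS]
    rfl
  have h1 : ∀ x : E, algebraMap E E' x ∈ S := by
    intro x
    rw [hmem, Metric.mem_closure_iff]
    intro ε hε
    obtain ⟨c, hc⟩ := hi.exists_dist_lt x hε
    refine ⟨i' (κ c), ⟨κ c, rfl⟩, ?_⟩
    rw [hii, dist_eq_norm, ← map_sub, hnorm, ← dist_eq_norm]
    exact hc
  have h2 : i' ζ ∈ S := by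
    rw [hmem]
    exact subset_closure ⟨ζ, rfl⟩
  intro x
  rw [← hmem]
  have h3 := hgen x
  have halg : IsAlgebraic E (algebraMap E' Ω (i' ζ)) := Algebra.IsAlgebraic.isAlgebraic _
  have h4 : algebraMap E' Ω x ∈ Algebra.adjoin E {algebraMap E' Ω (i' ζ)} := by
    rw [← IntermediateField.adjoin_simple_toSubalgebra_of_isAlgebraic halg]
    exact h3
  have key : ∀ y ∈ Algebra.adjoin E {algebraMap E' Ω (i' ζ)}, ∃ z ∈ S, algebraMap E' Ω z = y := by
    intro y hy
    refine Algebra.adjoin_induction (p := fun y _ => ∃ z ∈ S, algebraMap E' Ω z = y) ?_ ?_ ?_ ?_ hy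
    · intro y hy
      rw [Set.mem_singleton_iff.1 hy]
      exact ⟨_, h2, rfl⟩
    · intro r
      exact ⟨_, h1 r, (IsScalarTower.algebraMap_apply E E' Ω r).symm⟩
    · rintro _ _ _ _ ⟨z, hz, rfl⟩ ⟨z', hz', rfl⟩
      exact ⟨z + z', add_mem hz hz', map_add _ _ _⟩
    · rintro _ _ _ _ ⟨z, hz, rfl⟩ ⟨z', hz', rfl⟩
      exact ⟨z * z', mul_mem hz hz', map_mul _ _ _⟩
  obtain ⟨z, hz, hzx⟩ := key _ h4
  rwa [← (algebraMap E' Ω).injective hzx]

end Pool.Agent.Helper58.BQ
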