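import Mathlib
import Pool.Agent.Helper58.BQ.Fin

set_option autoImplicit false

/-! The theorem for fields without roots of unity. -/

namespace Pool.Agent.Helper58.BQ

open Pool.Agent.Helper58.BP

theorem asm {p : ℕ} (hp : p.Prime) {E : Type} [NontriviallyNormedField E] [IsUltrametricDist E]
    [LocallyCompactSpace E] (hpE : ‖(p : E)‖ < 1) {Ω : Type} [Field Ω]
    [Algebra E Ω] [IsAlgClosed Ω] [IsGalois E Ω] {k : Type} [Field k]
    (i : k →+* E) (hi : DenseRange i) {K : Type} [Field K] (j : k →+* K) {L : Type} [Field L]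
    [Algebra K L] {k' : Type} [Field k'] [Algebra k k'] {ζ : k'} (hζ : IsPrimitiveRoot ζ p)
    (hk' : IntermediateField.adjoin k {ζ} = ⊤) (mu : k' →+* Ω)
    (hmu : ∀ c : k, mu (algebraMap k k' c) = algebraMap E Ω (i c)) (lam : k' →+* L)
    (hlam : ∀ c : k, lam (algebraMap k k' c) = algebraMap K L (j c))
    (hL : ∀ f ∈ IntermediateField.adjoin K {lam ζ}, ∃ r : L, r ^ p = f)
    (hL1 : ∀ r : L, r ^ p ∈ IntermediateField.adjoin K {lam ζ} →
      ∃ w : L, w ^ p = ∏ j ∈ Finset.range p, (1 - lam ζ ^ j * r) ^ j)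
    (ρ : (Ω ≃ₐ[E] Ω) →* (L ≃ₐ[K] L)) (hρ : Continuous ρ)
    (hcyc : ∀ σ : Ω ≃ₐ[E] Ω, ∃ m : ℕ, σ (mu ζ) = mu ζ ^ m ∧ ρ σ (lam ζ) = lam ζ ^ m)
    (hkum : ∀ c : k', c ≠ 0 → ∃ (r : L) (t : Ω), r ^ p = lam c ∧ t ^ p = mu c ∧
      ∀ σ : Ω ≃ₐ[E] Ω, σ (mu ζ) = mu ζ → ∃ n : ℕ, ρ σ r = lam ζ ^ n * r ∧ σ t = mu ζ ^ n * t) :
    ∃! P : KPlace j i, ∀ f : P.ring, P.hom f ≠ 0 → St p (lam ζ) (mu ζ) ρ (f : K) (P.hom f) := by
  have _ : ProperSpace E := ProperSpace.of_locallyCompactSpace E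
  have hζL : IsPrimitiveRoot (lam ζ) p := hζ.map_of_injective lam.injective
  have hζΩ : IsPrimitiveRoot (mu ζ) p := hζ.map_of_injective mu.injective
  -- induction on the elements of `k'`
  have ind : ∀ (q : k' → Prop), (∀ c : k, q (algebraMap k k' c)) → q ζ →
      (∀ x y, q x → q y → q (x + y)) → (∀ x, q x → q x⁻¹) → (∀ x y, q x → q y → q (x * y)) →
      ∀ x, q x := by
    intro q h1 h2 h3 h4 h5 x
    have hx : x ∈ IntermediateField.adjoin k {ζ} := by
      rw [hk']
      exact IntermediateField.mem_top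
    refine IntermediateField.adjoin_induction k (p := fun x _ => q x) ?_ h1 ?_ ?_ ?_ hx
    · intro x hx
      rw [Set.mem_singleton_iff.1 hx]
      exact h2
    · intro x y _ _ hx hy
      exact h3 x y hx hy
    · intro x _ hx
      exact h4 x hx
    · intro x y _ _ hx hy
      exact h5 x y hx hy
  -- the extension of the local field
  have hfinM : FiniteDimensional E (IntermediateField.adjoin E {mu ζ}) :=
    IntermediateField.adjoin.finiteDimensional (Algebra.IsIntegral.isIntegral (mu ζ))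
  obtain ⟨E', _, _, _, hult, hlc, htow, hnorm, hE'1, hE'2⟩ :=
    exists_ext (IntermediateField.adjoin E {mu ζ})
  have hmuM : ∀ c : k', mu c ∈ IntermediateField.adjoin E {mu ζ} := by
    apply ind
    · intro c
      rw [hmu]
      exact IntermediateField.algebraMap_mem _ _
    · exact IntermediateField.mem_adjoin_simple_self E (mu ζ)
    · intro x y hx hy
      rw [map_add]
      exact add_mem hx hy
    · intro x hx
      rw [map_inv₀]
      exact inv_mem hx
    · intro x y hx hy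
      rw [map_mul]
      exact mul_mem hx hy
  have hlamM : ∀ c : k', lam c ∈ IntermediateField.adjoin K {lam ζ} := by
    apply ind
    · intro c
      rw [hlam]
      exact IntermediateField.algebraMap_mem _ _
    · exact IntermediateField.mem_adjoin_simple_self K (lam ζ)
    · intro x y hx hy
      rw [map_add]
      exact add_mem hx hy
    · intro x hx
      rw [map_inv₀]
      exact inv_mem hx
    · intro x y hx hy
      rw [map_mul]
      exact mul_mem hx hy
  obtain ⟨i', hi'⟩ := lift_hom mu (algebraMap E' Ω) fun c => hE'2 _ (hmuM c)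
  obtain ⟨K', hK'⟩ : ∃ K' : IntermediateField K L, K' = IntermediateField.adjoin K {lam ζ} :=
    ⟨_, rfl⟩
  obtain ⟨j', hj'⟩ := lift_hom lam (algebraMap K' L) fun c =>
    ⟨⟨lam c, by rw [hK']; exact hlamM c⟩, rfl⟩
  have hfinK : FiniteDimensional K K' := by
    rw [hK']
    apply IntermediateField.adjoin.finiteDimensional
    have h1 : IsIntegral K (lam ζ ^ p) := by
      rw [hζL.pow_eq_one]
      exact isIntegral_one
    exact IsIntegral.of_pow hp.pos h1
  have hgalE' : IsGalois E' Ω := IsGalois.tower_top_of_isGalois E E' Ω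
  -- the restricted homomorphism
  have hfixζ : ∀ σ : Ω ≃ₐ[E] Ω, σ (mu ζ) = mu ζ → ρ σ (lam ζ) = lam ζ := by
    intro σ hσ
    obtain ⟨m, h1, h2⟩ := hcyc σ
    rw [h2]
    have h3 : mu ζ ^ m = mu ζ ^ 1 := by rw [← h1, hσ, pow_one]
    have _ : Fact p.Prime := ⟨hp⟩
    have h4 := ex_nat hζΩ m
    have h5 := ex_nat hζΩ 1
    have h6 : (m : ZMod p) = ((1 : ℕ) : ZMod p) := ex_inj hζΩ (by rw [h4, h5, h3])
    have h7 := ex_nat hζL m
    have h8 := ex_nat hζL 1
    rw [← h7, h6, h8, pow_one]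
  have hσζ : ∀ σ' : Ω ≃ₐ[E'] Ω, (σ'.restrictScalars E) (mu ζ) = mu ζ := by
    intro σ'
    change σ' (mu ζ) = mu ζ
    rw [← hi', AlgEquiv.commutes]
  have hfixK : ∀ (σ' : Ω ≃ₐ[E'] Ω) (x : K'),
      ρ (σ'.restrictScalars E) (algebraMap K' L x) = algebraMap K' L x := by
    intro σ' x
    refine fix_adjoin (S := {lam ζ}) ?_ (by rw [← hK']; exact x.2)
    intro y hy
    rw [Set.mem_singleton_iff.1 hy]
    exact hfixζ _ (hσζ σ')
  obtain ⟨ρ', hρρ'⟩ : ∃ ρ' : (Ω ≃ₐ[E'] Ω) →* (L ≃ₐ[K'] L),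
      ∀ (σ' : Ω ≃ₐ[E'] Ω) (x : L), ρ' σ' x = ρ (σ'.restrictScalars E) x := by
    refine ⟨MonoidHom.mk' (fun σ' => AlgEquiv.ofRingEquiv
      (f := (ρ (σ'.restrictScalars E)).toRingEquiv) (hfixK σ')) ?_, fun _ _ => rfl⟩
    intro σ τ
    ext x
    change ρ ((σ * τ).restrictScalars E) x =
      ρ (σ.restrictScalars E) (ρ (τ.restrictScalars E) x)
    rw [← AlgEquiv.mul_apply, ← map_mul]
    rfl
  have hρ' : Continuous ρ' := cont_res hρ hρρ'
  -- density
  have hi'd : DenseRange i' := by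
    refine dense_ext (Ω := Ω) hnorm (κ := algebraMap k k') hi ?_ (ζ := ζ) ?_
    · intro c
      apply (algebraMap E' Ω).injective
      rw [hi', hmu, ← IsScalarTower.algebraMap_apply]
    · intro x
      rw [hi']
      exact hE'1 x
  -- the towers
  have hT : Tw ζ i' j' ρ ρ' := by
    refine ⟨?_, ?_, ?_, ?_⟩
    · intro σ' σ h x
      rw [hρρ']
      congr 2
      ext y
      exact (h y).symm
    · intro τ
      obtain ⟨m, h1, h2⟩ := hcyc τ
      exact ⟨m, by rw [hj', h2], by rw [hi', h1]⟩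
    · intro τ h x
      rw [hi'] at h
      refine fix_adjoin (S := {mu ζ}) ?_ (hE'1 x)
      intro y hy
      rw [Set.mem_singleton_iff.1 hy]
      exact h
    · intro τ
      obtain ⟨m, h1, h2⟩ := hcyc τ
      obtain ⟨m', h1', h2'⟩ := hcyc τ⁻¹
      obtain ⟨τE, hτE⟩ := lift_equiv (algebraMap E' Ω) τ.toRingEquiv
        (fun b => hE'2 _ (map_adjoin h1 (hE'1 b))) (fun b => hE'2 _ (map_adjoin h1' (hE'1 b)))
      have hK'm : ∀ x : K', (x : L) ∈ IntermediateField.adjoin K {lam ζ} := by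
        intro x
        rw [← hK']
        exact x.2
      have hKmem : ∀ y ∈ IntermediateField.adjoin K {lam ζ}, y ∈ K' := by
        intro y hy
        rw [hK']
        exact hy
      have hinv : ρ τ⁻¹ = (ρ τ)⁻¹ := map_inv ρ τ
      obtain ⟨τK, hτK⟩ := lift_equiv (algebraMap K' L) (ρ τ).toRingEquiv
        (fun b => ⟨⟨ρ τ b, hKmem _ (map_adjoin h2 (hK'm b))⟩, rfl⟩)
        (fun b => ⟨⟨ρ τ⁻¹ b, hKmem _ (map_adjoin h2' (hK'm b))⟩, by
          change ρ τ⁻¹ (b : L) = (ρ τ)⁻¹ (b : L)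
          rw [hinv]⟩)
      refine ⟨τE, τK, hτE, hτK, fun c => ?_⟩
      have key : ∃ c' : k', mu c' = τ⁻¹ (mu c) ∧ lam c' = ρ τ⁻¹ (lam c) := by
        revert c
        apply ind
        · intro c
          exact ⟨algebraMap k k' c, by rw [hmu, AlgEquiv.commutes],
            by rw [hlam, AlgEquiv.commutes]⟩
        · exact ⟨ζ ^ m', by rw [h1', map_pow], by rw [h2', map_pow]⟩
        · rintro x y ⟨x', hx1, hx2⟩ ⟨y', hy1, hy2⟩
          exact ⟨x' + y', by rw [map_add, map_add, map_add, hx1, hy1],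
            by rw [map_add, map_add, map_add, hx2, hy2]⟩
        · rintro x ⟨x', hx1, hx2⟩
          exact ⟨x'⁻¹, by rw [map_inv₀, map_inv₀, map_inv₀, hx1],
            by rw [map_inv₀, map_inv₀, map_inv₀, hx2]⟩
        · rintro x y ⟨x', hx1, hx2⟩ ⟨y', hy1, hy2⟩
          exact ⟨x' * y', by rw [map_mul, map_mul, map_mul, hx1, hy1],
            by rw [map_mul, map_mul, map_mul, hx2, hy2]⟩
      obtain ⟨c', hc1, hc2⟩ := key
      refine ⟨c', ?_, ?_⟩
      · rw [RingEquiv.eq_symm_apply]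
        apply (algebraMap E' Ω).injective
        rw [hτE, hi', hi', hc1]
        change τ (τ⁻¹ (mu c)) = mu c
        rw [← AlgEquiv.mul_apply, mul_inv_cancel, AlgEquiv.one_apply]
      · rw [RingEquiv.eq_symm_apply]
        apply (algebraMap K' L).injective
        rw [hτK, hj', hj', hc2]
        change ρ τ (ρ τ⁻¹ (lam c)) = lam c
        rw [← AlgEquiv.mul_apply, ← map_mul, mul_inv_cancel, map_one, AlgEquiv.one_apply]
  -- the characters of the constants
  have hk : ∀ c : k', c ≠ 0 → Sr p (j' ζ) (i' ζ) ρ' (j' c) (i' c) := by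
    intro c hc
    obtain ⟨r, t, hr, ht, h⟩ := hkum c hc
    refine ⟨r, t, by rw [hj', hr], by rw [hi', ht], fun σ' => ?_⟩
    obtain ⟨n, h1, h2⟩ := h _ (hσζ σ')
    refine ⟨n, ?_, ?_⟩
    · rw [hρρ', hj', h1]
    · rw [hi']
      exact h2
  have hpE' : ‖(p : E')‖ < 1 := by
    rw [← map_natCast (algebraMap E E'), hnorm]
    exact hpE
  have hLK : ∀ f : K', ∃ r : L, r ^ p = algebraMap K' L f := fun f =>
    hL _ (by rw [← hK']; exact f.2)
  have hLK1 : ∀ r : L, (∃ f : K', r ^ p = algebraMap K' L f) →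
      ∃ w : L, w ^ p = Th p (algebraMap K' L (j' ζ)) r := by
    rintro r ⟨f, hf⟩
    rw [hj']
    apply hL1
    rw [hf, ← hK']
    exact f.2
  obtain ⟨P, hP⟩ := desc hp hpE' hζ hi'd hLK hLK1 hρ' hT hk (algebraMap k k') i j (by
    intro c
    apply (algebraMap E' Ω).injective
    rw [hi', hmu, ← IsScalarTower.algebraMap_apply]) (by
    intro c
    apply (algebraMap K' L).injective
    rw [hj', hlam, ← IsScalarTower.algebraMap_apply])
  rw [hj', hi'] at hP
  have hp0 : (p : E) ≠ 0 := by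
    intro e
    have h1 : (p : Ω) ≠ 0 := by
      have _ : NeZero p := ⟨hp.ne_zero⟩
      have := hζΩ.neZero'
      exact this.out
    apply h1
    rw [← map_natCast (algebraMap E Ω), e, map_zero]
  refine ⟨P, hP, fun Q hQ => ?_⟩
  refine uniq' hp hp0 hi (T := fun f e => St p (lam ζ) (mu ζ) ρ f e) ?_ hQ hP
  intro f hf e e' h h'
  exact St_uniq hp hζL hζΩ (fun τ => by
    obtain ⟨m, h1, h2⟩ := hcyc τ
    exact ⟨m, h2, h1⟩) hf h h'

end Pool.Agent.Helper58.BQ
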