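import Mathlib

set_option autoImplicit false

/-! Fields which are generated by a field and by the field of the algebraic numbers. -/

namespace Pool.Agent.Helper58.BQ

open Polynomial

/-- interpolation -/
lemma rep {E Ω N : Type} [Field E] [Field Ω] [Algebra E Ω] [IsGalois E Ω] [IsAlgClosed Ω] [Field N]
    (lam : Ω →+* N) (s : (Ω ≃ₐ[E] Ω) →* (N ≃+* N)) (hs : ∀ σ c, s σ (lam c) = lam (σ c))
    (x : N) (c : Ω) (hc : ∀ σ : Ω ≃ₐ[E] Ω, σ c = c → s σ x = x) :
    ∃ A : N[X], A.natDegree < (minpoly E c).natDegree ∧ (∀ σ i, s σ (A.coeff i) = A.coeff i) ∧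
      A.eval (lam c) = x := by
  classical
  have hint : IsIntegral E c := Algebra.IsIntegral.isIntegral c
  obtain ⟨S, hS⟩ : ∃ S : Finset Ω, S = ((minpoly E c).aroots Ω).toFinset := ⟨_, rfl⟩
  have hmem : ∀ β, β ∈ S ↔ ∃ σ : Ω ≃ₐ[E] Ω, σ c = β := by
    intro β
    rw [hS, Multiset.mem_toFinset, ← isConjRoot_iff_mem_minpoly_aroots hint,
      isConjRoot_iff_exists_algEquiv]
    constructor
    · rintro ⟨σ, h⟩
      exact ⟨σ⁻¹, by rw [← h, ← AlgEquiv.mul_apply, inv_mul_cancel, AlgEquiv.one_apply]⟩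
    · rintro ⟨σ, h⟩
      exact ⟨σ⁻¹, by rw [← h, ← AlgEquiv.mul_apply, inv_mul_cancel, AlgEquiv.one_apply]⟩
  have hcard : S.card = (minpoly E c).natDegree := by
    have hsep : (minpoly E c).Separable := IsGalois.separable E c
    have hspl : ((minpoly E c).map (algebraMap E Ω)).Splits := IsAlgClosed.splits _
    rw [hS]
    unfold Polynomial.aroots
    rw [Multiset.toFinset_card_of_nodup (nodup_roots hsep.map), ← hspl.natDegree_eq_card_roots,
      natDegree_map]
  have hg' : ∀ β, ∃ σ : Ω ≃ₐ[E] Ω, β ∈ S → σ c = β := by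
    intro β
    by_cases hβ : β ∈ S
    · obtain ⟨σ, h⟩ := (hmem β).1 hβ
      exact ⟨σ, fun _ => h⟩
    · exact ⟨1, fun h => absurd h hβ⟩
  choose g hg using hg'
  have hinj : Set.InjOn (lam : Ω → N) (S : Set Ω) := lam.injective.injOn
  obtain ⟨A, hA⟩ : ∃ A : N[X], A = Lagrange.interpolate S (lam : Ω → N) fun β => s (g β) x :=
    ⟨_, rfl⟩
  have hdeg : A.degree < S.card := by
    rw [hA]
    exact Lagrange.degree_interpolate_lt _ hinj
  have hev : ∀ β ∈ S, A.eval (lam β) = s (g β) x := by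
    intro β hβ
    rw [hA]
    exact Lagrange.eval_interpolate_at_node (fun β => s (g β) x) hinj hβ
  refine ⟨A, ?_, ?_, ?_⟩
  · rw [← hcard]
    by_cases h0 : A = 0
    · rw [h0, natDegree_zero, hcard]
      exact minpoly.natDegree_pos hint
    · exact (natDegree_lt_iff_degree_lt h0).2 hdeg
  · intro τ i
    have h1 : A.map ((s τ : N ≃+* N) : N →+* N) = A := by
      refine Polynomial.eq_of_degrees_lt_of_eval_index_eq S hinj ?_ hdeg ?_
      · rw [degree_map]
        exact hdeg
      · intro β hβ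
        obtain ⟨σ, hσ⟩ := (hmem β).1 hβ
        have h2 : τ⁻¹ β ∈ S := (hmem _).2 ⟨τ⁻¹ * σ, by rw [AlgEquiv.mul_apply, hσ]⟩
        have h3 : lam β = ((s τ : N ≃+* N) : N →+* N) (lam (τ⁻¹ β)) := by
          change lam β = s τ (lam (τ⁻¹ β))
          rw [hs, ← AlgEquiv.mul_apply, mul_inv_cancel, AlgEquiv.one_apply]
        rw [hev β hβ, h3, eval_map_apply, hev _ h2]
        change s τ (s (g (τ⁻¹ β)) x) = s (g β) x
        have h4 : s ((g β)⁻¹ * (τ * g (τ⁻¹ β))) x = x := by
          apply hc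
          rw [AlgEquiv.mul_apply, AlgEquiv.mul_apply, hg _ h2, ← AlgEquiv.mul_apply τ,
            mul_inv_cancel, AlgEquiv.one_apply]
          have h6 : (g β)⁻¹ (g β c) = c := by
            rw [← AlgEquiv.mul_apply, inv_mul_cancel, AlgEquiv.one_apply]
          rw [hg β hβ] at h6
          exact h6
        have h5 : s τ (s (g (τ⁻¹ β)) x) = s (g β) (s ((g β)⁻¹ * (τ * g (τ⁻¹ β))) x) := by
          rw [← RingAut.mul_apply, ← RingAut.mul_apply, ← map_mul, ← map_mul, mul_inv_cancel_left]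
        rw [h5, h4]
    have h2 := congrArg (fun q => q.coeff i) h1
    simp only [coeff_map] at h2
    exact h2
  · have h1 : c ∈ S := (hmem c).2 ⟨1, rfl⟩
    rw [hev c h1]
    exact hc _ (hg c h1)

/-- the valuation of the elements of the big field -/
lemma crit {E Ω M N : Type} [Field E] [Field Ω] [Algebra E Ω] [Algebra.IsIntegral E Ω] [Field M]
    [Field N] (ι : M →+* N) (lam : Ω →+* N) (jE : E →+* M)
    (hj : ∀ e, ι (jE e) = lam (algebraMap E Ω e)) {O : ValuationSubring M}
    (hres : ∀ a ∈ O, ∃ e : E, a - jE e ∈ O.nonunits) (hE : ∀ e, jE e ∈ O)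
    {V : ValuationSubring N} (hV : ∀ a : M, a ∈ O ↔ ι a ∈ V) {c : Ω} {B : M[X]}
    (hB : B.natDegree < (minpoly E c).natDegree) {i₀ : ℕ} (h0 : B.coeff i₀ ≠ 0)
    (hmax : ∀ i, B.coeff i / B.coeff i₀ ∈ O) :
    (B.map ι).eval (lam c) ∈ V ↔ B.coeff i₀ ∈ O := by
  classical
  have hjV : ∀ e : E, lam (algebraMap E Ω e) ∈ V := fun e => by
    rw [← hj, ← hV]
    exact hE e
  have hint : ∀ x : Ω, lam x ∈ V := by
    intro x
    obtain ⟨q, hq, hqx⟩ := Algebra.IsIntegral.isIntegral (R := E) x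
    have h1 : IsIntegral V (lam x) := by
      refine ⟨q.map ((lam.comp (algebraMap E Ω)).codRestrict V.toSubring hjV), hq.map _, ?_⟩
      rw [eval₂_map]
      have h2 := congrArg lam hqx
      rw [hom_eval₂, map_zero] at h2
      exact h2
    obtain ⟨y, hy⟩ := IsIntegrallyClosed.isIntegral_iff.1 h1
    rw [← hy]
    exact y.2
  have hnon : ∀ a : M, a ∈ O.nonunits → ι a ∈ V.nonunits := by
    intro a ha
    rw [ValuationSubring.mem_nonunits_iff_or] at ha ⊢
    rw [map_eq_zero, ← map_inv₀, ← hV]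
    exact ha
  obtain ⟨n, hn⟩ : ∃ n, n = (minpoly E c).natDegree := ⟨_, rfl⟩
  rw [← hn] at hB
  obtain ⟨b, hb⟩ : ∃ b : ℕ → M, ∀ i, b i = B.coeff i / B.coeff i₀ := ⟨_, fun _ => rfl⟩
  have hbO : ∀ i, b i ∈ O := fun i => by rw [hb]; exact hmax i
  choose e he using fun i => hres (b i) (hbO i)
  obtain ⟨y, hy⟩ : ∃ y, y = ∑ i ∈ Finset.range n, ι (b i) * lam c ^ i := ⟨_, rfl⟩
  have hx : (B.map ι).eval (lam c) = ι (B.coeff i₀) * y := by
    rw [eval_eq_sum_range' (n := n) (by rw [natDegree_map]; exact hB), hy, Finset.mul_sum]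
    refine Finset.sum_congr rfl fun i _ => ?_
    rw [coeff_map, hb, map_div₀, ← mul_assoc,
      mul_div_cancel₀ _ ((map_ne_zero ι).2 h0)]
  have hyV : y ∈ V := by
    rw [hy]
    exact sum_mem fun i _ => mul_mem ((hV _).1 (hbO i)) (pow_mem (hint c) i)
  have hy1 : y ∉ V.nonunits := by
    intro hyn
    have h1 : lam (∑ i ∈ Finset.range n, algebraMap E Ω (e i) * c ^ i) ∈ V.nonunits := by
      have h2 : lam (∑ i ∈ Finset.range n, algebraMap E Ω (e i) * c ^ i) =
          y - ∑ i ∈ Finset.range n, ι (b i - jE (e i)) * lam c ^ i := by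
        rw [hy, ← Finset.sum_sub_distrib, map_sum]
        refine Finset.sum_congr rfl fun i _ => ?_
        rw [map_mul, map_pow, map_sub, hj]
        ring
      rw [h2]
      refine sub_mem hyn (sum_mem fun i _ => ?_)
      have h3 := hnon _ (he i)
      rw [ValuationSubring.mem_nonunits_iff] at h3 ⊢
      rw [map_mul]
      have h4 : V.valuation (lam c ^ i) ≤ 1 :=
        (V.valuation_le_one_iff _).2 (pow_mem (hint c) i)
      calc _ ≤ V.valuation (ι (b i - jE (e i))) * 1 := mul_le_mul_right h4 _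
        _ < 1 := by rwa [mul_one]
    have h2 : ∑ i ∈ Finset.range n, algebraMap E Ω (e i) * c ^ i = 0 := by
      rw [ValuationSubring.mem_nonunits_iff_or] at h1
      rcases h1 with h1 | h1
      · exact (map_eq_zero lam).1 h1
      · rw [← map_inv₀] at h1
        exact absurd (hint _) h1
    obtain ⟨q, hq⟩ : ∃ q : E[X], q = ∑ i ∈ Finset.range n, C (e i) * X ^ i := ⟨_, rfl⟩
    have hqc : ∀ m, q.coeff m = if m ∈ Finset.range n then e m else 0 := by
      intro m
      rw [hq, finsetSum_coeff]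
      simp only [coeff_C_mul_X_pow]
      rw [Finset.sum_ite_eq]
    have hq0 : aeval c q = 0 := by
      rw [hq, map_sum, ← h2]
      refine Finset.sum_congr rfl fun i _ => ?_
      rw [map_mul, aeval_C, map_pow, aeval_X]
    have hqd : q.degree < n := by
      rw [degree_lt_iff_coeff_zero]
      intro m hm
      rw [hqc, if_neg (by rw [Finset.mem_range]; exact not_lt.2 hm)]
    have hqz : q = 0 := by
      by_contra hne
      have h3 := minpoly.degree_le_of_ne_zero E c hne hq0
      rw [degree_eq_natDegree (minpoly.ne_zero (Algebra.IsIntegral.isIntegral (R := E) c)), ← hn]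
        at h3
      exact absurd hqd (not_lt.2 h3)
    have hi₀ : i₀ ∈ Finset.range n := by
      rw [Finset.mem_range]
      exact lt_of_le_of_lt (le_natDegree_of_ne_zero h0) hB
    have h3 := hqc i₀
    rw [hqz, coeff_zero, if_pos hi₀] at h3
    have h4 := he i₀
    rw [← h3, map_zero, sub_zero, hb, div_self h0, ValuationSubring.mem_nonunits_iff, map_one] at h4
    exact lt_irrefl _ h4
  have hyv : V.valuation y = 1 := by
    apply le_antisymm ((V.valuation_le_one_iff _).2 hyV)
    rw [ValuationSubring.mem_nonunits_iff] at hy1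
    exact not_lt.1 hy1
  rw [hx, hV, ← V.valuation_le_one_iff, ← V.valuation_le_one_iff, map_mul, hyv, mul_one]

end Pool.Agent.Helper58.BQ
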