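import Mathlib
import Pool.Agent.Helper58.BQ.Dec
import Pool.Agent.Helper58.BQ.Asm

set_option autoImplicit false

/-! Sections of Galois groups over a local field. -/

namespace Pool.Agent.Helper58.BQ

open Polynomial Pool.Agent.Helper58.BP
open scoped Pointwise

/-- uniqueness of the prolongation -/
lemma prolong {E Ω M N : Type} [Field E] [Field Ω] [Algebra E Ω] [IsGalois E Ω] [IsAlgClosed Ω]
    [Field M] [Field N] (ι : M →+* N) (lam : Ω →+* N) (jE : E →+* M)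
    (hj : ∀ e, ι (jE e) = lam (algebraMap E Ω e)) {O : ValuationSubring M}
    (hres : ∀ a ∈ O, ∃ e : E, a - jE e ∈ O.nonunits) (hE : ∀ e, jE e ∈ O)
    (s : (Ω ≃ₐ[E] Ω) →* (N ≃+* N)) (hs : ∀ σ c, s σ (lam c) = lam (σ c))
    (hM : ∀ x : N, (∀ σ, s σ x = x) → ∃ y : M, ι y = x)
    (hopen : ∀ x : N, ∃ c : Ω, ∀ σ : Ω ≃ₐ[E] Ω, σ c = c → s σ x = x)
    {V V' : ValuationSubring N} (hV : ∀ a : M, a ∈ O ↔ ι a ∈ V)
    (hV' : ∀ a : M, a ∈ O ↔ ι a ∈ V') : V = V' := by
  classical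
  ext x
  by_cases hx : x = 0
  · rw [hx]
    exact ⟨fun _ => zero_mem _, fun _ => zero_mem _⟩
  obtain ⟨c, hc⟩ := hopen x
  obtain ⟨A, hA1, hA2, hA3⟩ := rep lam s hs x c hc
  obtain ⟨B, hB⟩ : ∃ B : M[X], B.map ι = A := by
    rw [← mem_lifts, lifts_iff_coeff_lifts]
    intro i
    obtain ⟨y, hy⟩ := hM (A.coeff i) fun σ => hA2 σ i
    exact ⟨y, hy⟩
  have hB0 : B ≠ 0 := by
    rintro rfl
    rw [Polynomial.map_zero] at hB
    apply hx
    rw [← hA3, ← hB, eval_zero]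
  obtain ⟨i₀, hi₀, hmax⟩ := Finset.exists_max_image B.support (fun i => O.valuation (B.coeff i))
    (nonempty_support_iff.2 hB0)
  have h0 : B.coeff i₀ ≠ 0 := mem_support_iff.1 hi₀
  have hmax' : ∀ i, B.coeff i / B.coeff i₀ ∈ O := by
    intro i
    rw [← O.valuation_le_one_iff, map_div₀]
    by_cases hi : B.coeff i = 0
    · rw [hi, map_zero, zero_div]
      exact zero_le_one
    · exact div_le_one_of_le₀ (hmax i (mem_support_iff.2 hi)) zero_le
  have hdeg : B.natDegree < (minpoly E c).natDegree := by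
    rw [← natDegree_map (f := ι), hB]
    exact hA1
  have h1 := crit ι lam jE hj hres hE hV hdeg h0 hmax'
  have h2 := crit ι lam jE hj hres hE hV' hdeg h0 hmax'
  rw [hB, hA3] at h1 h2
  rw [h1, h2]

/-- existence of the prolongation -/
lemma exists_prolong {M N : Type} [Field M] [Field N] (ι : M →+* N) (O : ValuationSubring M) :
    ∃ V : ValuationSubring N, ∀ a : M, a ∈ O ↔ ι a ∈ V := by
  obtain ⟨V, h, hloc⟩ := IsLocalRing.exists_factor_valuationRing (ι.comp O.subtype)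
  refine ⟨V, fun a => ⟨fun ha => h ⟨a, ha⟩, fun ha => ?_⟩⟩
  by_contra hO
  have h1 : a⁻¹ ∈ O := (O.mem_or_inv_mem a).resolve_left hO
  have ha0 : a ≠ 0 := by
    rintro rfl
    exact hO (zero_mem _)
  have h2 : IsUnit (((ι.comp O.subtype).codRestrict V.toSubring h) ⟨a⁻¹, h1⟩) := by
    refine isUnit_iff_exists_inv.2 ⟨⟨ι a, ha⟩, Subtype.ext ?_⟩
    change ι a⁻¹ * ι a = 1
    rw [← map_mul, inv_mul_cancel₀ ha0, map_one]
  have h3 := hloc.map_nonunit _ h2
  obtain ⟨y, hy⟩ := isUnit_iff_exists_inv.1 h3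
  have h4 : a⁻¹ * (y : M) = 1 := congrArg Subtype.val hy
  apply hO
  have h5 : (y : M) = a := by
    rw [inv_mul_eq_one₀ ha0] at h4
    exact h4.symm
  rw [← h5]
  exact y.2

end Pool.Agent.Helper58.BQ
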