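import Mathlib
import Pool.Agent.Helper58.BQ.Dsec

set_option autoImplicit false

/-! Sections of Galois groups over a local field: the decomposition groups. -/

namespace Pool.Agent.Helper58.BQ

open Polynomial Pool.Agent.Helper58.BP
open scoped Pointwise

/-- the stabilizers of the elements of the big field -/
lemma hopen_of {k Ω K N L : Type} [Field k] [Field Ω] [Algebra k Ω] [IsGalois k Ω] [Field K]
    [Field N] [Field L] [Algebra K N] [Algebra N L] [Algebra K L] [IsScalarTower K N L]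
    [Algebra.IsAlgebraic K N] (s : (Ω ≃ₐ[k] Ω) →* (N ≃ₐ[K] N)) {ρ : (Ω ≃ₐ[k] Ω) →* (L ≃ₐ[K] L)}
    (hρ : Continuous ρ) (hρs : ∀ σ x, ρ σ (algebraMap N L x) = algebraMap N L (s σ x)) (x : N) :
    ∃ c : Ω, ∀ σ : Ω ≃ₐ[k] Ω, σ c = c → s σ x = x := by
  have hfin : FiniteDimensional K (IntermediateField.adjoin K {algebraMap N L x}) := by
    apply IntermediateField.adjoin.finiteDimensional
    exact (Algebra.IsIntegral.isIntegral (R := K) x).algebraMap
  have h1 : ρ ⁻¹' ((IntermediateField.adjoin K {algebraMap N L x}).fixingSubgroup :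
      Set (L ≃ₐ[K] L)) ∈ nhds (1 : Ω ≃ₐ[k] Ω) := by
    apply ((IntermediateField.adjoin K {algebraMap N L x}).fixingSubgroup_isOpen.preimage
      hρ).mem_nhds
    rw [Set.mem_preimage, map_one]
    exact Subgroup.one_mem _
  rw [krullTopology_mem_nhds_one_iff] at h1
  obtain ⟨M, hM, hMU⟩ := h1
  have hsep : Algebra.IsSeparable k M := Algebra.isSeparable_tower_bot_of_isSeparable k M Ω
  obtain ⟨c, hc⟩ := Field.exists_primitive_element k M
  refine ⟨(c : Ω), fun σ hσ => ?_⟩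
  have h2 : σ ∈ M.fixingSubgroup := by
    rw [IntermediateField.mem_fixingSubgroup_iff]
    intro y hy
    have h3 : (⟨y, hy⟩ : M) ∈ IntermediateField.adjoin k {c} := by
      rw [hc]
      exact IntermediateField.mem_top
    refine IntermediateField.adjoin_induction k (p := fun (z : M) _ => σ (z : Ω) = z)
      ?_ ?_ ?_ ?_ ?_ h3
    · intro z hz
      rw [Set.mem_singleton_iff.1 hz]
      exact hσ
    · intro z
      exact AlgEquiv.commutes σ z
    · intro z z' _ _ h4 h5
      change σ ((z : Ω) + z') = z + z'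
      rw [map_add, h4, h5]
    · intro z _ h4
      change σ ((z : Ω)⁻¹) = (z : Ω)⁻¹
      rw [map_inv₀, h4]
    · intro z z' _ _ h4 h5
      change σ ((z : Ω) * z') = z * z'
      rw [map_mul, h4, h5]
  have h3 := hMU h2
  rw [Set.mem_preimage, SetLike.mem_coe, IntermediateField.mem_fixingSubgroup_iff] at h3
  apply (algebraMap N L).injective
  rw [← hρs]
  exact h3 _ (IntermediateField.mem_adjoin_simple_self K _)

/-- continuity over an algebraic extension -/
lemma cont_alg {G K M L : Type} [Group G] [TopologicalSpace G] [IsTopologicalGroup G] [Field K]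
    [Field M] [Field L] [Algebra K M] [Algebra M L] [Algebra K L] [IsScalarTower K M L]
    [Algebra.IsAlgebraic K M] {ρ : G →* (L ≃ₐ[K] L)} (hρ : Continuous ρ)
    {ρ' : G →* (L ≃ₐ[M] L)} (h : ∀ σ x, ρ' σ x = ρ σ x) : Continuous ρ' := by
  apply continuous_of_continuousAt_one
  rw [ContinuousAt, map_one]
  intro U hU
  rw [krullTopology_mem_nhds_one_iff] at hU
  obtain ⟨F, hF, hFU⟩ := hU
  obtain ⟨b, -⟩ : ∃ b : Module.Basis (Fin (Module.finrank M F)) M F, True :=
    ⟨Module.finBasis M F, trivial⟩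
  have hfin : FiniteDimensional K (IntermediateField.adjoin K (Set.range fun i => (b i : L))) := by
    apply IntermediateField.finiteDimensional_adjoin
    rintro x ⟨i, rfl⟩
    have h1 : IsIntegral M (b i : L) :=
      (Algebra.IsIntegral.isIntegral (R := M) (b i)).algebraMap
    exact isIntegral_trans (R := K) (A := M) _ h1
  have h1 : ρ ⁻¹' ((IntermediateField.adjoin K (Set.range fun i => (b i : L))).fixingSubgroup :
      Set (L ≃ₐ[K] L)) ∈ nhds (1 : G) := by
    apply ((IntermediateField.adjoin K (Set.range fun i =>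
      (b i : L))).fixingSubgroup_isOpen.preimage hρ).mem_nhds
    rw [Set.mem_preimage, map_one]
    exact Subgroup.one_mem _
  rw [Filter.mem_map]
  refine Filter.mem_of_superset h1 fun σ hσ => ?_
  apply hFU
  rw [Set.mem_preimage, SetLike.mem_coe, IntermediateField.mem_fixingSubgroup_iff] at hσ
  rw [SetLike.mem_coe, IntermediateField.mem_fixingSubgroup_iff]
  intro x hx
  have h3 := b.sum_repr ⟨x, hx⟩
  have h4 : x = ∑ i, algebraMap M L (b.repr ⟨x, hx⟩ i) * (b i : L) := by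
    have := congrArg (algebraMap F L) h3
    rw [map_sum] at this
    change _ = x at this
    refine this.symm.trans (Finset.sum_congr rfl fun i _ => ?_)
    rw [Algebra.smul_def, map_mul, ← IsScalarTower.algebraMap_apply]
    rfl
  rw [h4, map_sum]
  refine Finset.sum_congr rfl fun i _ => ?_
  rw [map_mul, AlgEquiv.commutes]
  congr 1
  rw [h]
  exact hσ _ (IntermediateField.subset_adjoin K _ ⟨i, rfl⟩)

theorem dsec_aux {p : ℕ} (hp : p.Prime) {k : Type} [NontriviallyNormedField k]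
    [IsUltrametricDist k] [LocallyCompactSpace k] (hpk : ‖(p : k)‖ < 1) {Ω : Type} [Field Ω]
    [Algebra k Ω] [IsAlgClosed Ω] [IsGalois k Ω] {K M N L : Type} [Field K] [Field M] [Field N]
    [Field L] [Algebra k K] [Algebra K M] [Algebra M N] [Algebra K N] [Algebra N L] [Algebra M L]
    [Algebra K L] [IsScalarTower K M N] [IsScalarTower M N L] [IsScalarTower K N L]
    [IsScalarTower K M L] [Algebra.IsAlgebraic K M] [Algebra.IsAlgebraic K N]
    (lam : Ω →+* N) (hlam : ∀ c : k, lam (algebraMap k Ω c) = algebraMap K N (algebraMap k K c))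
    {ζ : Ω} (hζ : IsPrimitiveRoot ζ p)
    (hL : ∀ f : N, ∃ r : L, r ^ p = algebraMap N L f)
    (hL1 : ∀ r : L, (∃ f : N, r ^ p = algebraMap N L f) →
      ∃ w : L, w ^ p = ∏ j ∈ Finset.range p, (1 - algebraMap N L (lam ζ) ^ j * r) ^ j)
    (s : (Ω ≃ₐ[k] Ω) →* (N ≃ₐ[K] N)) (hs : ∀ σ c, s σ (lam c) = lam (σ c))
    (ρ : (Ω ≃ₐ[k] Ω) →* (L ≃ₐ[K] L)) (hρ : Continuous ρ)
    (hρs : ∀ σ x, ρ σ (algebraMap N L x) = algebraMap N L (s σ x))
    (hM : ∀ x : N, (∀ σ, s σ x = x) ↔ ∃ y : M, algebraMap M N y = x) :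
    ∃ V : ValuationSubring N, (∀ σ, s σ • V = V) ∧ (∀ c, lam c ∈ V) ∧
      ∀ x : K, algebraMap K N x ∈ V →
        ∃ c : k, algebraMap K N (x - algebraMap k K c) ∈ V.nonunits := by
  classical
  have _ : NeZero p := ⟨hp.ne_zero⟩
  -- the group acts trivially on `M`
  have hMf : ∀ (y : M) σ, s σ (algebraMap M N y) = algebraMap M N y := fun y => (hM _).2 ⟨y, rfl⟩
  have hρM : ∀ σ (y : M), ρ σ (algebraMap M L y) = algebraMap M L y := by
    intro σ y
    rw [IsScalarTower.algebraMap_apply M N L, hρs, hMf]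
  obtain ⟨ρ', hρ'⟩ : ∃ ρ' : (Ω ≃ₐ[k] Ω) →* (L ≃ₐ[M] L), ∀ σ x, ρ' σ x = ρ σ x := by
    refine ⟨MonoidHom.mk' (fun σ => AlgEquiv.ofRingEquiv (f := (ρ σ).toRingEquiv) (hρM σ)) ?_,
      fun _ _ => rfl⟩
    intro σ τ
    ext x
    change ρ (σ * τ) x = ρ σ (ρ τ x)
    rw [map_mul, AlgEquiv.mul_apply]
  have hρ'c : Continuous ρ' := cont_alg hρ hρ'
  -- the constants
  have hintζ : IsIntegral k ζ := Algebra.IsIntegral.isIntegral ζ
  obtain ⟨ζ', hζ'⟩ : ∃ ζ' : IntermediateField.adjoin k {ζ},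
      ζ' = IntermediateField.AdjoinSimple.gen k ζ := ⟨_, rfl⟩
  have hζ'v : algebraMap (IntermediateField.adjoin k {ζ}) Ω ζ' = ζ := by rw [hζ']; rfl
  have hk' : IntermediateField.adjoin k {ζ'} = ⊤ := by
    have h1 := (IntermediateField.adjoin.powerBasis hintζ).adjoin_gen_eq_top
    rw [IntermediateField.adjoin.powerBasis_gen, ← hζ'] at h1
    exact IntermediateField.adjoin_eq_top_of_algebra _ _ h1
  have hζp : IsPrimitiveRoot ζ' p := by
    apply IsPrimitiveRoot.of_map_of_injective (f := algebraMap (IntermediateField.adjoin k {ζ}) Ω)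
    · rw [hζ'v]
      exact hζ
    · exact (algebraMap (IntermediateField.adjoin k {ζ}) Ω).injective
  obtain ⟨jM, hjM⟩ : ∃ jM : k →+* M, ∀ c, jM c = algebraMap K M (algebraMap k K c) :=
    ⟨(algebraMap K M).comp (algebraMap k K), fun _ => rfl⟩
  obtain ⟨lam', hlam'⟩ : ∃ lam' : IntermediateField.adjoin k {ζ} →+* L, ∀ c,
      lam' c = algebraMap N L (lam (algebraMap _ Ω c)) :=
    ⟨(algebraMap N L).comp (lam.comp (algebraMap _ Ω)), fun _ => rfl⟩
  have hjL : ∀ c : k, algebraMap M N (jM c) = lam (algebraMap k Ω c) := by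
    intro c
    rw [hjM, ← IsScalarTower.algebraMap_apply, hlam]
  have hlamj : ∀ c : k, lam' (algebraMap k _ c) = algebraMap M L (jM c) := by
    intro c
    rw [hlam', IsScalarTower.algebraMap_apply M N L, hjL]
    rfl
  have hlamζ : lam' ζ' = algebraMap N L (lam ζ) := by rw [hlam', hζ'v]
  -- the elements of the adjoined field are in `N`
  have hN : ∀ f ∈ IntermediateField.adjoin M {lam' ζ'}, ∃ g : N, f = algebraMap N L g := by
    intro f hf
    refine IntermediateField.adjoin_induction M (p := fun f _ => ∃ g : N, f = algebraMap N L g)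
      ?_ ?_ ?_ ?_ ?_ hf
    · intro z hz
      exact ⟨lam ζ, by rw [Set.mem_singleton_iff.1 hz, hlamζ]⟩
    · intro z
      exact ⟨algebraMap M N z, by rw [← IsScalarTower.algebraMap_apply]⟩
    · rintro _ _ _ _ ⟨g, rfl⟩ ⟨g', rfl⟩
      exact ⟨g + g', (map_add _ _ _).symm⟩
    · rintro _ _ ⟨g, rfl⟩
      exact ⟨g⁻¹, (map_inv₀ _ _).symm⟩
    · rintro _ _ _ _ ⟨g, rfl⟩ ⟨g', rfl⟩
      exact ⟨g * g', (map_mul _ _ _).symm⟩
  obtain ⟨P, -, -⟩ := asm hp hpk (Ω := Ω) (RingHom.id k) Function.surjective_id.denseRange jM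
    (L := L) (k' := IntermediateField.adjoin k {ζ}) (ζ := ζ') hζp hk'
    (algebraMap (IntermediateField.adjoin k {ζ}) Ω) (fun _ => rfl) lam' hlamj (by
      intro f hf
      obtain ⟨g, rfl⟩ := hN f hf
      exact hL g) (by
      intro r hr
      obtain ⟨g, hg⟩ := hN _ hr
      rw [hlamζ]
      exact hL1 r ⟨g, hg⟩) ρ' hρ'c (by
      intro σ
      rw [hζ'v, hlamζ, hρ', hρs, hs]
      obtain ⟨m, -, hm⟩ := hζ.eq_pow_of_pow_eq_one (ξ := σ ζ) (by
        rw [← map_pow, hζ.pow_eq_one, map_one])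
      exact ⟨m, hm.symm, by rw [← hm, map_pow, map_pow]⟩) (by
      intro c hc
      obtain ⟨c₀, hc₀⟩ := IsAlgClosed.exists_pow_nat_eq (algebraMap _ Ω c) hp.pos
      refine ⟨algebraMap N L (lam c₀), c₀, ?_, hc₀, fun σ hσ => ?_⟩
      · rw [hlam', ← hc₀, map_pow, map_pow]
      · rw [hζ'v] at hσ ⊢
        have h1 : σ (algebraMap _ Ω c) = algebraMap _ Ω c := by
          refine fix_adjoin (S := {ζ}) ?_ c.2
          intro y hy
          rw [Set.mem_singleton_iff.1 hy, hσ]
        have hc0 : c₀ ≠ 0 := by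
          rintro rfl
          rw [zero_pow hp.ne_zero, eq_comm, map_eq_zero] at hc₀
          exact hc hc₀
        obtain ⟨n, -, hn⟩ := hζ.eq_pow_of_pow_eq_one (ξ := σ c₀ / c₀) (by
          rw [div_pow, ← map_pow, hc₀, h1, div_self]
          rw [← hc₀]
          exact pow_ne_zero _ hc0)
        have h2 : σ c₀ = ζ ^ n * c₀ := by
          rw [hn, div_mul_cancel₀ _ hc0]
        refine ⟨n, ?_, h2⟩
        rw [hρ', hρs, hs, h2, hlamζ, map_mul, map_mul, map_pow, map_pow])
  -- the place of `M`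
  have hconst : ∀ e : k, jM e ∈ P.ring := fun e => (P.const e).1
  have hres : ∀ a ∈ P.ring, ∃ e : k, a - jM e ∈ P.ring.nonunits := by
    intro a ha
    obtain ⟨e, he⟩ : ∃ e, e = P.hom ⟨a, ha⟩ := ⟨_, rfl⟩
    obtain ⟨h1, h2⟩ := P.const e
    refine ⟨e, ?_⟩
    rw [ValuationSubring.mem_nonunits_iff_or]
    by_contra hcon
    push Not at hcon
    have h3 : a - jM e ∈ P.ring := sub_mem ha h1
    have h4 : P.hom ⟨a - jM e, h3⟩ = 0 := by
      have h5 : (⟨a - jM e, h3⟩ : P.ring) = ⟨a, ha⟩ - ⟨jM e, h1⟩ := rfl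
      rw [h5, map_sub, h2, ← he]
      exact sub_self _
    have h6 : (⟨a - jM e, h3⟩ : P.ring) * ⟨(a - jM e)⁻¹, hcon.2⟩ = 1 :=
      Subtype.ext (mul_inv_cancel₀ hcon.1)
    have h7 := congrArg P.hom h6
    rw [map_mul, h4, zero_mul, map_one] at h7
    exact zero_ne_one h7
  obtain ⟨V, hV⟩ := exists_prolong (algebraMap M N) P.ring
  obtain ⟨s', hs'⟩ : ∃ s' : (Ω ≃ₐ[k] Ω) →* (N ≃+* N), ∀ σ x, s' σ x = s σ x := by
    refine ⟨MonoidHom.mk' (fun σ => (s σ).toRingEquiv) ?_, fun _ _ => rfl⟩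
    intro σ τ
    ext x
    change s (σ * τ) x = s σ (s τ x)
    rw [map_mul, AlgEquiv.mul_apply]
  have huniq : ∀ {V V' : ValuationSubring N}, (∀ a : M, a ∈ P.ring ↔ algebraMap M N a ∈ V) →
      (∀ a : M, a ∈ P.ring ↔ algebraMap M N a ∈ V') → V = V' := by
    intro V V' h1 h2
    refine prolong (algebraMap M N) lam jM hjL hres hconst s' ?_ ?_ ?_ h1 h2
    · intro σ c
      rw [hs', hs]
    · intro x hx
      apply (hM x).1
      intro σ
      rw [← hs', hx]
    · intro x
      obtain ⟨c, hc⟩ := hopen_of s hρ hρs x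
      exact ⟨c, fun σ h => by rw [hs', hc σ h]⟩
  refine ⟨V, fun σ => ?_, fun c => ?_, fun x hx => ?_⟩
  · refine huniq (fun a => ?_) hV
    rw [hV, ValuationSubring.mem_pointwise_smul_iff_inv_smul_mem]
    have h1 : (s σ)⁻¹ • algebraMap M N a = algebraMap M N a := by
      rw [← map_inv]
      exact hMf a σ⁻¹
    rw [h1]
  · obtain ⟨q, hq, hqx⟩ := Algebra.IsIntegral.isIntegral (R := k) c
    have hjV : ∀ e : k, lam (algebraMap k Ω e) ∈ V := fun e => by
      rw [← hjL, ← hV]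
      exact hconst e
    have h1 : IsIntegral V (lam c) := by
      refine ⟨q.map ((lam.comp (algebraMap k Ω)).codRestrict V.toSubring hjV), hq.map _, ?_⟩
      rw [eval₂_map]
      have h2 := congrArg lam hqx
      rw [hom_eval₂, map_zero] at h2
      exact h2
    obtain ⟨y, hy⟩ := IsIntegrallyClosed.isIntegral_iff.1 h1
    rw [← hy]
    exact y.2
  · rw [IsScalarTower.algebraMap_apply K M N, ← hV] at hx
    obtain ⟨e, he⟩ := hres _ hx
    refine ⟨e, ?_⟩
    rw [ValuationSubring.mem_nonunits_iff_or] at he ⊢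
    rw [map_eq_zero]
    rw [hjM, ← map_sub, map_eq_zero] at he
    rcases he with he | he
    · exact Or.inl he
    · right
      rw [IsScalarTower.algebraMap_apply K M N, ← map_inv₀, ← hV]
      exact he

theorem dsec {p : ℕ} (hp : p.Prime) {k : Type} [NontriviallyNormedField k]
    [IsUltrametricDist k] [LocallyCompactSpace k] (hpk : ‖(p : k)‖ < 1) {Ω : Type} [Field Ω]
    [Algebra k Ω] [IsAlgClosed Ω] [IsGalois k Ω] {K N L : Type} [Field K] [Field N]
    [Field L] [Algebra k K] [Algebra K N] [Algebra N L] [Algebra K L] [IsScalarTower K N L]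
    [Algebra.IsAlgebraic K N]
    (lam : Ω →+* N) (hlam : ∀ c : k, lam (algebraMap k Ω c) = algebraMap K N (algebraMap k K c))
    {ζ : Ω} (hζ : IsPrimitiveRoot ζ p)
    (hL : ∀ f : N, ∃ r : L, r ^ p = algebraMap N L f)
    (hL1 : ∀ r : L, (∃ f : N, r ^ p = algebraMap N L f) →
      ∃ w : L, w ^ p = ∏ j ∈ Finset.range p, (1 - algebraMap N L (lam ζ) ^ j * r) ^ j)
    (s : (Ω ≃ₐ[k] Ω) →* (N ≃ₐ[K] N)) (hs : ∀ σ c, s σ (lam c) = lam (σ c))
    (ρ : (Ω ≃ₐ[k] Ω) →* (L ≃ₐ[K] L)) (hρ : Continuous ρ)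
    (hρs : ∀ σ x, ρ σ (algebraMap N L x) = algebraMap N L (s σ x)) :
    ∃ V : ValuationSubring N, (∀ σ, s σ • V = V) ∧ (∀ c, lam c ∈ V) ∧
      ∀ x : K, algebraMap K N x ∈ V →
        ∃ c : k, algebraMap K N (x - algebraMap k K c) ∈ V.nonunits := by
  obtain ⟨M, hM⟩ : ∃ M : IntermediateField K N, M = IntermediateField.fixedField s.range :=
    ⟨_, rfl⟩
  have hML : IsScalarTower K M L := by
    refine IsScalarTower.of_algebraMap_eq fun x => ?_
    rw [IsScalarTower.algebraMap_apply K N L, IsScalarTower.algebraMap_apply M N L,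
      ← IsScalarTower.algebraMap_apply K M N]
  refine dsec_aux (M := M) hp hpk lam hlam hζ hL hL1 s hs ρ hρ hρs fun x => ?_
  have h1 : x ∈ M ↔ ∀ σ, s σ x = x := by
    rw [hM, IntermediateField.mem_fixedField_iff]
    constructor
    · intro h σ
      exact h _ ⟨σ, rfl⟩
    · rintro h _ ⟨σ, rfl⟩
      exact h σ
  rw [← h1]
  constructor
  · intro h
    exact ⟨⟨x, h⟩, rfl⟩
  · rintro ⟨y, rfl⟩
    exact y.2

end Pool.Agent.Helper58.BQ
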