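import Mathlib
import Pool.Agent.Helper58.BQ.Dec

set_option autoImplicit false

/-! Krasner's lemma and the algebraic closure of a dense subfield. -/

namespace Pool.Agent.Helper58.BQ

open Polynomial

/-- roots of the polynomials with coefficients in an algebraically closed field -/
lemma root_mem {kb Ω : Type} [Field kb] [IsAlgClosed kb] [Field Ω] (mu : kb →+* Ω) {h : kb[X]}
    (hh : h ≠ 0) {b : Ω} (hb : (h.map mu).eval b = 0) : ∃ c, mu c = b := by
  have h1 : b ∈ (h.map mu).roots := by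
    rw [mem_roots ((Polynomial.map_ne_zero_iff mu.injective).2 hh)]
    exact hb
  rw [Splits.roots_map (IsAlgClosed.splits h) mu, Multiset.mem_map] at h1
  obtain ⟨c, -, hc⟩ := h1
  exact ⟨c, hc⟩

lemma kras {E Ω k kb : Type} [NontriviallyNormedField E] [IsUltrametricDist E] [CompleteSpace E]
    [Field Ω] [Algebra E Ω] [IsAlgClosed Ω] [IsGalois E Ω] [Field k] [Field kb] [Algebra k kb]
    [IsAlgClosed kb] {i : k →+* E} (hi : DenseRange i) {mu : kb →+* Ω}
    (hmu : ∀ c : k, mu (algebraMap k kb c) = algebraMap E Ω (i c)) (a : Ω) :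
    ∃ c : kb, ∀ σ : Ω ≃ₐ[E] Ω, σ (mu c) = mu c → σ a = a := by
  classical
  letI : NormedField Ω := spectralNorm.normedField E Ω
  letI : NormedAlgebra E Ω := spectralNorm.normedAlgebra E Ω
  letI : Algebra k E := i.toAlgebra
  have hint : IsIntegral E a := Algebra.IsIntegral.isIntegral a
  have hsep : (minpoly E a).Separable := IsGalois.separable E a
  have hmon := minpoly.monic hint
  -- the distance to the conjugates
  obtain ⟨δ, hδ, hδa⟩ : ∃ δ : ℝ, 0 < δ ∧ ∀ a' : Ω, IsConjRoot E a a' → a ≠ a' → δ ≤ ‖a - a'‖ := by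
    obtain ⟨S, hS⟩ : ∃ S : Finset Ω, S = ((minpoly E a).aroots Ω).toFinset.erase a := ⟨_, rfl⟩
    have hmem : ∀ a' : Ω, IsConjRoot E a a' → a ≠ a' → a' ∈ S := by
      intro a' h1 h2
      rw [hS, Finset.mem_erase, Multiset.mem_toFinset, ← isConjRoot_iff_mem_minpoly_aroots hint]
      exact ⟨h2.symm, h1⟩
    have hne : ∀ a' ∈ S, a' ≠ a := by
      intro a' ha'
      rw [hS] at ha'
      exact Finset.ne_of_mem_erase ha'
    by_cases hSe : S.Nonempty
    · obtain ⟨b, hb, hmin⟩ := Finset.exists_min_image S (fun a' => ‖a - a'‖) hSe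
      refine ⟨‖a - b‖, ?_, fun a' h1 h2 => hmin a' (hmem a' h1 h2)⟩
      rw [norm_pos_iff, sub_ne_zero]
      exact (hne b hb).symm
    · refine ⟨1, one_pos, fun a' h1 h2 => absurd ⟨a', hmem a' h1 h2⟩ hSe⟩
  have hn0 : (minpoly E a).natDegree ≠ 0 := (minpoly.natDegree_pos hint).ne'
  have hm : (0 : ℝ) < max ‖a‖ 1 := lt_max_of_lt_right one_pos
  have hε : (δ / (max ‖a‖ 1)) ^ (minpoly E a).natDegree / ((minpoly E a).natDegree + 1) > 0 := by
    positivity
  obtain ⟨g, gmon, gdeg, gcoeff⟩ :=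
    exists_monic_and_natDegree_eq_and_norm_map_algebraMap_coeff_sub_lt (K := k) hi hmon hε
  obtain ⟨b, hb, hab⟩ := exists_aroots_norm_sub_lt_of_norm_coeff_sub_lt (L := Ω)
      hε (minpoly.aeval E a) hmon (gmon.map (algebraMap k E)) (gdeg ▸ (g.natDegree_map _)) gcoeff
      (IsAlgClosed.splits _)
  have hab' : ‖a - b‖ < δ := by
    rw [← Real.rpow_natCast, ← mul_comm_div, div_self, one_mul,
        ← Real.rpow_mul (div_pos hδ (by positivity)).le, mul_inv_cancel₀] at hab
    · simpa [mul_assoc, div_mul_cancel₀ _ (by positivity : (max ‖a‖ 1) > 0).ne'] using hab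
    · simp [hn0]
    · positivity
  obtain ⟨c, hc⟩ : ∃ c, mu c = b := by
    have hcomp : (algebraMap E Ω).comp (algebraMap k E) = mu.comp (algebraMap k kb) :=
      RingHom.ext fun c => (hmu c).symm
    refine root_mem mu (h := g.map (algebraMap k kb)) ?_ ?_
    · exact (gmon.map _).ne_zero
    · have h1 := (mem_aroots.1 hb).2
      rw [← eval_map_algebraMap, Polynomial.map_map, hcomp, ← Polynomial.map_map] at h1
      exact h1
  refine ⟨c, fun σ hσ => ?_⟩
  have h1 : a ∈ IntermediateField.adjoin E {b} :=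
    IsKrasner.krasner hsep (IsAlgClosed.splits _) (Algebra.IsIntegral.isIntegral b)
      fun a' h1 h2 => lt_of_lt_of_le hab' (hδa a' h1 h2)
  rw [hc] at hσ
  refine IntermediateField.adjoin_induction E (p := fun y _ => σ y = y) ?_ ?_ ?_ ?_ ?_ h1
  · intro y hy
    rw [Set.mem_singleton_iff.1 hy, hσ]
  · intro y
    exact AlgEquiv.commutes _ y
  · intro x y _ _ h4 h5
    rw [map_add, h4, h5]
  · intro x _ h4
    rw [map_inv₀, h4]
  · intro x y _ _ h4 h5
    rw [map_mul, h4, h5]

end Pool.Agent.Helper58.BQ
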