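import Mathlib
import Pool.Agent.Helper58.BQ.Kras

set_option autoImplicit false

/-! Interpolation over a dense subfield. -/

namespace Pool.Agent.Helper58.BQ

open Polynomial

section

variable {E Ω kb M N : Type} [Field E] [Field Ω] [Algebra E Ω] [IsGalois E Ω] [IsAlgClosed Ω]
  [Field kb] [Field M] [Field N] {mu : kb →+* Ω} {lam : kb →+* N} {ι : M →+* N}
  {s : (Ω ≃ₐ[E] Ω) →* (N ≃+* N)}

/-- interpolation -/
lemma rep' (hs : ∀ σ (c c' : kb), mu c' = σ (mu c) → s σ (lam c) = lam c')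
    (hst : ∀ (σ : Ω ≃ₐ[E] Ω) (c : kb), ∃ c', mu c' = σ (mu c))
    (x : N) (c : kb) (hc : ∀ σ : Ω ≃ₐ[E] Ω, σ (mu c) = mu c → s σ x = x) :
    ∃ A : N[X], A.natDegree < (minpoly E (mu c)).natDegree ∧
      (∀ σ i, s σ (A.coeff i) = A.coeff i) ∧ A.eval (lam c) = x := by
  classical
  have hint : IsIntegral E (mu c) := Algebra.IsIntegral.isIntegral (mu c)
  obtain ⟨S, hS⟩ : ∃ S : Finset Ω, S = ((minpoly E (mu c)).aroots Ω).toFinset := ⟨_, rfl⟩
  have hmem : ∀ β, β ∈ S ↔ ∃ σ : Ω ≃ₐ[E] Ω, σ (mu c) = β := by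
    intro β
    rw [hS, Multiset.mem_toFinset, ← isConjRoot_iff_mem_minpoly_aroots hint,
      isConjRoot_iff_exists_algEquiv]
    constructor
    · rintro ⟨σ, h⟩
      exact ⟨σ⁻¹, by rw [← h, ← AlgEquiv.mul_apply, inv_mul_cancel, AlgEquiv.one_apply]⟩
    · rintro ⟨σ, h⟩
      exact ⟨σ⁻¹, by rw [← h, ← AlgEquiv.mul_apply, inv_mul_cancel, AlgEquiv.one_apply]⟩
  have hcard : S.card = (minpoly E (mu c)).natDegree := by
    have hsep : (minpoly E (mu c)).Separable := IsGalois.separable E (mu c)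
    have hspl : ((minpoly E (mu c)).map (algebraMap E Ω)).Splits := IsAlgClosed.splits _
    rw [hS]
    unfold Polynomial.aroots
    rw [Multiset.toFinset_card_of_nodup (nodup_roots hsep.map), ← hspl.natDegree_eq_card_roots,
      natDegree_map]
  have hg' : ∀ β, ∃ (σ : Ω ≃ₐ[E] Ω) (γ : kb), β ∈ S → σ (mu c) = β ∧ mu γ = β := by
    intro β
    by_cases hβ : β ∈ S
    · obtain ⟨σ, h⟩ := (hmem β).1 hβ
      obtain ⟨γ, hγ⟩ := hst σ c
      exact ⟨σ, γ, fun _ => ⟨h, by rw [hγ, h]⟩⟩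
    · exact ⟨1, 0, fun h => absurd h hβ⟩
  choose g γ hg using hg'
  have hinj : Set.InjOn (fun β => lam (γ β)) (S : Set Ω) := by
    intro β hβ β' hβ' h
    have h1 : γ β = γ β' := lam.injective h
    rw [← (hg β hβ).2, ← (hg β' hβ').2, h1]
  obtain ⟨A, hA⟩ : ∃ A : N[X], A = Lagrange.interpolate S (fun β => lam (γ β))
    fun β => s (g β) x := ⟨_, rfl⟩
  have hdeg : A.degree < S.card := by
    rw [hA]
    exact Lagrange.degree_interpolate_lt _ hinj
  have hev : ∀ β ∈ S, A.eval (lam (γ β)) = s (g β) x := by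
    intro β hβ
    rw [hA]
    exact Lagrange.eval_interpolate_at_node (fun β => s (g β) x) hinj hβ
  refine ⟨A, ?_, ?_, ?_⟩
  · rw [← hcard]
    by_cases h0 : A = 0
    · rw [h0, natDegree_zero, hcard]
      exact minpoly.natDegree_pos hint
    · exact (natDegree_lt_iff_degree_lt h0).2 hdeg
  · intro τ i
    have h1 : A.map ((s τ : N ≃+* N) : N →+* N) = A := by
      refine Polynomial.eq_of_degrees_lt_of_eval_index_eq S hinj ?_ hdeg ?_
      · rw [degree_map]
        exact hdeg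
      · intro β hβ
        obtain ⟨σ, hσ⟩ := (hmem β).1 hβ
        have h2 : τ⁻¹ β ∈ S := (hmem _).2 ⟨τ⁻¹ * σ, by rw [AlgEquiv.mul_apply, hσ]⟩
        have h3 : lam (γ β) = ((s τ : N ≃+* N) : N →+* N) (lam (γ (τ⁻¹ β))) := by
          change lam (γ β) = s τ (lam (γ (τ⁻¹ β)))
          refine (hs τ _ _ ?_).symm
          rw [(hg β hβ).2, (hg _ h2).2, ← AlgEquiv.mul_apply, mul_inv_cancel, AlgEquiv.one_apply]
        change eval (lam (γ β)) _ = eval (lam (γ β)) A
        rw [hev β hβ, h3, eval_map_apply, hev _ h2]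
        change s τ (s (g (τ⁻¹ β)) x) = s (g β) x
        have h4 : s ((g β)⁻¹ * (τ * g (τ⁻¹ β))) x = x := by
          apply hc
          rw [AlgEquiv.mul_apply, AlgEquiv.mul_apply, (hg _ h2).1, ← AlgEquiv.mul_apply τ,
            mul_inv_cancel, AlgEquiv.one_apply]
          have h6 : (g β)⁻¹ (g β (mu c)) = mu c := by
            rw [← AlgEquiv.mul_apply, inv_mul_cancel, AlgEquiv.one_apply]
          rw [(hg β hβ).1] at h6
          exact h6
        have h5 : s τ (s (g (τ⁻¹ β)) x) = s (g β) (s ((g β)⁻¹ * (τ * g (τ⁻¹ β))) x) := by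
          rw [← RingAut.mul_apply, ← RingAut.mul_apply, ← map_mul, ← map_mul, mul_inv_cancel_left]
        rw [h5, h4]
    have h2 := congrArg (fun q => q.coeff i) h1
    simp only [coeff_map] at h2
    exact h2
  · have h1 : mu c ∈ S := (hmem _).2 ⟨1, rfl⟩
    have h2 : γ (mu c) = c := mu.injective (hg _ h1).2
    have h3 := hev _ h1
    rw [h2] at h3
    rw [h3]
    exact hc _ (hg _ h1).1

/-- the powers of an algebraic number are linearly independent -/
lemma indep' (hs : ∀ σ (c c' : kb), mu c' = σ (mu c) → s σ (lam c) = lam c')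
    (hst : ∀ (σ : Ω ≃ₐ[E] Ω) (c : kb), ∃ c', mu c' = σ (mu c))
    (hι : ∀ σ a, s σ (ι a) = ι a) (c : kb) {B : M[X]}
    (hB : B.natDegree < (minpoly E (mu c)).natDegree) (h : (B.map ι).eval (lam c) = 0) :
    B = 0 := by
  classical
  have hint : IsIntegral E (mu c) := Algebra.IsIntegral.isIntegral (mu c)
  obtain ⟨S, hS⟩ : ∃ S : Finset Ω, S = ((minpoly E (mu c)).aroots Ω).toFinset := ⟨_, rfl⟩
  have hmem : ∀ β, β ∈ S → ∃ σ : Ω ≃ₐ[E] Ω, σ (mu c) = β := by
    intro β
    rw [hS, Multiset.mem_toFinset, ← isConjRoot_iff_mem_minpoly_aroots hint,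
      isConjRoot_iff_exists_algEquiv]
    rintro ⟨σ, h⟩
    exact ⟨σ⁻¹, by rw [← h, ← AlgEquiv.mul_apply, inv_mul_cancel, AlgEquiv.one_apply]⟩
  have hcard : S.card = (minpoly E (mu c)).natDegree := by
    have hsep : (minpoly E (mu c)).Separable := IsGalois.separable E (mu c)
    have hspl : ((minpoly E (mu c)).map (algebraMap E Ω)).Splits := IsAlgClosed.splits _
    rw [hS]
    unfold Polynomial.aroots
    rw [Multiset.toFinset_card_of_nodup (nodup_roots hsep.map), ← hspl.natDegree_eq_card_roots,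
      natDegree_map]
  have hg' : ∀ β, ∃ γ : kb, β ∈ S → mu γ = β ∧ (B.map ι).eval (lam γ) = 0 := by
    intro β
    by_cases hβ : β ∈ S
    · obtain ⟨σ, h1⟩ := hmem β hβ
      obtain ⟨γ, hγ⟩ := hst σ c
      refine ⟨γ, fun _ => ⟨by rw [hγ, h1], ?_⟩⟩
      have h2 : (B.map ι).map ((s σ : N ≃+* N) : N →+* N) = B.map ι := by
        rw [Polynomial.map_map]
        congr 1
        ext a
        exact hι σ a
      have h3 : lam γ = ((s σ : N ≃+* N) : N →+* N) (lam c) := (hs σ c γ hγ).symm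
      rw [← h2, h3, eval_map_apply, h, map_zero]
    · exact ⟨0, fun h => absurd h hβ⟩
  choose γ hγ using hg'
  have hinj : Set.InjOn (fun β => lam (γ β)) (S : Set Ω) := by
    intro β hβ β' hβ' h
    have h1 : γ β = γ β' := lam.injective h
    rw [← (hγ β hβ).1, ← (hγ β' hβ').1, h1]
  have h1 : B.map ι = 0 := by
    refine Polynomial.eq_of_degrees_lt_of_eval_index_eq S hinj ?_ ?_ ?_
    · rw [degree_map, hcard]
      by_cases h0 : B = 0
      · rw [h0, degree_zero]
        exact WithBot.bot_lt_coe _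
      · exact (natDegree_lt_iff_degree_lt h0).1 hB
    · rw [degree_zero]
      exact WithBot.bot_lt_coe _
    · intro β hβ
      rw [eval_zero]
      exact (hγ β hβ).2
  exact (Polynomial.map_eq_zero_iff ι.injective).1 h1

end

end Pool.Agent.Helper58.BQ
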