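import Mathlib
import Pool.Agent.Helper58.BQ.Gen
import Pool.Agent.Helper58.BQ.Dmain

set_option autoImplicit false

/-! The prolongation of a place to the field generated by the algebraic numbers. -/

namespace Pool.Agent.Helper58.BQ

open Polynomial Pool.Agent.Helper58.BP

/-- the graph of the prolongation -/
def Rel {R kb N Ω : Type} [CommRing R] [Field kb] [Field N] [Field Ω] (α : R →+* N) (β : R →+* Ω)
    (lam : kb →+* N) (mu : kb →+* Ω) (x : N) (y : Ω) : Prop :=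
  ∃ (c : kb) (B : R[X]), x = B.eval₂ α (lam c) ∧ y = B.eval₂ β (mu c)

section

variable {R kb k₁ N Ω : Type} [CommRing R] [Field kb] [Field k₁] [Field N] [Field Ω] {α : R →+* N}
  {β : R →+* Ω} {lam : kb →+* N} {mu : kb →+* Ω} {κ : k₁ →+* kb} {jR : k₁ →+* R}

lemma Rel_of (a : R) : Rel α β lam mu (α a) (β a) :=
  ⟨0, C a, by rw [eval₂_C], by rw [eval₂_C]⟩

lemma Rel_const (c : kb) : Rel α β lam mu (lam c) (mu c) :=
  ⟨c, X, by rw [eval₂_X], by rw [eval₂_X]⟩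

lemma Rel_common (h1 : ∀ c, α (jR c) = lam (κ c)) (h2 : ∀ c, β (jR c) = mu (κ c))
    (hprim : ∀ c₁ c₂ : kb, ∃ (c : kb) (q₁ q₂ : k₁[X]), q₁.eval₂ κ c = c₁ ∧ q₂.eval₂ κ c = c₂)
    {x x' : N} {y y' : Ω} (h : Rel α β lam mu x y) (h' : Rel α β lam mu x' y') :
    ∃ (c : kb) (B B' : R[X]), (x = B.eval₂ α (lam c) ∧ y = B.eval₂ β (mu c)) ∧
      (x' = B'.eval₂ α (lam c) ∧ y' = B'.eval₂ β (mu c)) := by
  obtain ⟨c₁, B₁, hx, hy⟩ := h
  obtain ⟨c₂, B₂, hx', hy'⟩ := h'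
  obtain ⟨c, q₁, q₂, hq₁, hq₂⟩ := hprim c₁ c₂
  have e1 : α.comp jR = lam.comp κ := RingHom.ext h1
  have e2 : β.comp jR = mu.comp κ := RingHom.ext h2
  have key1 : ∀ (q : k₁[X]), (q.map jR).eval₂ α (lam c) = lam (q.eval₂ κ c) := by
    intro q
    rw [eval₂_map, e1, hom_eval₂]
  have key2 : ∀ (q : k₁[X]), (q.map jR).eval₂ β (mu c) = mu (q.eval₂ κ c) := by
    intro q
    rw [eval₂_map, e2, hom_eval₂]
  refine ⟨c, B₁.comp (q₁.map jR), B₂.comp (q₂.map jR), ⟨?_, ?_⟩, ?_, ?_⟩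
  · rw [eval₂_comp, key1, hq₁, hx]
  · rw [eval₂_comp, key2, hq₁, hy]
  · rw [eval₂_comp, key1, hq₂, hx']
  · rw [eval₂_comp, key2, hq₂, hy']

lemma Rel_add (h1 : ∀ c, α (jR c) = lam (κ c)) (h2 : ∀ c, β (jR c) = mu (κ c))
    (hprim : ∀ c₁ c₂ : kb, ∃ (c : kb) (q₁ q₂ : k₁[X]), q₁.eval₂ κ c = c₁ ∧ q₂.eval₂ κ c = c₂)
    {x x' : N} {y y' : Ω} (h : Rel α β lam mu x y) (h' : Rel α β lam mu x' y') :
    Rel α β lam mu (x + x') (y + y') := by
  obtain ⟨c, B, B', ⟨hx, hy⟩, hx', hy'⟩ := Rel_common h1 h2 hprim h h'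
  exact ⟨c, B + B', by rw [eval₂_add, hx, hx'], by rw [eval₂_add, hy, hy']⟩

lemma Rel_mul (h1 : ∀ c, α (jR c) = lam (κ c)) (h2 : ∀ c, β (jR c) = mu (κ c))
    (hprim : ∀ c₁ c₂ : kb, ∃ (c : kb) (q₁ q₂ : k₁[X]), q₁.eval₂ κ c = c₁ ∧ q₂.eval₂ κ c = c₂)
    {x x' : N} {y y' : Ω} (h : Rel α β lam mu x y) (h' : Rel α β lam mu x' y') :
    Rel α β lam mu (x * x') (y * y') := by
  obtain ⟨c, B, B', ⟨hx, hy⟩, hx', hy'⟩ := Rel_common h1 h2 hprim h h'
  exact ⟨c, B * B', by rw [eval₂_mul, hx, hx'], by rw [eval₂_mul, hy, hy']⟩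

lemma Rel_neg {x : N} {y : Ω} (h : Rel α β lam mu x y) : Rel α β lam mu (-x) (-y) := by
  obtain ⟨c, B, hx, hy⟩ := h
  exact ⟨c, -B, by rw [eval₂_neg, hx], by rw [eval₂_neg, hy]⟩

end

section

variable {E Ω kb k₁ M N : Type} [Field E] [Field Ω] [Algebra E Ω] [IsGalois E Ω] [IsAlgClosed Ω]
  [Field kb] [Field k₁] [Field M] [Field N] {mu : kb →+* Ω} {lam : kb →+* N} {ι : M →+* N}
  {s : (Ω ≃ₐ[E] Ω) →* (N ≃+* N)} {κ : k₁ →+* kb} {j₁ : k₁ →+* M} {i₁ : k₁ →+* E}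

/-- the graph is the graph of a function -/
lemma Rel_zero (hs : ∀ σ (c c' : kb), mu c' = σ (mu c) → s σ (lam c) = lam c')
    (hst : ∀ (σ : Ω ≃ₐ[E] Ω) (c : kb), ∃ c', mu c' = σ (mu c)) (hι : ∀ σ a, s σ (ι a) = ι a)
    (P : KPlace j₁ i₁) (hj : ∀ c, ι (j₁ c) = lam (κ c))
    (hi : ∀ c, algebraMap E Ω (i₁ c) = mu (κ c))
    (hmin : ∀ c : kb, ∃ g : k₁[X], g.Monic ∧ g.map i₁ = minpoly E (mu c)) {y : Ω}
    (h : Rel (ι.comp P.ring.subtype) ((algebraMap E Ω).comp P.hom) lam mu 0 y) : y = 0 := by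
  classical
  obtain ⟨jR, hjR⟩ : ∃ jR : k₁ →+* P.ring, ∀ c, (jR c : M) = j₁ c :=
    ⟨j₁.codRestrict P.ring.toSubring fun c => (P.const c).1, fun _ => rfl⟩
  have hjR' : ∀ c, P.hom (jR c) = i₁ c := by
    intro c
    obtain ⟨h1, h2⟩ := P.const c
    rw [← h2]
    congr 1
    exact Subtype.ext (hjR c)
  have e1 : (ι.comp P.ring.subtype).comp jR = lam.comp κ := by
    ext c
    change ι (jR c : M) = lam (κ c)
    rw [hjR, hj]
  have e2 : ((algebraMap E Ω).comp P.hom).comp jR = mu.comp κ := by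
    ext c
    change algebraMap E Ω (P.hom (jR c)) = mu (κ c)
    rw [hjR', hi]
  obtain ⟨c, B, hx, hy⟩ := h
  obtain ⟨g, hg, hgm⟩ := hmin c
  have hint : IsIntegral E (mu c) := Algebra.IsIntegral.isIntegral (mu c)
  have hgc : g.eval₂ κ c = 0 := by
    apply mu.injective
    rw [hom_eval₂, map_zero, ← e2, RingHom.comp_assoc]
    have h3 : P.hom.comp jR = i₁ := RingHom.ext hjR'
    rw [h3, ← eval₂_map, hgm]
    exact minpoly.aeval E (mu c)
  have hgO : (g.map jR).Monic := hg.map _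
  have hgO1 : (g.map jR).eval₂ (ι.comp P.ring.subtype) (lam c) = 0 := by
    rw [eval₂_map, e1, ← hom_eval₂, hgc, map_zero]
  have hgO2 : (g.map jR).eval₂ ((algebraMap E Ω).comp P.hom) (mu c) = 0 := by
    rw [eval₂_map, e2, ← hom_eval₂, hgc, map_zero]
  have hgd : (g.map jR).natDegree = (minpoly E (mu c)).natDegree := by
    rw [hg.natDegree_map, ← hgm, hg.natDegree_map]
  have hn : 0 < (minpoly E (mu c)).natDegree := minpoly.natDegree_pos hint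
  have hdiv := modByMonic_add_div B (g.map jR)
  have hR1 : (B %ₘ (g.map jR)).eval₂ (ι.comp P.ring.subtype) (lam c) = 0 := by
    rw [← hdiv, eval₂_add, eval₂_mul, hgO1, zero_mul, add_zero] at hx
    exact hx.symm
  have hR : B %ₘ (g.map jR) = 0 := by
    have h1 : (B %ₘ (g.map jR)).map P.ring.subtype = 0 := by
      apply indep' hs hst hι c
      · refine lt_of_le_of_lt natDegree_map_le ?_
        rw [← hgd]
        apply natDegree_modByMonic_lt _ hgO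
        intro e
        rw [e, natDegree_one] at hgd
        rw [← hgd] at hn
        exact lt_irrefl _ hn
      · rw [Polynomial.map_map, eval_map]
        exact hR1
    exact (Polynomial.map_eq_zero_iff (f := P.ring.subtype) Subtype.val_injective).1 h1
  rw [hy, ← hdiv, eval₂_add, eval₂_mul, hgO2, zero_mul, add_zero, hR, eval₂_zero]

end

end Pool.Agent.Helper58.BQ
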