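import Mathlib
import Pool.Agent.Helper58.BQ.Rel

set_option autoImplicit false

/-! The prolongation of a place to the field generated by the algebraic numbers. -/

namespace Pool.Agent.Helper58.BQ

open Polynomial Pool.Agent.Helper58.BP

section

variable {E Ω kb k₁ M N : Type} [Field E] [Field Ω] [Algebra E Ω] [IsGalois E Ω] [IsAlgClosed Ω]
  [Field kb] [Field k₁] [Field M] [Field N] {mu : kb →+* Ω} {lam : kb →+* N} {ι : M →+* N}
  {s : (Ω ≃ₐ[E] Ω) →* (N ≃+* N)} {κ : k₁ →+* kb} {j₁ : k₁ →+* M} {i₁ : k₁ →+* E}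

/-- an element is the product of an element of the small field and of a unit -/
lemma unit_rep (hs : ∀ σ (c c' : kb), mu c' = σ (mu c) → s σ (lam c) = lam c')
    (hst : ∀ (σ : Ω ≃ₐ[E] Ω) (c : kb), ∃ c', mu c' = σ (mu c))
    (hfix : ∀ x, (∀ σ, s σ x = x) → ∃ a, ι a = x)
    (hopen : ∀ x : N, ∃ c : kb, ∀ σ : Ω ≃ₐ[E] Ω, σ (mu c) = mu c → s σ x = x)
    (P : KPlace j₁ i₁) {x : N} (hx : x ≠ 0) :
    ∃ (a : M) (y : N) (u : Ω), a ≠ 0 ∧ x = ι a * y ∧ u ≠ 0 ∧
      Rel (ι.comp P.ring.subtype) ((algebraMap E Ω).comp P.hom) lam mu y u := by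
  classical
  obtain ⟨c, hc⟩ := hopen x
  obtain ⟨A, hA1, hA2, hA3⟩ := rep' hs hst x c hc
  obtain ⟨B, hB⟩ : ∃ B : M[X], B.map ι = A := by
    rw [← mem_lifts, lifts_iff_coeff_lifts]
    intro i
    obtain ⟨y, hy⟩ := hfix (A.coeff i) fun σ => hA2 σ i
    exact ⟨y, hy⟩
  have hB0 : B ≠ 0 := by
    rintro rfl
    rw [Polynomial.map_zero] at hB
    apply hx
    rw [← hA3, ← hB, eval_zero]
  obtain ⟨i₀, hi₀, hmax⟩ := Finset.exists_max_image B.support
    (fun i => P.ring.valuation (B.coeff i)) (nonempty_support_iff.2 hB0)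
  have h0 : B.coeff i₀ ≠ 0 := mem_support_iff.1 hi₀
  have hmax' : ∀ i, (B.coeff i₀)⁻¹ * B.coeff i ∈ P.ring := by
    intro i
    rw [← div_eq_inv_mul, ← P.ring.valuation_le_one_iff, map_div₀]
    by_cases hi : B.coeff i = 0
    · rw [hi, map_zero, zero_div]
      exact zero_le_one
    · exact div_le_one_of_le₀ (hmax i (mem_support_iff.2 hi)) zero_le
  obtain ⟨D, hD⟩ : ∃ D : P.ring[X], D.map P.ring.subtype = C (B.coeff i₀)⁻¹ * B := by
    rw [← mem_lifts, lifts_iff_coeff_lifts]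
    intro i
    rw [coeff_C_mul]
    exact ⟨⟨_, hmax' i⟩, rfl⟩
  have hD0 : D.coeff i₀ = 1 := by
    apply Subtype.ext
    have h1 := congrArg (fun q => q.coeff i₀) hD
    simp only [coeff_map, coeff_C_mul] at h1
    rw [inv_mul_cancel₀ h0] at h1
    exact h1
  have hDd : D.natDegree < (minpoly E (mu c)).natDegree := by
    have h1 : D.natDegree = B.natDegree := by
      rw [← natDegree_map_eq_of_injective (f := P.ring.subtype) Subtype.val_injective, hD,
        natDegree_C_mul (inv_ne_zero h0)]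
    rw [h1, ← natDegree_map (f := ι), hB]
    exact hA1
  refine ⟨B.coeff i₀, D.eval₂ (ι.comp P.ring.subtype) (lam c),
    D.eval₂ ((algebraMap E Ω).comp P.hom) (mu c), h0, ?_, ?_, c, D, rfl, rfl⟩
  · rw [← eval_map, ← Polynomial.map_map, hD, Polynomial.map_mul, map_C, eval_mul, eval_C, hB, hA3,
      ← mul_assoc, map_inv₀, mul_inv_cancel₀ ((map_ne_zero ι).2 h0), one_mul]
  · intro e
    have h1 : aeval (mu c) (D.map P.hom) = 0 := by
      rw [aeval_def, eval₂_map]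
      exact e
    have h2 : D.map P.hom ≠ 0 := by
      intro e2
      have h3 := congrArg (fun q => q.coeff i₀) e2
      simp only [coeff_map, coeff_zero] at h3
      rw [hD0, map_one] at h3
      exact one_ne_zero h3
    have h3 := natDegree_le_natDegree (minpoly.degree_le_of_ne_zero E (mu c) h2 h1)
    exact absurd (lt_of_le_of_lt (h3.trans natDegree_map_le) hDd) (lt_irrefl _)

/-- the prolongation of the place -/
theorem place_ext (hs : ∀ σ (c c' : kb), mu c' = σ (mu c) → s σ (lam c) = lam c')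
    (hst : ∀ (σ : Ω ≃ₐ[E] Ω) (c : kb), ∃ c', mu c' = σ (mu c)) (hι : ∀ σ a, s σ (ι a) = ι a)
    (hfix : ∀ x, (∀ σ, s σ x = x) → ∃ a, ι a = x)
    (hopen : ∀ x : N, ∃ c : kb, ∀ σ : Ω ≃ₐ[E] Ω, σ (mu c) = mu c → s σ x = x)
    (P : KPlace j₁ i₁) (hj : ∀ c, ι (j₁ c) = lam (κ c))
    (hi : ∀ c, algebraMap E Ω (i₁ c) = mu (κ c))
    (hmin : ∀ c : kb, ∃ g : k₁[X], g.Monic ∧ g.map i₁ = minpoly E (mu c))
    (hprim : ∀ c₁ c₂ : kb, ∃ (c : kb) (q₁ q₂ : k₁[X]), q₁.eval₂ κ c = c₁ ∧ q₂.eval₂ κ c = c₂) :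
    ∃ Q : KPlace lam mu, (∀ σ (x : Q.ring), ∃ h : s σ x ∈ Q.ring,
      Q.hom ⟨s σ x, h⟩ = σ (Q.hom x)) ∧
      ∀ a : P.ring, ∃ h : ι a ∈ Q.ring, Q.hom ⟨ι a, h⟩ = algebraMap E Ω (P.hom a) := by
  classical
  obtain ⟨jR, hjR⟩ : ∃ jR : k₁ →+* P.ring, ∀ c, (jR c : M) = j₁ c :=
    ⟨j₁.codRestrict P.ring.toSubring fun c => (P.const c).1, fun _ => rfl⟩
  have hjR' : ∀ c, P.hom (jR c) = i₁ c := by
    intro c
    obtain ⟨h1, h2⟩ := P.const c
    rw [← h2]
    congr 1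
    exact Subtype.ext (hjR c)
  have e1 : ∀ c, (ι.comp P.ring.subtype) (jR c) = lam (κ c) := by
    intro c
    change ι (jR c : M) = lam (κ c)
    rw [hjR, hj]
  have e2 : ∀ c, ((algebraMap E Ω).comp P.hom) (jR c) = mu (κ c) := by
    intro c
    change algebraMap E Ω (P.hom (jR c)) = mu (κ c)
    rw [hjR', hi]
  obtain ⟨T, hT⟩ : ∃ T : N → Ω → Prop, T = Rel (ι.comp P.ring.subtype)
    ((algebraMap E Ω).comp P.hom) lam mu := ⟨_, rfl⟩
  have Tadd : ∀ {x x' y y'}, T x y → T x' y' → T (x + x') (y + y') := by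
    intro x x' y y' h h'
    rw [hT] at h h' ⊢
    exact Rel_add e1 e2 hprim h h'
  have Tmul : ∀ {x x' y y'}, T x y → T x' y' → T (x * x') (y * y') := by
    intro x x' y y' h h'
    rw [hT] at h h' ⊢
    exact Rel_mul e1 e2 hprim h h'
  have Tneg : ∀ {x y}, T x y → T (-x) (-y) := by
    intro x y h
    rw [hT] at h ⊢
    exact Rel_neg h
  have Tof : ∀ a : P.ring, T (ι a) (algebraMap E Ω (P.hom a)) := by
    intro a
    rw [hT]
    exact Rel_of a
  have Tconst : ∀ c : kb, T (lam c) (mu c) := by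
    intro c
    rw [hT]
    exact Rel_const c
  have Tzero : ∀ {y}, T 0 y → y = 0 := by
    intro y h
    rw [hT] at h
    exact Rel_zero hs hst hι P hj hi hmin h
  have T1 : T 1 1 := by
    have := Tconst 1
    rwa [map_one, map_one] at this
  have T0 : T 0 0 := by
    have := Tconst 0
    rwa [map_zero, map_zero] at this
  have Tfun : ∀ {x y y'}, T x y → T x y' → y = y' := by
    intro x y y' h h'
    have h1 := Tadd h (Tneg h')
    rw [add_neg_cancel] at h1
    exact sub_eq_zero.1 ((sub_eq_add_neg y y').trans (Tzero h1))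
  have Teq : ∀ σ {x y}, T x y → T (s σ x) (σ y) := by
    intro σ x y h
    rw [hT] at h ⊢
    obtain ⟨c, B, hx, hy⟩ := h
    obtain ⟨c', hc'⟩ := hst σ c
    refine ⟨c', B, ?_, ?_⟩
    · rw [hx]
      change ((s σ : N ≃+* N) : N →+* N) _ = _
      rw [hom_eval₂]
      congr 1
      · ext a
        exact hι σ a
      · exact hs σ c c' hc'
    · rw [hy]
      change ((σ : Ω ≃ₐ[E] Ω) : Ω →+* Ω) _ = _
      rw [hom_eval₂]
      congr 1
      · ext a
        exact AlgEquiv.commutes σ _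
      · exact hc'.symm
  -- units
  have hrep : ∀ x : N, x ≠ 0 → ∃ (a : M) (y z : N) (u v : Ω), a ≠ 0 ∧ x = ι a * y ∧ y * z = 1 ∧
      T y u ∧ T z v := by
    intro x hx
    obtain ⟨a, y, u, ha, hxy, hu, hyu⟩ := unit_rep hs hst hfix hopen P hx
    rw [← hT] at hyu
    have hy0 : y ≠ 0 := by
      rintro rfl
      rw [mul_zero] at hxy
      exact hx hxy
    obtain ⟨b, z', v', hb, hz, hv', hz'⟩ := unit_rep hs hst hfix hopen P (inv_ne_zero hy0)
    rw [← hT] at hz'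
    have hbz : y * z' = ι b⁻¹ := by
      rw [map_inv₀]
      have h1 : y * (ι b * z') = 1 := by rw [← hz, mul_inv_cancel₀ hy0]
      have h2 : ι b ≠ 0 := (map_ne_zero ι).2 hb
      field_simp
      linear_combination h1
    have hbO : b ∈ P.ring := by
      by_contra hcon
      have h1 : b⁻¹ ∈ P.ring := (P.ring.mem_or_inv_mem b).resolve_left hcon
      have h2 : P.hom ⟨b⁻¹, h1⟩ = 0 := by
        apply P.ker
        rw [inv_inv]
        exact hcon
      have h3 := Tof ⟨b⁻¹, h1⟩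
      rw [h2, map_zero] at h3
      have h4 := Tmul hyu hz'
      rw [hbz] at h4
      exact mul_ne_zero hu hv' (Tfun h4 h3)
    refine ⟨a, y, y⁻¹, u, algebraMap E Ω (P.hom ⟨b, hbO⟩) * v', ha, hxy, mul_inv_cancel₀ hy0, hyu, ?_⟩
    rw [hz]
    exact Tmul (Tof ⟨b, hbO⟩) hz'
  -- the valuation ring
  obtain ⟨V, hV⟩ : ∃ V : ValuationSubring N, ∀ x, x ∈ V ↔ ∃ y, T x y := by
    refine ⟨{ carrier := {x | ∃ y, T x y}
              mul_mem' := fun {x x'} h h' => ?_
              one_mem' := ⟨1, T1⟩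
              add_mem' := fun {x x'} h h' => ?_
              zero_mem' := ⟨0, T0⟩
              neg_mem' := fun {x} h => ?_
              mem_or_inv_mem' := fun x => ?_ }, fun x => Iff.rfl⟩
    · obtain ⟨y, hy⟩ := h
      obtain ⟨y', hy'⟩ := h'
      exact ⟨_, Tmul hy hy'⟩
    · obtain ⟨y, hy⟩ := h
      obtain ⟨y', hy'⟩ := h'
      exact ⟨_, Tadd hy hy'⟩
    · obtain ⟨y, hy⟩ := h
      exact ⟨_, Tneg hy⟩
    · by_cases hx : x = 0
      · left
        rw [hx]
        exact ⟨0, T0⟩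
      obtain ⟨a, y, z, u, v, ha, hxy, hyz, hu, hv⟩ := hrep x hx
      rcases P.ring.mem_or_inv_mem a with h | h
      · left
        rw [hxy]
        exact ⟨_, Tmul (Tof ⟨a, h⟩) hu⟩
      · right
        have h1 : x⁻¹ = ι a⁻¹ * z := by
          rw [hxy, mul_inv, map_inv₀]
          congr 1
          exact (eq_inv_of_mul_eq_one_right hyz).symm
        rw [h1]
        exact ⟨_, Tmul (Tof ⟨a⁻¹, h⟩) hv⟩
  have hV' : ∀ x : V, ∃ y, T x y := fun x => (hV x).1 x.2
  choose q hq using hV'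
  obtain ⟨H, hH⟩ : ∃ H : V →+* Ω, ∀ x : V, T x (H x) := by
    refine ⟨{ toFun := q
              map_one' := Tfun (hq 1) T1
              map_mul' := fun x y => Tfun (hq (x * y)) (Tmul (hq x) (hq y))
              map_zero' := Tfun (hq 0) T0
              map_add' := fun x y => Tfun (hq (x + y)) (Tadd (hq x) (hq y)) }, hq⟩
  refine ⟨⟨V, H, fun c => ?_, fun x hx => ?_⟩, fun σ x => ?_, fun a => ?_⟩
  · exact ⟨(hV _).2 ⟨_, Tconst c⟩, Tfun (hH _) (Tconst c)⟩
  · by_cases hx0 : (x : N) = 0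
    · have h1 : x = 0 := Subtype.ext hx0
      rw [h1, map_zero]
    obtain ⟨a, y, z, u, v, ha, hxy, hyz, hu, hv⟩ := hrep x hx0
    have h1 : (x : N)⁻¹ = ι a⁻¹ * z := by
      rw [hxy, mul_inv, map_inv₀]
      congr 1
      exact (eq_inv_of_mul_eq_one_right hyz).symm
    have h2 : a⁻¹ ∉ P.ring := by
      intro h
      apply hx
      rw [h1, hV]
      exact ⟨_, Tmul (Tof ⟨a⁻¹, h⟩) hv⟩
    have h3 : a ∈ P.ring := (P.ring.mem_or_inv_mem a).resolve_right h2
    have h4 : P.hom ⟨a, h3⟩ = 0 := P.ker _ h2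
    have h5 := Tmul (Tof ⟨a, h3⟩) hu
    rw [h4, map_zero, zero_mul, ← hxy] at h5
    exact Tfun (hH x) h5
  · have h1 := Teq σ (hH x)
    exact ⟨(hV _).2 ⟨_, h1⟩, Tfun (hH _) h1⟩
  · exact ⟨(hV _).2 ⟨_, Tof a⟩, Tfun (hH _) (Tof a)⟩

end

end Pool.Agent.Helper58.BQ
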