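import Mathlib
import Pool.Agent.Helper58.BQ.Xt

set_option autoImplicit false

/-! Sections of Galois groups over a dense subfield of a local field. -/

namespace Pool.Agent.Helper58.BQ

open Polynomial Pool.Agent.Helper58.BP

section

variable {E Ω k kb : Type} [Field E] [Field Ω] [Algebra E Ω] [IsAlgClosed Ω] [IsGalois E Ω]
  [Field k] [Field kb] [Algebra k kb] [IsAlgClosed kb] [Algebra.IsAlgebraic k kb]
  {i : k →+* E} {mu : kb →+* Ω}

/-- the algebraic numbers are stable under the Galois group -/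
lemma hst_of (hmu : ∀ c : k, mu (algebraMap k kb c) = algebraMap E Ω (i c))
    (σ : Ω ≃ₐ[E] Ω) (c : kb) : ∃ c', mu c' = σ (mu c) := by
  have hint : IsIntegral k c := Algebra.IsIntegral.isIntegral c
  have hcomp : mu.comp (algebraMap k kb) = (algebraMap E Ω).comp i := RingHom.ext hmu
  refine root_mem mu (h := (minpoly k c).map (algebraMap k kb)) ((minpoly.monic hint).map _).ne_zero
    ?_
  have h1 : ((minpoly k c).map ((algebraMap E Ω).comp i)).eval (mu c) = 0 := by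
    rw [← hcomp, eval_map, ← hom_eval₂]
    have : (minpoly k c).eval₂ (algebraMap k kb) c = 0 := minpoly.aeval k c
    rw [this, map_zero]
  have h2 : ((minpoly k c).map ((algebraMap E Ω).comp i)).map ((σ : Ω ≃ₐ[E] Ω) : Ω →+* Ω) =
      (minpoly k c).map ((algebraMap E Ω).comp i) := by
    rw [Polynomial.map_map]
    congr 1
    ext x
    exact AlgEquiv.commutes σ _
  rw [Polynomial.map_map, hcomp, ← h2]
  change eval (((σ : Ω ≃ₐ[E] Ω) : Ω →+* Ω) (mu c)) _ = 0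
  rw [eval_map_apply, h1, map_zero]

/-- the coefficients of the minimal polynomials are algebraic numbers -/
lemma hmin_of (hmu : ∀ c : k, mu (algebraMap k kb c) = algebraMap E Ω (i c)) {k₁ : Type}
    [Field k₁] {i₁ : k₁ →+* E}
    (hi₁ : ∀ (e : E) (d : kb), mu d = algebraMap E Ω e → ∃ c, i₁ c = e) (c : kb) :
    ∃ g : k₁[X], g.Monic ∧ g.map i₁ = minpoly E (mu c) := by
  have hint : IsIntegral E (mu c) := Algebra.IsIntegral.isIntegral (mu c)
  have h1 : (minpoly E (mu c)).map (algebraMap E Ω) ∈ lifts mu := by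
    have h2 := Splits.eq_prod_roots (IsAlgClosed.splits ((minpoly E (mu c)).map (algebraMap E Ω)))
    rw [((minpoly.monic hint).map (algebraMap E Ω)).leadingCoeff, C_1, one_mul] at h2
    rw [h2]
    apply Subsemiring.multiset_prod_mem
    intro q hq
    rw [Multiset.mem_map] at hq
    obtain ⟨β, hβ, rfl⟩ := hq
    have h3 : IsConjRoot E (mu c) β := (isConjRoot_iff_mem_minpoly_aroots hint).2 hβ
    rw [isConjRoot_iff_exists_algEquiv] at h3
    obtain ⟨σ, hσ⟩ := h3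
    obtain ⟨γ, hγ⟩ := hst_of hmu σ⁻¹ c
    rw [← hσ, ← AlgEquiv.mul_apply, inv_mul_cancel, AlgEquiv.one_apply] at hγ
    rw [mem_lifts]
    exact ⟨Polynomial.X - C γ, by rw [Polynomial.map_sub, map_X, map_C, hγ]⟩
  have h2 : minpoly E (mu c) ∈ lifts i₁ := by
    rw [lifts_iff_coeff_lifts] at h1 ⊢
    intro m
    obtain ⟨d, hd⟩ := h1 m
    rw [coeff_map] at hd
    exact hi₁ _ d hd
  obtain ⟨g, hg1, -, hg2⟩ := lifts_and_degree_eq_and_monic h2 (minpoly.monic hint)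
  exact ⟨g, hg2, hg1⟩

end

/-- primitive elements -/
lemma hprim_of {kb : Type} [Field kb] [CharZero kb] (k₁ : Subfield kb)
    [Algebra.IsAlgebraic k₁ kb] (c₁ c₂ : kb) :
    ∃ (c : kb) (q₁ q₂ : k₁[X]), q₁.eval₂ k₁.subtype c = c₁ ∧ q₂.eval₂ k₁.subtype c = c₂ := by
  have hfin : FiniteDimensional k₁ (IntermediateField.adjoin k₁ {c₁, c₂}) := by
    apply IntermediateField.finiteDimensional_adjoin
    intro x _
    exact Algebra.IsIntegral.isIntegral x
  obtain ⟨c, hc⟩ := Field.exists_primitive_element k₁ (IntermediateField.adjoin k₁ {c₁, c₂})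
  have halg : IsAlgebraic k₁ c := Algebra.IsAlgebraic.isAlgebraic c
  have key : ∀ x ∈ IntermediateField.adjoin k₁ {c₁, c₂}, ∃ q : k₁[X],
      q.eval₂ k₁.subtype (c : kb) = x := by
    intro x hx
    have h1 : (⟨x, hx⟩ : IntermediateField.adjoin k₁ {c₁, c₂}) ∈
        (IntermediateField.adjoin k₁ {c}).toSubalgebra := by
      rw [hc]
      trivial
    rw [IntermediateField.adjoin_simple_toSubalgebra_of_isAlgebraic halg,
      Algebra.adjoin_singleton_eq_range_aeval, AlgHom.mem_range] at h1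
    obtain ⟨q, hq⟩ := h1
    refine ⟨q, ?_⟩
    have h2 := congrArg (algebraMap (IntermediateField.adjoin k₁ {c₁, c₂}) kb) hq
    rw [aeval_def, hom_eval₂] at h2
    exact h2
  obtain ⟨q₁, h₁⟩ := key c₁ (IntermediateField.subset_adjoin _ _ (by simp))
  obtain ⟨q₂, h₂⟩ := key c₂ (IntermediateField.subset_adjoin _ _ (by simp))
  exact ⟨c, q₁, q₂, h₁, h₂⟩

theorem gsec_aux {p : ℕ} (hp : p.Prime) {E : Type} [NontriviallyNormedField E]
    [IsUltrametricDist E] [LocallyCompactSpace E] (hpE : ‖(p : E)‖ < 1) {Ω : Type} [Field Ω]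
    [Algebra E Ω] [IsAlgClosed Ω] [IsGalois E Ω] {k kb : Type} [Field k] [Field kb] [Algebra k kb]
    [IsAlgClosed kb] [Algebra.IsAlgebraic k kb] [CharZero kb] {i : k →+* E} (hi : DenseRange i)
    {mu : kb →+* Ω} (hmu : ∀ c : k, mu (algebraMap k kb c) = algebraMap E Ω (i c))
    {K M N L : Type} [Field K] [Field M] [Field N]
    [Field L] [Algebra K M] [Algebra M N] [Algebra K N] [Algebra N L] [Algebra M L]
    [Algebra K L] [IsScalarTower K M N] [IsScalarTower M N L] [IsScalarTower K N L]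
    [IsScalarTower K M L] [Algebra.IsAlgebraic K M] [Algebra.IsAlgebraic K N]
    (lam : kb →+* N)
    {ζ : kb} (hζ : IsPrimitiveRoot ζ p)
    (s : (Ω ≃ₐ[E] Ω) →* (N ≃ₐ[K] N))
    (hs : ∀ σ (c c' : kb), mu c' = σ (mu c) → s σ (lam c) = lam c')
    (hL : ∀ f : N, (∀ σ, σ (mu ζ) = mu ζ → s σ f = f) → ∃ r : L, r ^ p = algebraMap N L f)
    (hL1 : ∀ (r : L) (f : N), r ^ p = algebraMap N L f → (∀ σ, σ (mu ζ) = mu ζ → s σ f = f) →
      ∃ w : L, w ^ p = ∏ j ∈ Finset.range p, (1 - algebraMap N L (lam ζ) ^ j * r) ^ j)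
    (ρ : (Ω ≃ₐ[E] Ω) →* (L ≃ₐ[K] L)) (hρ : Continuous ρ)
    (hρs : ∀ σ x, ρ σ (algebraMap N L x) = algebraMap N L (s σ x))
    (hM : ∀ x : N, (∀ σ, s σ x = x) ↔ ∃ y : M, algebraMap M N y = x) :
    ∃ Q : KPlace lam mu, ∀ σ (x : Q.ring), ∃ h : s σ x ∈ Q.ring,
      Q.hom ⟨s σ x, h⟩ = σ (Q.hom x) := by
  classical
  have _ : NeZero p := ⟨hp.ne_zero⟩
  have _ : ProperSpace E := ProperSpace.of_locallyCompactSpace E
  have _ : CompleteSpace E := inferInstance
  have hst := hst_of (E := E) hmu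
  -- the group acts trivially on `M`
  have hMf : ∀ (y : M) σ, s σ (algebraMap M N y) = algebraMap M N y := fun y => (hM _).2 ⟨y, rfl⟩
  have hρM : ∀ σ (y : M), ρ σ (algebraMap M L y) = algebraMap M L y := by
    intro σ y
    rw [IsScalarTower.algebraMap_apply M N L, hρs, hMf]
  obtain ⟨ρ', hρ'⟩ : ∃ ρ' : (Ω ≃ₐ[E] Ω) →* (L ≃ₐ[M] L), ∀ σ x, ρ' σ x = ρ σ x := by
    refine ⟨MonoidHom.mk' (fun σ => AlgEquiv.ofRingEquiv (f := (ρ σ).toRingEquiv) (hρM σ)) ?_,
      fun _ _ => rfl⟩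
    intro σ τ
    ext x
    change ρ (σ * τ) x = ρ σ (ρ τ x)
    rw [map_mul, AlgEquiv.mul_apply]
  have hρ'c : Continuous ρ' := cont_alg hρ hρ'
  -- the field of the algebraic numbers in `E`
  obtain ⟨k₁, hk₁⟩ : ∃ k₁ : Subfield kb, k₁ = (algebraMap E Ω).fieldRange.comap mu := ⟨_, rfl⟩
  have hk₁m : ∀ c : kb, c ∈ k₁ ↔ ∃ e, algebraMap E Ω e = mu c := by
    intro c
    rw [hk₁]
    rfl
  obtain ⟨i₁, hi₁⟩ := lift_hom (mu.comp k₁.subtype) (algebraMap E Ω) fun c => (hk₁m c).1 c.2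
  obtain ⟨j₁, hj₁⟩ := lift_hom (lam.comp k₁.subtype) (algebraMap M N) fun c => by
    apply (hM _).1
    intro σ
    refine hs σ _ _ ?_
    obtain ⟨e, he⟩ := (hk₁m c).1 c.2
    change mu c = σ (mu c)
    rw [← he, AlgEquiv.commutes]
  have hi₁' : ∀ c : k₁, algebraMap E Ω (i₁ c) = mu c := hi₁
  have hj₁' : ∀ c : k₁, algebraMap M N (j₁ c) = lam c := hj₁
  have hkk : ∀ c : k, algebraMap k kb c ∈ k₁ := fun c => (hk₁m _).2 ⟨i c, (hmu c).symm⟩
  have hi₁d : DenseRange i₁ := by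
    refine hi.mono ?_
    rintro _ ⟨c, rfl⟩
    refine ⟨⟨algebraMap k kb c, hkk c⟩, (algebraMap E Ω).injective ?_⟩
    rw [hi₁', hmu]
  have halg : Algebra.IsAlgebraic k₁ kb := by
    refine ⟨fun c => ?_⟩
    obtain ⟨q, hq, hqc⟩ := Algebra.IsIntegral.isIntegral (R := k) c
    have h1 : IsIntegral k₁ c := by
      refine ⟨q.map ((algebraMap k kb).codRestrict k₁ hkk), hq.map _, ?_⟩
      rw [eval₂_map]
      exact hqc
    exact h1.isAlgebraic
  have hintζ : IsIntegral k₁ ζ := Algebra.IsIntegral.isIntegral ζ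
  obtain ⟨ζ', hζ'⟩ : ∃ ζ' : IntermediateField.adjoin k₁ {ζ},
      ζ' = IntermediateField.AdjoinSimple.gen k₁ ζ := ⟨_, rfl⟩
  have hζ'v : algebraMap (IntermediateField.adjoin k₁ {ζ}) kb ζ' = ζ := by rw [hζ']; rfl
  have hk' : IntermediateField.adjoin k₁ {ζ'} = ⊤ := by
    have h1 := (IntermediateField.adjoin.powerBasis hintζ).adjoin_gen_eq_top
    rw [IntermediateField.adjoin.powerBasis_gen, ← hζ'] at h1
    exact IntermediateField.adjoin_eq_top_of_algebra _ _ h1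
  have hζp : IsPrimitiveRoot ζ' p := by
    apply IsPrimitiveRoot.of_map_of_injective
      (f := algebraMap (IntermediateField.adjoin k₁ {ζ}) kb)
    · rw [hζ'v]
      exact hζ
    · exact (algebraMap (IntermediateField.adjoin k₁ {ζ}) kb).injective
  have hζΩ : IsPrimitiveRoot (mu ζ) p := hζ.map_of_injective mu.injective
  obtain ⟨lam', hlam'⟩ : ∃ lam' : IntermediateField.adjoin k₁ {ζ} →+* L, ∀ c,
      lam' c = algebraMap N L (lam (algebraMap _ kb c)) :=
    ⟨(algebraMap N L).comp (lam.comp (algebraMap _ kb)), fun _ => rfl⟩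
  obtain ⟨mu', hmu'⟩ : ∃ mu' : IntermediateField.adjoin k₁ {ζ} →+* Ω, ∀ c,
      mu' c = mu (algebraMap _ kb c) := ⟨mu.comp (algebraMap _ kb), fun _ => rfl⟩
  have hlamj : ∀ c : k₁, lam' (algebraMap k₁ _ c) = algebraMap M L (j₁ c) := by
    intro c
    rw [hlam', IsScalarTower.algebraMap_apply M N L, hj₁']
    rfl
  have hmuj : ∀ c : k₁, mu' (algebraMap k₁ _ c) = algebraMap E Ω (i₁ c) := by
    intro c
    rw [hmu', hi₁']
    rfl
  have hlamζ : lam' ζ' = algebraMap N L (lam ζ) := by rw [hlam', hζ'v]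
  have hmuζ : mu' ζ' = mu ζ := by rw [hmu', hζ'v]
  -- the elements of the adjoined field are in `N`
  have hN : ∀ f ∈ IntermediateField.adjoin M {lam' ζ'}, ∃ g : N, f = algebraMap N L g ∧
      ∀ σ, σ (mu ζ) = mu ζ → s σ g = g := by
    intro f hf
    refine IntermediateField.adjoin_induction M (p := fun f _ => ∃ g : N, f = algebraMap N L g ∧
      ∀ σ, σ (mu ζ) = mu ζ → s σ g = g) ?_ ?_ ?_ ?_ ?_ hf
    · intro z hz
      exact ⟨lam ζ, by rw [Set.mem_singleton_iff.1 hz, hlamζ], fun σ h => hs σ ζ ζ h.symm⟩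
    · intro z
      exact ⟨algebraMap M N z, by rw [← IsScalarTower.algebraMap_apply], fun σ _ => hMf z σ⟩
    · rintro _ _ _ _ ⟨g, rfl, h⟩ ⟨g', rfl, h'⟩
      exact ⟨g + g', (map_add _ _ _).symm, fun σ e => by rw [map_add, h σ e, h' σ e]⟩
    · rintro _ _ ⟨g, rfl, h⟩
      exact ⟨g⁻¹, (map_inv₀ _ _).symm, fun σ e => by rw [map_inv₀, h σ e]⟩
    · rintro _ _ _ _ ⟨g, rfl, h⟩ ⟨g', rfl, h'⟩
      exact ⟨g * g', (map_mul _ _ _).symm, fun σ e => by rw [map_mul, h σ e, h' σ e]⟩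
  obtain ⟨P, -, -⟩ := asm hp hpE (Ω := Ω) i₁ hi₁d j₁
    (L := L) (k' := IntermediateField.adjoin k₁ {ζ}) (ζ := ζ') hζp hk'
    mu' hmuj lam' hlamj (by
      intro f hf
      obtain ⟨g, rfl, h⟩ := hN f hf
      exact hL g h) (by
      intro r hr
      obtain ⟨g, hg, h⟩ := hN _ hr
      rw [hlamζ]
      exact hL1 r g hg h) ρ' hρ'c (by
      intro σ
      rw [hmuζ, hlamζ, hρ', hρs]
      obtain ⟨m, -, hm⟩ := hζΩ.eq_pow_of_pow_eq_one (ξ := σ (mu ζ)) (by
        rw [← map_pow, hζΩ.pow_eq_one, map_one])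
      refine ⟨m, hm.symm, ?_⟩
      rw [hs σ ζ (ζ ^ m) (by rw [map_pow, hm]), map_pow, map_pow]) (by
      intro c hc
      obtain ⟨c₀, hc₀⟩ := IsAlgClosed.exists_pow_nat_eq (algebraMap _ kb c) hp.pos
      refine ⟨algebraMap N L (lam c₀), mu c₀, ?_, ?_, fun σ hσ => ?_⟩
      · rw [hlam', ← hc₀, map_pow, map_pow]
      · rw [hmu', ← hc₀, map_pow]
      · rw [hmuζ] at hσ ⊢
        have h1 : σ (mu (algebraMap _ kb c)) = mu (algebraMap _ kb c) := by
          refine IntermediateField.adjoin_induction k₁ (p := fun y _ => σ (mu y) = mu y)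
            ?_ ?_ ?_ ?_ ?_ c.2
          · intro y hy
            rw [Set.mem_singleton_iff.1 hy, hσ]
          · intro y
            change σ (mu y) = mu y
            rw [← hi₁', AlgEquiv.commutes]
          · intro x y _ _ h4 h5
            rw [map_add, map_add, h4, h5]
          · intro x _ h4
            rw [map_inv₀, map_inv₀, h4]
          · intro x y _ _ h4 h5
            rw [map_mul, map_mul, h4, h5]
        have hc0 : mu c₀ ≠ 0 := by
          rw [Ne, map_eq_zero]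
          rintro rfl
          rw [zero_pow hp.ne_zero, eq_comm, map_eq_zero] at hc₀
          exact hc hc₀
        have h3 : (mu c₀) ^ p = mu (algebraMap _ kb c) := by rw [← map_pow, hc₀]
        obtain ⟨n, -, hn⟩ := hζΩ.eq_pow_of_pow_eq_one (ξ := σ (mu c₀) / mu c₀) (by
          rw [div_pow, ← map_pow, h3, h1, div_self]
          rw [← h3]
          exact pow_ne_zero _ hc0)
        have h2 : σ (mu c₀) = mu ζ ^ n * mu c₀ := by
          rw [hn, div_mul_cancel₀ _ hc0]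
        refine ⟨n, ?_, h2⟩
        rw [hρ', hρs, hs σ c₀ (ζ ^ n * c₀) (by rw [map_mul, map_pow, h2]), hlamζ, map_mul,
          map_mul, map_pow, map_pow])
  obtain ⟨s', hs'⟩ : ∃ s' : (Ω ≃ₐ[E] Ω) →* (N ≃+* N), ∀ σ x, s' σ x = s σ x := by
    refine ⟨MonoidHom.mk' (fun σ => (s σ).toRingEquiv) ?_, fun _ _ => rfl⟩
    intro σ τ
    ext x
    change s (σ * τ) x = s σ (s τ x)
    rw [map_mul, AlgEquiv.mul_apply]
  obtain ⟨Q, hQ, -⟩ := place_ext (s := s') (ι := algebraMap M N) (κ := k₁.subtype)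
    (fun σ c c' h => by rw [hs']; exact hs σ c c' h) hst
    (fun σ a => by rw [hs']; exact hMf a σ)
    (fun x hx => (hM x).1 fun σ => by rw [← hs']; exact hx σ)
    (fun x => by
      obtain ⟨a, ha⟩ := hopen_of s hρ hρs x
      obtain ⟨c, hc⟩ := kras hi hmu a
      exact ⟨c, fun σ h => by rw [hs']; exact ha σ (hc σ h)⟩)
    P hj₁' hi₁' (hmin_of hmu fun e d h => ⟨⟨d, (hk₁m d).2 ⟨e, h.symm⟩⟩, by
      apply (algebraMap E Ω).injective
      rw [hi₁']
      exact h⟩) (hprim_of k₁)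
  refine ⟨Q, fun σ x => ?_⟩
  obtain ⟨h, hh⟩ := hQ σ x
  have h1 : s σ x ∈ Q.ring := by
    rw [← hs']
    exact h
  refine ⟨h1, ?_⟩
  rw [← hh]
  congr 1
  exact Subtype.ext (hs' σ x).symm

theorem gsec {p : ℕ} (hp : p.Prime) {E : Type} [NontriviallyNormedField E]
    [IsUltrametricDist E] [LocallyCompactSpace E] (hpE : ‖(p : E)‖ < 1) {Ω : Type} [Field Ω]
    [Algebra E Ω] [IsAlgClosed Ω] [IsGalois E Ω] {k kb : Type} [Field k] [Field kb] [Algebra k kb]
    [IsAlgClosed kb] [Algebra.IsAlgebraic k kb] [CharZero kb] {i : k →+* E} (hi : DenseRange i)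
    {mu : kb →+* Ω} (hmu : ∀ c : k, mu (algebraMap k kb c) = algebraMap E Ω (i c))
    {K N L : Type} [Field K] [Field N] [Field L] [Algebra K N] [Algebra N L]
    [Algebra K L] [IsScalarTower K N L] [Algebra.IsAlgebraic K N]
    (lam : kb →+* N)
    {ζ : kb} (hζ : IsPrimitiveRoot ζ p)
    (s : (Ω ≃ₐ[E] Ω) →* (N ≃ₐ[K] N))
    (hs : ∀ σ (c c' : kb), mu c' = σ (mu c) → s σ (lam c) = lam c')
    (hL : ∀ f : N, (∀ σ, σ (mu ζ) = mu ζ → s σ f = f) → ∃ r : L, r ^ p = algebraMap N L f)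
    (hL1 : ∀ (r : L) (f : N), r ^ p = algebraMap N L f → (∀ σ, σ (mu ζ) = mu ζ → s σ f = f) →
      ∃ w : L, w ^ p = ∏ j ∈ Finset.range p, (1 - algebraMap N L (lam ζ) ^ j * r) ^ j)
    (ρ : (Ω ≃ₐ[E] Ω) →* (L ≃ₐ[K] L)) (hρ : Continuous ρ)
    (hρs : ∀ σ x, ρ σ (algebraMap N L x) = algebraMap N L (s σ x)) :
    ∃ Q : KPlace lam mu, ∀ σ (x : Q.ring), ∃ h : s σ x ∈ Q.ring,
      Q.hom ⟨s σ x, h⟩ = σ (Q.hom x) := by
  obtain ⟨M, hM⟩ : ∃ M : IntermediateField K N, M = IntermediateField.fixedField s.range :=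
    ⟨_, rfl⟩
  have hML : IsScalarTower K M L := by
    refine IsScalarTower.of_algebraMap_eq fun x => ?_
    rw [IsScalarTower.algebraMap_apply K N L, IsScalarTower.algebraMap_apply M N L,
      ← IsScalarTower.algebraMap_apply K M N]
  refine gsec_aux (M := M) hp hpE hi hmu lam hζ s hs hL hL1 ρ hρ hρs fun x => ?_
  have h1 : x ∈ M ↔ ∀ σ, s σ x = x := by
    rw [hM, IntermediateField.mem_fixedField_iff]
    constructor
    · intro h σ
      exact h _ ⟨σ, rfl⟩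
    · rintro h _ ⟨σ, rfl⟩
      exact h σ
  rw [← h1]
  constructor
  · intro h
    exact ⟨⟨x, h⟩, rfl⟩
  · rintro ⟨y, rfl⟩
    exact y.2

end Pool.Agent.Helper58.BQ
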