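import Mathlib
import Pool.Agent.Helper58.BQ.Gsec

set_option autoImplicit false

/-! The decomposition group and the restriction of the equivariant place. -/

namespace Pool.Agent.Helper58.BQ

open Pool.Agent.Helper58.BP
open scoped Pointwise

section

variable {E Ω k kb K N : Type} [Field E] [Field Ω] [Algebra E Ω] [IsGalois E Ω] [Field k]
  [Field kb] [Algebra k kb] [Field K] [Field N] [Algebra K N] {i : k →+* E} {j : k →+* K}
  {mu : kb →+* Ω} {lam : kb →+* N} {s : (Ω ≃ₐ[E] Ω) →* (N ≃ₐ[K] N)}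

lemma dec_of {Q : KPlace lam mu} (hQ : ∀ σ (x : Q.ring), ∃ h : s σ x ∈ Q.ring,
    Q.hom ⟨s σ x, h⟩ = σ (Q.hom x)) (σ : Ω ≃ₐ[E] Ω) :
    s σ ∈ Q.ring.decompositionSubgroup K := by
  change s σ • Q.ring = Q.ring
  ext x
  rw [ValuationSubring.mem_pointwise_smul_iff_inv_smul_mem]
  have h1 : (s σ)⁻¹ • x = s σ⁻¹ x := by
    rw [map_inv]
    rfl
  rw [h1]
  constructor
  · intro h
    obtain ⟨h2, -⟩ := hQ σ ⟨_, h⟩
    change s σ (s σ⁻¹ x) ∈ Q.ring at h2
    rw [← AlgEquiv.mul_apply, ← map_mul, mul_inv_cancel, map_one, AlgEquiv.one_apply] at h2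
    exact h2
  · intro h
    obtain ⟨h2, -⟩ := hQ σ⁻¹ ⟨_, h⟩
    exact h2

lemma res_of (hmu : ∀ c : k, mu (algebraMap k kb c) = algebraMap E Ω (i c))
    (hlam : ∀ c : k, lam (algebraMap k kb c) = algebraMap K N (j c))
    {Q : KPlace lam mu} (hQ : ∀ σ (x : Q.ring), ∃ h : s σ x ∈ Q.ring,
    Q.hom ⟨s σ x, h⟩ = σ (Q.hom x)) :
    ∃ P : KPlace j i, P.ring = Q.ring.comap (algebraMap K N) ∧
      ∀ (x : P.ring) (h : algebraMap K N x ∈ Q.ring),
        Q.hom ⟨algebraMap K N x, h⟩ = algebraMap E Ω (P.hom x) := by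
  have hinj := (algebraMap E Ω).injective
  have hval : ∀ x : Q.ring.comap (algebraMap K N), ∃ e : E,
      algebraMap E Ω e = Q.hom ⟨algebraMap K N x, x.2⟩ := by
    intro x
    obtain ⟨e, he⟩ := (InfiniteGalois.mem_range_algebraMap_iff_fixed (k := E)
      (Q.hom ⟨algebraMap K N x, x.2⟩)).2 (fun τ => by
        obtain ⟨h1, h2⟩ := hQ τ ⟨algebraMap K N x, x.2⟩
        rw [← h2]
        congr 1
        exact Subtype.ext (AlgEquiv.commutes _ _))
    exact ⟨e, he⟩
  choose h hh using hval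
  obtain ⟨H, hH⟩ : ∃ H : Q.ring.comap (algebraMap K N) →+* E, ∀ x,
      algebraMap E Ω (H x) = Q.hom ⟨algebraMap K N x, x.2⟩ := by
    refine ⟨{ toFun := h
              map_one' := ?_
              map_mul' := ?_
              map_zero' := ?_
              map_add' := ?_ }, hh⟩
    · apply hinj
      rw [hh, map_one, ← map_one Q.hom]
      congr 1
      exact Subtype.ext (map_one (algebraMap K N))
    · intro x y
      apply hinj
      rw [map_mul, hh, hh, hh, ← map_mul]
      congr 1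
      exact Subtype.ext (map_mul (algebraMap K N) _ _)
    · apply hinj
      rw [hh, map_zero, ← map_zero Q.hom]
      congr 1
      exact Subtype.ext (map_zero (algebraMap K N))
    · intro x y
      apply hinj
      rw [map_add, hh, hh, hh, ← map_add]
      congr 1
      exact Subtype.ext (map_add (algebraMap K N) _ _)
  refine ⟨⟨Q.ring.comap (algebraMap K N), H, ?_, ?_⟩, rfl, fun x _ => (hH x).symm⟩
  · intro c
    obtain ⟨h1, h2⟩ := Q.const (algebraMap k kb c)
    have h3 : algebraMap K N (j c) ∈ Q.ring := by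
      rw [← hlam]
      exact h1
    refine ⟨h3, ?_⟩
    apply hinj
    rw [hH, ← hmu, ← h2]
    congr 1
    exact Subtype.ext (hlam c).symm
  · intro x hx
    apply hinj
    rw [hH, map_zero]
    apply Q.ker
    intro h1
    apply hx
    change algebraMap K N ((x : K)⁻¹) ∈ Q.ring
    rw [map_inv₀]
    exact h1

end

end Pool.Agent.Helper58.BQ
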