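import Mathlib
import Pool.Agent.Helper58.BQ.Fnl

set_option autoImplicit false

/-! Uniqueness of the equivariant place. -/

namespace Pool.Agent.Helper58.BQ

open Polynomial Pool.Agent.Helper58.BP

lemma KPlace_ext {k K E : Type} [Field k] [Field K] [Field E] {j : k →+* K} {i : k →+* E}
    {Q Q' : KPlace j i} (h : ∀ x, x ∈ Q.ring ↔ x ∈ Q'.ring)
    (h' : ∀ x (h1 : x ∈ Q.ring) (h2 : x ∈ Q'.ring), Q.hom ⟨x, h1⟩ = Q'.hom ⟨x, h2⟩) : Q = Q' := by
  obtain ⟨R, H, h1, h2⟩ := Q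
  obtain ⟨R', H', h1', h2'⟩ := Q'
  have e : R = R' := by
    ext x
    exact h x
  subst e
  have e' : H = H' := by
    ext x
    exact h' x x.2 x.2
  subst e'
  rfl

section

variable {E Ω kb k₁ M N : Type} [Field E] [Field Ω] [Algebra E Ω] [IsGalois E Ω] [IsAlgClosed Ω]
  [Field kb] [Field k₁] [Field M] [Field N] {mu : kb →+* Ω} {lam : kb →+* N} {ι : M →+* N}
  {s : (Ω ≃ₐ[E] Ω) →* (N ≃+* N)} {κ : k₁ →+* kb} {j₁ : k₁ →+* M} {i₁ : k₁ →+* E}

lemma Rel_val {P : KPlace j₁ i₁} {Q : KPlace lam mu}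
    (hQ : ∀ a : P.ring, ∃ h : ι a ∈ Q.ring, Q.hom ⟨ι a, h⟩ = algebraMap E Ω (P.hom a))
    {x : N} {y : Ω}
    (h : Rel (ι.comp P.ring.subtype) ((algebraMap E Ω).comp P.hom) lam mu x y) :
    ∃ h : x ∈ Q.ring, Q.hom ⟨x, h⟩ = y := by
  obtain ⟨c, B, hx, hy⟩ := h
  obtain ⟨αQ, hαQ⟩ : ∃ αQ : P.ring →+* Q.ring, ∀ a, (αQ a : N) = ι a :=
    ⟨(ι.comp P.ring.subtype).codRestrict Q.ring.toSubring fun a => (hQ a).1, fun _ => rfl⟩
  obtain ⟨hc, hc'⟩ := Q.const c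
  have h1 : ((B.eval₂ αQ ⟨lam c, hc⟩ : Q.ring) : N) = x := by
    change Q.ring.subtype _ = x
    rw [hom_eval₂, hx]
    congr 1
    ext a
    exact hαQ a
  have h2 : Q.hom (B.eval₂ αQ ⟨lam c, hc⟩) = y := by
    rw [hom_eval₂, hy, hc']
    congr 1
    ext a
    obtain ⟨h3, h4⟩ := hQ a
    change Q.hom (αQ a) = algebraMap E Ω (P.hom a)
    rw [← h4]
    congr 1
    exact Subtype.ext (hαQ a)
  refine ⟨by rw [← h1]; exact Subtype.mem _, ?_⟩
  rw [← h2]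
  congr 1
  exact Subtype.ext h1.symm

lemma comap_eq {P : KPlace j₁ i₁} {Q : KPlace lam mu}
    (hQ : ∀ a : P.ring, ∃ h : ι a ∈ Q.ring, Q.hom ⟨ι a, h⟩ = algebraMap E Ω (P.hom a)) (a : M) :
    ι a ∈ Q.ring ↔ a ∈ P.ring := by
  constructor
  · intro h
    by_contra hcon
    have h1 : a⁻¹ ∈ P.ring := (P.ring.mem_or_inv_mem a).resolve_left hcon
    have h2 : P.hom ⟨a⁻¹, h1⟩ = 0 := by
      apply P.ker
      rw [inv_inv]
      exact hcon
    obtain ⟨h3, h4⟩ := hQ ⟨a⁻¹, h1⟩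
    rw [h2, map_zero] at h4
    have ha : a ≠ 0 := by
      rintro rfl
      exact hcon (zero_mem _)
    have h5 : (⟨ι a, h⟩ : Q.ring) * ⟨ι a⁻¹, h3⟩ = 1 := by
      apply Subtype.ext
      change ι a * ι a⁻¹ = 1
      rw [← map_mul, mul_inv_cancel₀ ha, map_one]
    have h6 := congrArg Q.hom h5
    rw [map_mul, h4, mul_zero, map_one] at h6
    exact zero_ne_one h6
  · intro h
    exact (hQ ⟨a, h⟩).1

/-- uniqueness of the prolongation of the place -/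
theorem place_uniq (hs : ∀ σ (c c' : kb), mu c' = σ (mu c) → s σ (lam c) = lam c')
    (hst : ∀ (σ : Ω ≃ₐ[E] Ω) (c : kb), ∃ c', mu c' = σ (mu c))
    (hfix : ∀ x, (∀ σ, s σ x = x) → ∃ a, ι a = x)
    (hopen : ∀ x : N, ∃ c : kb, ∀ σ : Ω ≃ₐ[E] Ω, σ (mu c) = mu c → s σ x = x)
    {P : KPlace j₁ i₁} {Q Q' : KPlace lam mu}
    (hQ : ∀ a : P.ring, ∃ h : ι a ∈ Q.ring, Q.hom ⟨ι a, h⟩ = algebraMap E Ω (P.hom a))
    (hQ' : ∀ a : P.ring, ∃ h : ι a ∈ Q'.ring, Q'.hom ⟨ι a, h⟩ = algebraMap E Ω (P.hom a)) :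
    Q = Q' := by
  have key : ∀ {Q : KPlace lam mu}, (∀ a : P.ring, ∃ h : ι a ∈ Q.ring, Q.hom ⟨ι a, h⟩ =
      algebraMap E Ω (P.hom a)) → ∀ {a : M} {y : N} {u : Ω}, u ≠ 0 →
      Rel (ι.comp P.ring.subtype) ((algebraMap E Ω).comp P.hom) lam mu y u →
      (ι a * y ∈ Q.ring ↔ a ∈ P.ring) ∧ ∀ (h : ι a * y ∈ Q.ring) (ha : a ∈ P.ring),
        Q.hom ⟨ι a * y, h⟩ = algebraMap E Ω (P.hom ⟨a, ha⟩) * u := by
    intro Q hQ a y u hu hyu
    obtain ⟨hy, hy'⟩ := Rel_val hQ hyu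
    have hy0 : y ≠ 0 := by
      rintro rfl
      apply hu
      rw [← hy']
      exact map_zero Q.hom
    have hyi : y⁻¹ ∈ Q.ring := by
      by_contra hcon
      apply hu
      rw [← hy']
      exact Q.ker ⟨y, hy⟩ hcon
    have h1 : ι a * y ∈ Q.ring ↔ a ∈ P.ring := by
      rw [← comap_eq hQ]
      constructor
      · intro h
        have := mul_mem h hyi
        rwa [mul_assoc, mul_inv_cancel₀ hy0, mul_one] at this
      · intro h
        exact mul_mem h hy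
    refine ⟨h1, fun h ha => ?_⟩
    obtain ⟨h2, h3⟩ := hQ ⟨a, ha⟩
    rw [← h3, ← hy', ← map_mul]
    rfl
  apply KPlace_ext
  · intro x
    by_cases hx : x = 0
    · rw [hx]
      exact ⟨fun _ => zero_mem _, fun _ => zero_mem _⟩
    obtain ⟨a, y, u, ha, rfl, hu, hyu⟩ := unit_rep hs hst hfix hopen P hx
    rw [(key hQ hu hyu).1, (key hQ' hu hyu).1]
  · intro x h1 h2
    by_cases hx : x = 0
    · subst hx
      have e1 : (⟨0, h1⟩ : Q.ring) = 0 := rfl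
      have e2 : (⟨0, h2⟩ : Q'.ring) = 0 := rfl
      rw [e1, e2, map_zero, map_zero]
    obtain ⟨a, y, u, ha, rfl, hu, hyu⟩ := unit_rep hs hst hfix hopen P hx
    have h3 := (key hQ hu hyu).1.1 h1
    rw [(key hQ hu hyu).2 h1 h3, (key hQ' hu hyu).2 h2 h3]

/-- the restriction of an equivariant place to the fixed field -/
lemma res_fix (hι : ∀ σ a, s σ (ι a) = ι a) (hj : ∀ c, ι (j₁ c) = lam (κ c))
    (hi : ∀ c, algebraMap E Ω (i₁ c) = mu (κ c)) {Q : KPlace lam mu}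
    (hQ : ∀ σ (x : Q.ring), ∃ h : s σ x ∈ Q.ring, Q.hom ⟨s σ x, h⟩ = σ (Q.hom x)) :
    ∃ P : KPlace j₁ i₁, (∀ a, a ∈ P.ring ↔ ι a ∈ Q.ring) ∧
      ∀ a : P.ring, ∃ h : ι a ∈ Q.ring, Q.hom ⟨ι a, h⟩ = algebraMap E Ω (P.hom a) := by
  have hinj := (algebraMap E Ω).injective
  have hval : ∀ x : Q.ring.comap ι, ∃ e : E, algebraMap E Ω e = Q.hom ⟨ι x, x.2⟩ := by
    intro x
    obtain ⟨e, he⟩ := (InfiniteGalois.mem_range_algebraMap_iff_fixed (k := E)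
      (Q.hom ⟨ι x, x.2⟩)).2 (fun τ => by
        obtain ⟨h1, h2⟩ := hQ τ ⟨ι x, x.2⟩
        rw [← h2]
        congr 1
        exact Subtype.ext (hι _ _))
    exact ⟨e, he⟩
  choose h hh using hval
  obtain ⟨H, hH⟩ : ∃ H : Q.ring.comap ι →+* E, ∀ x,
      algebraMap E Ω (H x) = Q.hom ⟨ι x, x.2⟩ := by
    refine ⟨{ toFun := h
              map_one' := ?_
              map_mul' := ?_
              map_zero' := ?_
              map_add' := ?_ }, hh⟩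
    · apply hinj
      rw [hh, map_one, ← map_one Q.hom]
      congr 1
      exact Subtype.ext (map_one ι)
    · intro x y
      apply hinj
      rw [map_mul, hh, hh, hh, ← map_mul]
      congr 1
      exact Subtype.ext (map_mul ι _ _)
    · apply hinj
      rw [hh, map_zero, ← map_zero Q.hom]
      congr 1
      exact Subtype.ext (map_zero ι)
    · intro x y
      apply hinj
      rw [map_add, hh, hh, hh, ← map_add]
      congr 1
      exact Subtype.ext (map_add ι _ _)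
  refine ⟨⟨Q.ring.comap ι, H, ?_, ?_⟩, fun a => Iff.rfl, fun x => ⟨x.2, (hH x).symm⟩⟩
  · intro c
    obtain ⟨h1, h2⟩ := Q.const (κ c)
    have h3 : ι (j₁ c) ∈ Q.ring := by
      rw [hj]
      exact h1
    refine ⟨h3, ?_⟩
    apply hinj
    rw [hH, hi, ← h2]
    congr 1
    exact Subtype.ext (hj c)
  · intro x hx
    apply hinj
    rw [hH, map_zero]
    apply Q.ker
    intro h1
    apply hx
    change ι ((x : M)⁻¹) ∈ Q.ring
    rw [map_inv₀]
    exact h1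

end

end Pool.Agent.Helper58.BQ
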