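import Mathlib
import Pool.Agent.Helper58.BQ.Pu

set_option autoImplicit false

/-! Sections of Galois groups over a dense subfield of a local field: existence and uniqueness. -/

namespace Pool.Agent.Helper58.BQ

open Polynomial Pool.Agent.Helper58.BP

theorem gsec2_aux {p : ℕ} (hp : p.Prime) {E : Type} [NontriviallyNormedField E]
    [IsUltrametricDist E] [LocallyCompactSpace E] (hpE : ‖(p : E)‖ < 1) {Ω : Type} [Field Ω]
    [Algebra E Ω] [IsAlgClosed Ω] [IsGalois E Ω] {k kb : Type} [Field k] [Field kb] [Algebra k kb]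
    [IsAlgClosed kb] [Algebra.IsAlgebraic k kb] [CharZero kb] {i : k →+* E} (hi : DenseRange i)
    {mu : kb →+* Ω} (hmu : ∀ c : k, mu (algebraMap k kb c) = algebraMap E Ω (i c))
    {K M N L : Type} [Field K] [Field M] [Field N]
    [Field L] [Algebra K M] [Algebra M N] [Algebra K N] [Algebra N L] [Algebra M L]
    [Algebra K L] [IsScalarTower K M N] [IsScalarTower M N L] [IsScalarTower K N L]
    [IsScalarTower K M L] [Algebra.IsAlgebraic K M] [Algebra.IsAlgebraic K N]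
    (lam : kb →+* N)
    {ζ : kb} (hζ : IsPrimitiveRoot ζ p)
    (s : (Ω ≃ₐ[E] Ω) →* (N ≃ₐ[K] N))
    (hs : ∀ σ (c c' : kb), mu c' = σ (mu c) → s σ (lam c) = lam c')
    (hL : ∀ f : N, (∀ σ, σ (mu ζ) = mu ζ → s σ f = f) → ∃ r : L, r ^ p = algebraMap N L f)
    (hL1 : ∀ (r : L) (f : N), r ^ p = algebraMap N L f → (∀ σ, σ (mu ζ) = mu ζ → s σ f = f) →
      ∃ w : L, w ^ p = ∏ j ∈ Finset.range p, (1 - algebraMap N L (lam ζ) ^ j * r) ^ j)
    (ρ : (Ω ≃ₐ[E] Ω) →* (L ≃ₐ[K] L)) (hρ : Continuous ρ)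
    (hρs : ∀ σ x, ρ σ (algebraMap N L x) = algebraMap N L (s σ x))
    (hM : ∀ x : N, (∀ σ, s σ x = x) ↔ ∃ y : M, algebraMap M N y = x) :
    ∃ Q : KPlace lam mu, ((∀ σ (x : Q.ring), ∃ h : s σ x ∈ Q.ring,
        Q.hom ⟨s σ x, h⟩ = σ (Q.hom x)) ∧
      ∀ x : Q.ring, (∀ σ, s σ x = x) → Q.hom x ≠ 0 → ∃ (r : L) (t : Ω),
        r ^ p = algebraMap N L x ∧ t ^ p = Q.hom x ∧ ∀ σ, ∃ n : ℕ,
          ρ σ r = algebraMap N L (lam ζ) ^ n * r ∧ σ t = mu ζ ^ n * t) ∧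
      ∀ Q' : KPlace lam mu, (∀ σ (x : Q'.ring), ∃ h : s σ x ∈ Q'.ring,
        Q'.hom ⟨s σ x, h⟩ = σ (Q'.hom x)) →
      (∀ x : Q'.ring, (∀ σ, s σ x = x) → Q'.hom x ≠ 0 → ∃ (r : L) (t : Ω),
        r ^ p = algebraMap N L x ∧ t ^ p = Q'.hom x ∧ ∀ σ, ∃ n : ℕ,
          ρ σ r = algebraMap N L (lam ζ) ^ n * r ∧ σ t = mu ζ ^ n * t) → Q' = Q := by
  classical
  have _ : NeZero p := ⟨hp.ne_zero⟩
  have _ : ProperSpace E := ProperSpace.of_locallyCompactSpace E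
  have _ : CompleteSpace E := inferInstance
  have hst := hst_of (E := E) hmu
  -- the group acts trivially on `M`
  have hMf : ∀ (y : M) σ, s σ (algebraMap M N y) = algebraMap M N y := fun y => (hM _).2 ⟨y, rfl⟩
  have hρM : ∀ σ (y : M), ρ σ (algebraMap M L y) = algebraMap M L y := by
    intro σ y
    rw [IsScalarTower.algebraMap_apply M N L, hρs, hMf]
  obtain ⟨ρ', hρ'⟩ : ∃ ρ' : (Ω ≃ₐ[E] Ω) →* (L ≃ₐ[M] L), ∀ σ x, ρ' σ x = ρ σ x := by
    refine ⟨MonoidHom.mk' (fun σ => AlgEquiv.ofRingEquiv (f := (ρ σ).toRingEquiv) (hρM σ)) ?_,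
      fun _ _ => rfl⟩
    intro σ τ
    ext x
    change ρ (σ * τ) x = ρ σ (ρ τ x)
    rw [map_mul, AlgEquiv.mul_apply]
  have hρ'c : Continuous ρ' := cont_alg hρ hρ'
  -- the field of the algebraic numbers in `E`
  obtain ⟨k₁, hk₁⟩ : ∃ k₁ : Subfield kb, k₁ = (algebraMap E Ω).fieldRange.comap mu := ⟨_, rfl⟩
  have hk₁m : ∀ c : kb, c ∈ k₁ ↔ ∃ e, algebraMap E Ω e = mu c := by
    intro c
    rw [hk₁]
    rfl
  obtain ⟨i₁, hi₁⟩ := lift_hom (mu.comp k₁.subtype) (algebraMap E Ω) fun c => (hk₁m c).1 c.2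
  obtain ⟨j₁, hj₁⟩ := lift_hom (lam.comp k₁.subtype) (algebraMap M N) fun c => by
    apply (hM _).1
    intro σ
    refine hs σ _ _ ?_
    obtain ⟨e, he⟩ := (hk₁m c).1 c.2
    change mu c = σ (mu c)
    rw [← he, AlgEquiv.commutes]
  have hi₁' : ∀ c : k₁, algebraMap E Ω (i₁ c) = mu c := hi₁
  have hj₁' : ∀ c : k₁, algebraMap M N (j₁ c) = lam c := hj₁
  have hkk : ∀ c : k, algebraMap k kb c ∈ k₁ := fun c => (hk₁m _).2 ⟨i c, (hmu c).symm⟩
  have hi₁d : DenseRange i₁ := by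
    refine hi.mono ?_
    rintro _ ⟨c, rfl⟩
    refine ⟨⟨algebraMap k kb c, hkk c⟩, (algebraMap E Ω).injective ?_⟩
    rw [hi₁', hmu]
  have halg : Algebra.IsAlgebraic k₁ kb := by
    refine ⟨fun c => ?_⟩
    obtain ⟨q, hq, hqc⟩ := Algebra.IsIntegral.isIntegral (R := k) c
    have h1 : IsIntegral k₁ c := by
      refine ⟨q.map ((algebraMap k kb).codRestrict k₁ hkk), hq.map _, ?_⟩
      rw [eval₂_map]
      exact hqc
    exact h1.isAlgebraic
  have hintζ : IsIntegral k₁ ζ := Algebra.IsIntegral.isIntegral ζ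
  obtain ⟨ζ', hζ'⟩ : ∃ ζ' : IntermediateField.adjoin k₁ {ζ},
      ζ' = IntermediateField.AdjoinSimple.gen k₁ ζ := ⟨_, rfl⟩
  have hζ'v : algebraMap (IntermediateField.adjoin k₁ {ζ}) kb ζ' = ζ := by rw [hζ']; rfl
  have hk' : IntermediateField.adjoin k₁ {ζ'} = ⊤ := by
    have h1 := (IntermediateField.adjoin.powerBasis hintζ).adjoin_gen_eq_top
    rw [IntermediateField.adjoin.powerBasis_gen, ← hζ'] at h1
    exact IntermediateField.adjoin_eq_top_of_algebra _ _ h1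
  have hζp : IsPrimitiveRoot ζ' p := by
    apply IsPrimitiveRoot.of_map_of_injective
      (f := algebraMap (IntermediateField.adjoin k₁ {ζ}) kb)
    · rw [hζ'v]
      exact hζ
    · exact (algebraMap (IntermediateField.adjoin k₁ {ζ}) kb).injective
  have hζΩ : IsPrimitiveRoot (mu ζ) p := hζ.map_of_injective mu.injective
  obtain ⟨lam', hlam'⟩ : ∃ lam' : IntermediateField.adjoin k₁ {ζ} →+* L, ∀ c,
      lam' c = algebraMap N L (lam (algebraMap _ kb c)) :=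
    ⟨(algebraMap N L).comp (lam.comp (algebraMap _ kb)), fun _ => rfl⟩
  obtain ⟨mu', hmu'⟩ : ∃ mu' : IntermediateField.adjoin k₁ {ζ} →+* Ω, ∀ c,
      mu' c = mu (algebraMap _ kb c) := ⟨mu.comp (algebraMap _ kb), fun _ => rfl⟩
  have hlamj : ∀ c : k₁, lam' (algebraMap k₁ _ c) = algebraMap M L (j₁ c) := by
    intro c
    rw [hlam', IsScalarTower.algebraMap_apply M N L, hj₁']
    rfl
  have hmuj : ∀ c : k₁, mu' (algebraMap k₁ _ c) = algebraMap E Ω (i₁ c) := by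
    intro c
    rw [hmu', hi₁']
    rfl
  have hlamζ : lam' ζ' = algebraMap N L (lam ζ) := by rw [hlam', hζ'v]
  have hmuζ : mu' ζ' = mu ζ := by rw [hmu', hζ'v]
  -- the elements of the adjoined field are in `N`
  have hN : ∀ f ∈ IntermediateField.adjoin M {lam' ζ'}, ∃ g : N, f = algebraMap N L g ∧
      ∀ σ, σ (mu ζ) = mu ζ → s σ g = g := by
    intro f hf
    refine IntermediateField.adjoin_induction M (p := fun f _ => ∃ g : N, f = algebraMap N L g ∧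
      ∀ σ, σ (mu ζ) = mu ζ → s σ g = g) ?_ ?_ ?_ ?_ ?_ hf
    · intro z hz
      exact ⟨lam ζ, by rw [Set.mem_singleton_iff.1 hz, hlamζ], fun σ h => hs σ ζ ζ h.symm⟩
    · intro z
      exact ⟨algebraMap M N z, by rw [← IsScalarTower.algebraMap_apply], fun σ _ => hMf z σ⟩
    · rintro _ _ _ _ ⟨g, rfl, h⟩ ⟨g', rfl, h'⟩
      exact ⟨g + g', (map_add _ _ _).symm, fun σ e => by rw [map_add, h σ e, h' σ e]⟩
    · rintro _ _ ⟨g, rfl, h⟩
      exact ⟨g⁻¹, (map_inv₀ _ _).symm, fun σ e => by rw [map_inv₀, h σ e]⟩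
    · rintro _ _ _ _ ⟨g, rfl, h⟩ ⟨g', rfl, h'⟩
      exact ⟨g * g', (map_mul _ _ _).symm, fun σ e => by rw [map_mul, h σ e, h' σ e]⟩
  obtain ⟨P, hP, hPu⟩ := asm hp hpE (Ω := Ω) i₁ hi₁d j₁
    (L := L) (k' := IntermediateField.adjoin k₁ {ζ}) (ζ := ζ') hζp hk'
    mu' hmuj lam' hlamj (by
      intro f hf
      obtain ⟨g, rfl, h⟩ := hN f hf
      exact hL g h) (by
      intro r hr
      obtain ⟨g, hg, h⟩ := hN _ hr
      rw [hlamζ]
      exact hL1 r g hg h) ρ' hρ'c (by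
      intro σ
      rw [hmuζ, hlamζ, hρ', hρs]
      obtain ⟨m, -, hm⟩ := hζΩ.eq_pow_of_pow_eq_one (ξ := σ (mu ζ)) (by
        rw [← map_pow, hζΩ.pow_eq_one, map_one])
      refine ⟨m, hm.symm, ?_⟩
      rw [hs σ ζ (ζ ^ m) (by rw [map_pow, hm]), map_pow, map_pow]) (by
      intro c hc
      obtain ⟨c₀, hc₀⟩ := IsAlgClosed.exists_pow_nat_eq (algebraMap _ kb c) hp.pos
      refine ⟨algebraMap N L (lam c₀), mu c₀, ?_, ?_, fun σ hσ => ?_⟩
      · rw [hlam', ← hc₀, map_pow, map_pow]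
      · rw [hmu', ← hc₀, map_pow]
      · rw [hmuζ] at hσ ⊢
        have h1 : σ (mu (algebraMap _ kb c)) = mu (algebraMap _ kb c) := by
          refine IntermediateField.adjoin_induction k₁ (p := fun y _ => σ (mu y) = mu y)
            ?_ ?_ ?_ ?_ ?_ c.2
          · intro y hy
            rw [Set.mem_singleton_iff.1 hy, hσ]
          · intro y
            change σ (mu y) = mu y
            rw [← hi₁', AlgEquiv.commutes]
          · intro x y _ _ h4 h5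
            rw [map_add, map_add, h4, h5]
          · intro x _ h4
            rw [map_inv₀, map_inv₀, h4]
          · intro x y _ _ h4 h5
            rw [map_mul, map_mul, h4, h5]
        have hc0 : mu c₀ ≠ 0 := by
          rw [Ne, map_eq_zero]
          rintro rfl
          rw [zero_pow hp.ne_zero, eq_comm, map_eq_zero] at hc₀
          exact hc hc₀
        have h3 : (mu c₀) ^ p = mu (algebraMap _ kb c) := by rw [← map_pow, hc₀]
        obtain ⟨n, -, hn⟩ := hζΩ.eq_pow_of_pow_eq_one (ξ := σ (mu c₀) / mu c₀) (by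
          rw [div_pow, ← map_pow, h3, h1, div_self]
          rw [← h3]
          exact pow_ne_zero _ hc0)
        have h2 : σ (mu c₀) = mu ζ ^ n * mu c₀ := by
          rw [hn, div_mul_cancel₀ _ hc0]
        refine ⟨n, ?_, h2⟩
        rw [hρ', hρs, hs σ c₀ (ζ ^ n * c₀) (by rw [map_mul, map_pow, h2]), hlamζ, map_mul,
          map_mul, map_pow, map_pow])
  obtain ⟨s', hs'⟩ : ∃ s' : (Ω ≃ₐ[E] Ω) →* (N ≃+* N), ∀ σ x, s' σ x = s σ x := by
    refine ⟨MonoidHom.mk' (fun σ => (s σ).toRingEquiv) ?_, fun _ _ => rfl⟩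
    intro σ τ
    ext x
    change s (σ * τ) x = s σ (s τ x)
    rw [map_mul, AlgEquiv.mul_apply]
  have hs1 : ∀ σ (c c' : kb), mu c' = σ (mu c) → s' σ (lam c) = lam c' :=
    fun σ c c' h => by rw [hs']; exact hs σ c c' h
  have hι : ∀ σ (a : M), s' σ (algebraMap M N a) = algebraMap M N a :=
    fun σ a => by rw [hs']; exact hMf a σ
  have hfix : ∀ x, (∀ σ, s' σ x = x) → ∃ a : M, algebraMap M N a = x :=
    fun x hx => (hM x).1 fun σ => by rw [← hs']; exact hx σ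
  have hopen : ∀ x : N, ∃ c : kb, ∀ σ : Ω ≃ₐ[E] Ω, σ (mu c) = mu c → s' σ x = x :=
    fun x => by
      obtain ⟨a, ha⟩ := hopen_of s hρ hρs x
      obtain ⟨c, hc⟩ := kras hi hmu a
      exact ⟨c, fun σ h => by rw [hs']; exact ha σ (hc σ h)⟩
  have hQs : ∀ Q : KPlace lam mu, (∀ σ (x : Q.ring), ∃ h : s' σ x ∈ Q.ring,
      Q.hom ⟨s' σ x, h⟩ = σ (Q.hom x)) ↔ ∀ σ (x : Q.ring), ∃ h : s σ x ∈ Q.ring,
      Q.hom ⟨s σ x, h⟩ = σ (Q.hom x) := by
    intro Q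
    have h1 : ∀ σ (x : N), s' σ x = s σ x := hs'
    simp only [h1]
  obtain ⟨Q, hQ, hQP⟩ := place_ext (s := s') (ι := algebraMap M N) (κ := k₁.subtype)
    hs1 hst hι hfix hopen
    P hj₁' hi₁' (hmin_of hmu fun e d h => ⟨⟨d, (hk₁m d).2 ⟨e, h.symm⟩⟩, by
      apply (algebraMap E Ω).injective
      rw [hi₁']
      exact h⟩) (hprim_of k₁)
  refine ⟨Q, ⟨(hQs Q).1 hQ, ?_⟩, ?_⟩
  · intro x hx hx0
    obtain ⟨a, ha⟩ := (hM x).1 hx
    have haQ : algebraMap M N a ∈ Q.ring := by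
      rw [ha]
      exact x.2
    have haP : a ∈ P.ring := (comap_eq hQP a).1 haQ
    obtain ⟨h1, h2⟩ := hQP ⟨a, haP⟩
    have h3 : Q.hom x = algebraMap E Ω (P.hom ⟨a, haP⟩) := by
      rw [← h2]
      congr 1
      exact Subtype.ext ha.symm
    have h4 : P.hom ⟨a, haP⟩ ≠ 0 := by
      intro e
      apply hx0
      rw [h3, e, map_zero]
    obtain ⟨r, t, hr, ht, hrt⟩ := hP ⟨a, haP⟩ h4
    refine ⟨r, t, ?_, ?_, fun σ => ?_⟩
    · rw [hr, ← ha, ← IsScalarTower.algebraMap_apply]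
    · rw [ht, h3]
    · obtain ⟨n, h5, h6⟩ := hrt σ
      rw [hρ', hlamζ] at h5
      rw [hmuζ] at h6
      exact ⟨n, h5, h6⟩
  · intro Q' hQ' hK
    obtain ⟨P', hP'1, hP'2⟩ := res_fix (s := s') (ι := algebraMap M N) (κ := k₁.subtype)
      (j₁ := j₁) (i₁ := i₁) hι hj₁' hi₁' ((hQs Q').2 hQ')
    have hPP : P' = P := by
      apply hPu
      intro a ha
      obtain ⟨h1, h2⟩ := hP'2 a
      have h3 : Q'.hom ⟨algebraMap M N a, h1⟩ ≠ 0 := by
        rw [h2, Ne, map_eq_zero]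
        exact ha
      obtain ⟨r, t, hr, ht, hrt⟩ := hK ⟨algebraMap M N a, h1⟩ (fun σ => hMf a σ) h3
      refine ⟨r, t, ?_, ?_, fun σ => ?_⟩
      · rw [hr, ← IsScalarTower.algebraMap_apply]
      · rw [ht, h2]
      · obtain ⟨n, h5, h6⟩ := hrt σ
        rw [hρ', hlamζ, hmuζ]
        exact ⟨n, h5, h6⟩
    rw [hPP] at hP'2
    exact place_uniq hs1 hst hfix hopen hP'2 hQP

theorem gsec2 {p : ℕ} (hp : p.Prime) {E : Type} [NontriviallyNormedField E]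
    [IsUltrametricDist E] [LocallyCompactSpace E] (hpE : ‖(p : E)‖ < 1) {Ω : Type} [Field Ω]
    [Algebra E Ω] [IsAlgClosed Ω] [IsGalois E Ω] {k kb : Type} [Field k] [Field kb] [Algebra k kb]
    [IsAlgClosed kb] [Algebra.IsAlgebraic k kb] [CharZero kb] {i : k →+* E} (hi : DenseRange i)
    {mu : kb →+* Ω} (hmu : ∀ c : k, mu (algebraMap k kb c) = algebraMap E Ω (i c))
    {K N L : Type} [Field K] [Field N] [Field L] [Algebra K N] [Algebra N L]
    [Algebra K L] [IsScalarTower K N L] [Algebra.IsAlgebraic K N]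
    (lam : kb →+* N)
    {ζ : kb} (hζ : IsPrimitiveRoot ζ p)
    (s : (Ω ≃ₐ[E] Ω) →* (N ≃ₐ[K] N))
    (hs : ∀ σ (c c' : kb), mu c' = σ (mu c) → s σ (lam c) = lam c')
    (hL : ∀ f : N, (∀ σ, σ (mu ζ) = mu ζ → s σ f = f) → ∃ r : L, r ^ p = algebraMap N L f)
    (hL1 : ∀ (r : L) (f : N), r ^ p = algebraMap N L f → (∀ σ, σ (mu ζ) = mu ζ → s σ f = f) →
      ∃ w : L, w ^ p = ∏ j ∈ Finset.range p, (1 - algebraMap N L (lam ζ) ^ j * r) ^ j)
    (ρ : (Ω ≃ₐ[E] Ω) →* (L ≃ₐ[K] L)) (hρ : Continuous ρ)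
    (hρs : ∀ σ x, ρ σ (algebraMap N L x) = algebraMap N L (s σ x)) :
    ∃ Q : KPlace lam mu, ((∀ σ (x : Q.ring), ∃ h : s σ x ∈ Q.ring,
        Q.hom ⟨s σ x, h⟩ = σ (Q.hom x)) ∧
      ∀ x : Q.ring, (∀ σ, s σ x = x) → Q.hom x ≠ 0 → ∃ (r : L) (t : Ω),
        r ^ p = algebraMap N L x ∧ t ^ p = Q.hom x ∧ ∀ σ, ∃ n : ℕ,
          ρ σ r = algebraMap N L (lam ζ) ^ n * r ∧ σ t = mu ζ ^ n * t) ∧
      ∀ Q' : KPlace lam mu, (∀ σ (x : Q'.ring), ∃ h : s σ x ∈ Q'.ring,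
        Q'.hom ⟨s σ x, h⟩ = σ (Q'.hom x)) →
      (∀ x : Q'.ring, (∀ σ, s σ x = x) → Q'.hom x ≠ 0 → ∃ (r : L) (t : Ω),
        r ^ p = algebraMap N L x ∧ t ^ p = Q'.hom x ∧ ∀ σ, ∃ n : ℕ,
          ρ σ r = algebraMap N L (lam ζ) ^ n * r ∧ σ t = mu ζ ^ n * t) → Q' = Q := by
  obtain ⟨M, hM⟩ : ∃ M : IntermediateField K N, M = IntermediateField.fixedField s.range :=
    ⟨_, rfl⟩
  have hML : IsScalarTower K M L := by
    refine IsScalarTower.of_algebraMap_eq fun x => ?_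
    rw [IsScalarTower.algebraMap_apply K N L, IsScalarTower.algebraMap_apply M N L,
      ← IsScalarTower.algebraMap_apply K M N]
  refine gsec2_aux (M := M) hp hpE hi hmu lam hζ s hs hL hL1 ρ hρ hρs fun x => ?_
  have h1 : x ∈ M ↔ ∀ σ, s σ x = x := by
    rw [hM, IntermediateField.mem_fixedField_iff]
    constructor
    · intro h σ
      exact h _ ⟨σ, rfl⟩
    · rintro h _ ⟨σ, rfl⟩
      exact h σ
  rw [← h1]
  constructor
  · intro h
    exact ⟨⟨x, h⟩, rfl⟩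
  · rintro ⟨y, rfl⟩
    exact y.2

end Pool.Agent.Helper58.BQ
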